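import Mathlib
import Pool.Agent.MP_e8e0b6_ag.P1.Loc
import Pool.Agent.MP_e8e0b6_ag.P1.Fam
import Pool.Agent.MP_e8e0b6_ag.S.Germ

-- ======== part 0: formerly Pool.Agent.MP_e8e0b6_ag.SB.Hom
section MrgPart0

/-!
Homogeneous coordinates inside a function field.
-/

set_option linter.unusedSectionVars false

open MvPolynomial

namespace Pool.Agent.MP_e8e0b6_ag

variable {B E σ ι : Type} [CommRing B] [Field E] [Algebra B E] {x y u : σ → E} {O W : Subring E}
  {p q r : MvPolynomial σ B} {d e : ℕ}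

theorem aeval_scale {T : Type} [CommRing T] [Algebra B T] (hp : p.IsHomogeneous d) (c : T)
    (x : σ → T) : aeval (fun l => c * x l) p = c ^ d * aeval x p := by
  rw [aeval_def, aeval_def, eval₂_eq, eval₂_eq, Finset.mul_sum]
  refine Finset.sum_congr rfl fun s hs => ?_
  simp only [mul_pow, Finset.prod_mul_distrib, Finset.prod_pow_eq_pow_sum,
    ← hp.degree_eq_sum_deg_support hs]
  ring

theorem aeval_div (hp : p.IsHomogeneous d) (c : E) (x : σ → E) :
    aeval (fun l => x l / c) p = aeval x p / c ^ d := by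
  simpa only [div_eq_inv_mul, inv_pow] using aeval_scale hp c⁻¹ x

theorem exists_grading : ∃ Λ : MvPolynomial σ B →+* Polynomial (MvPolynomial σ B),
    ∀ p n, (Λ p).coeff n = homogeneousComponent n p := by
  let Λ : MvPolynomial σ B →ₐ[B] Polynomial (MvPolynomial σ B) :=
    aeval fun i => Polynomial.X * Polynomial.C (X i)
  have h : ∀ n p, IsHomogeneous p n → Λ p = Polynomial.X ^ n * Polynomial.C p := fun n p hp => by
    rw [aeval_scale hp]
    congr 1
    exact DFunLike.congr_fun (show aeval (fun i => Polynomial.C (X i)) =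
      IsScalarTower.toAlgHom B (MvPolynomial σ B) (Polynomial _) by ext; simp) p
  refine ⟨Λ, fun p n => ?_⟩
  conv => congr <;> rw [← sum_homogeneousComponent p]
  simp only [RingHom.coe_coe, map_sum, Polynomial.finsetSum_coeff]
  refine Finset.sum_congr rfl fun i _ => ?_
  rw [h i _ (homogeneousComponent_isHomogeneous i p),
    homogeneousComponent_of_mem (homogeneousComponent_mem i p), mul_comm,
    Polynomial.coeff_C_mul_X_pow]

theorem hom_of_mul [IsDomain B] (h : (p * q).IsHomogeneous d) (h0 : p * q ≠ 0) :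
    ∃ a b, p.IsHomogeneous a ∧ q.IsHomogeneous b ∧ a + b = d := by
  obtain ⟨Λ, hΛ⟩ := exists_grading (σ := σ) (B := B)
  have h1 : Λ p * Λ q = Polynomial.monomial d (p * q) := by
    rw [← map_mul]
    ext1 n
    rw [hΛ, homogeneousComponent_of_mem h, Polynomial.coeff_monomial]
    simp [eq_comm]
  have h2 : Λ p * Λ q ≠ 0 := by simpa [h1] using h0
  have hp := left_ne_zero_of_mul h2
  have hq := right_ne_zero_of_mul h2
  have h3 := Polynomial.natDegree_mul hp hq
  have h4 := Polynomial.natTrailingDegree_mul hp hq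
  rw [h1, Polynomial.natDegree_monomial_eq _ h0] at h3
  rw [h1, Polynomial.natTrailingDegree_monomial h0] at h4
  have h5 := (Λ p).natTrailingDegree_le_natDegree
  have h6 := (Λ q).natTrailingDegree_le_natDegree
  have key : ∀ f, (Λ f).natDegree ≤ (Λ f).natTrailingDegree →
      f.IsHomogeneous (Λ f).natDegree := fun f hf s hs => by
    have : (Λ f).coeff s.degree ≠ 0 := fun h => hs (by
      simpa [hΛ, coeff_homogeneousComponent] using congrArg (coeff s) h)
    have h7 := Polynomial.le_natDegree_of_ne_zero this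
    have h8 := Polynomial.natTrailingDegree_le_of_ne_zero this
    have h9 : Finsupp.weight 1 s = s.degree := by rw [Finsupp.degree_eq_weight_one]; rfl
    omega
  exact ⟨_, _, key p (by omega), key q (by omega), h3.symm⟩

/-- The polynomials have no common factor. -/
def Cop (P : ι → MvPolynomial σ B) : Prop := ∀ a b, (∀ l, a ∣ b * P l) → a ∣ b

theorem exists_cop [IsDomain B] [UniqueFactorizationMonoid B] [Finite ι] {P : ι → MvPolynomial σ B}
    (hP : ∀ l, (P l).IsHomogeneous d) {i : ι} (h0 : P i ≠ 0) : ∃ (g : MvPolynomial σ B) (a b : ℕ)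
      (R : ι → MvPolynomial σ B), a + b = d ∧ (∀ l, (R l).IsHomogeneous b) ∧
        (∀ l, P l = g * R l) ∧ Cop R := by
  have := Fintype.ofFinite ι
  obtain ⟨_⟩ : Nonempty (NormalizedGCDMonoid (MvPolynomial σ B)) := inferInstance
  obtain ⟨R, h1, h2⟩ := Finset.extract_gcd P ⟨i, Finset.mem_univ i⟩
  replace h1 := fun l => h1 l (Finset.mem_univ l)
  obtain ⟨a, b, h3, -, h4⟩ := hom_of_mul (h1 i ▸ hP i) (h1 i ▸ h0)
  refine ⟨_, a, b, R, h4, fun l => ?_, h1, fun s t h => ?_⟩
  · by_cases h5 : R l = 0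
    · exact h5 ▸ isHomogeneous_zero _ _ _
    have h6 := left_ne_zero_of_mul (h1 i ▸ h0)
    obtain ⟨a', b', h7, h8, h9⟩ := hom_of_mul (h1 l ▸ hP l) (mul_ne_zero h6 h5)
    obtain rfl := h3.inj_right h7 h6
    exact (show b' = b by omega) ▸ h8
  · simpa [h2] using (Finset.dvd_gcd fun l _ => h l).trans
      (Finset.gcd_mul_left' Finset.univ R t).dvd

theorem exists_hom {m : σ} (hu : u m = 1) (h : p.totalDegree ≤ d) :
    ∃ P : MvPolynomial σ B, P.IsHomogeneous d ∧ aeval u P = aeval u p := by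
  refine ⟨∑ i ∈ Finset.range (p.totalDegree + 1), homogeneousComponent i p * X m ^ (d - i),
    .sum _ _ _ fun i hi => ?_, ?_⟩
  · have := (homogeneousComponent_isHomogeneous i p).mul (isHomogeneous_X_pow m (d - i))
    rwa [Nat.add_sub_cancel' ((Nat.lt_succ_iff.1 (Finset.mem_range.1 hi)).trans h)] at this
  · conv_rhs => rw [← sum_homogeneousComponent p]
    simp [hu]

theorem mem_span_iff_hom {f : E} : f ∈ Submodule.span B (Set.range x) ↔
    ∃ p : MvPolynomial σ B, p.IsHomogeneous 1 ∧ aeval x p = f := by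
  have : Submodule.span B (Set.range x) =
      (homogeneousSubmodule σ B 1).map (aeval x : _ →ₐ[B] E).toLinearMap := by
    simp [homogeneousSubmodule_one_eq_span_X, Submodule.map_span, ← Set.range_comp,
      Function.comp_def]
  rw [this]; rfl

theorem eq_C_of_hom (h : p.IsHomogeneous 0) : ∃ b, aeval x p = algebraMap B E b :=
  ⟨_, by rw [totalDegree_eq_zero_iff_eq_C.1 ((totalDegree_zero_iff_isHomogeneous _).2 h), aeval_C]⟩

variable (B) in
/-- No form vanishes at `x`. -/
def HInj (x : σ → E) : Prop :=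
  ∀ (d : ℕ) (p : MvPolynomial σ B), p.IsHomogeneous d → aeval x p = 0 → p = 0

theorem HInj.eq (h : HInj B x) (hp : p.IsHomogeneous d) (hq : q.IsHomogeneous d)
    (e : aeval x p = aeval x q) : p = q :=
  sub_eq_zero.1 (h d _ (hp.sub hq) (by rw [map_sub, e, sub_self]))

theorem HInj.ne (h : HInj B x) (i : σ) : x i ≠ 0 := fun h0 =>
  have := (algebraMap B E).domain_nontrivial
  X_ne_zero i (h 1 _ (isHomogeneous_X B i) (by simpa))

theorem HInj.inj (h : HInj B x) : Function.Injective (algebraMap B E) := fun a b e =>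
  C_injective σ B (h.eq (isHomogeneous_C σ a) (isHomogeneous_C σ b) (by simpa))

theorem HInj.mul (h : HInj B x) {c : E} (hc : c ≠ 0) : HInj B fun l => c * x l := fun d p hp e =>
  h d p hp (by simpa [aeval_scale hp, hc] using e)

theorem HInj.div (h : HInj B x) {c : E} (hc : c ≠ 0) : HInj B fun l => x l / c := by
  simpa only [div_eq_inv_mul] using h.mul (inv_ne_zero hc)

theorem hinj_iff : HInj B x ↔ ∀ d, LinearIndependent B
    fun s : {s : σ →₀ ℕ | s.degree = d} => s.1.prod fun i n => x i ^ n := by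
  refine forall_congr' fun d => ?_
  have e : ∀ p : MvPolynomial σ B, aeval x p = Finsupp.linearCombination B
      (fun s : σ →₀ ℕ => s.prod fun i n => x i ^ n) (AddMonoidAlgebra.coeff p) := fun p => by
    rw [aeval_def, eval₂_eq, Finsupp.linearCombination_apply]
    exact Finset.sum_congr rfl fun s _ => (Algebra.smul_def _ _).symm
  have e' : ∀ p : MvPolynomial σ B, p.IsHomogeneous d ↔
      AddMonoidAlgebra.coeff p ∈ Finsupp.supported B B {s : σ →₀ ℕ | s.degree = d} := fun p => by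
    rw [← mem_homogeneousSubmodule, homogeneousSubmodule_eq_finsupp_supported]; rfl
  refine Iff.trans ⟨fun h l hl h0 => ?_, fun h p hp h0 => ?_⟩ (linearIndepOn_iff
    (v := fun s : σ →₀ ℕ => s.prod fun i n => x i ^ n) (s := {s | s.degree = d})).symm
  · exact congrArg AddMonoidAlgebra.coeff (h (.ofCoeff l) ((e' _).2 hl) ((e _).trans h0))
  · exact AddMonoidAlgebra.ext (h _ ((e' p).1 hp) ((e p).symm.trans h0))

theorem HInj.transfer {B' E' : Type} [CommRing B'] [Field E'] [Algebra B' E'] (φ : E →+* E')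
    (H : ∀ (ι : Type) (v : ι → E), LinearIndependent B v → LinearIndependent B' fun i => φ (v i))
    (h : HInj B x) : HInj B' fun l => φ (x l) :=
  hinj_iff.2 fun d => by simpa [map_finsuppProd] using H _ _ (hinj_iff.1 h d)

theorem HInj.of_map {B' E' : Type} [CommRing B'] [Field E'] [Algebra B' E'] (φ : E →+* E')
    {g : B →+* B'} (hg : Function.Injective g)
    (H : ∀ b, φ (algebraMap B E b) = algebraMap B' E' (g b)) (h : HInj B' fun l => φ (x l)) :
    HInj B x := fun d p hp e => map_injective g hg ((h d _ (hp.map g) (by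
  rw [aeval_def, eval₂_map, ← map_zero φ, ← e, aeval_def, hom_eval₂]
  exact congrArg (eval₂ · _ p) (RingHom.ext H).symm)).trans (map_zero _).symm)

theorem HInj.linearIndependent [Fintype σ] (h : HInj B x) : LinearIndependent B x := by
  classical
  refine Fintype.linearIndependent_iff.2 fun c hc i => ?_
  have := h 1 (∑ l, C (c l) * X l) (.sum _ _ _ fun l _ => isHomogeneous_C_mul_X _ _)
    (by simpa [Algebra.smul_def] using hc)
  simpa [coeff_sum, coeff_X, Finsupp.single_eq_single_iff] using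
    congrArg (coeff (Finsupp.single i 1)) this

theorem HInj.quot [IsDomain B] (h : HInj B x) {i j : σ} (hij : i ≠ j) {f : E} {n : ℕ}
    (hp : p.IsHomogeneous d) (hq : q.IsHomogeneous d) (e1 : f * x i ^ n = aeval x p)
    (e2 : f * x j ^ n = aeval x q) :
    f = 0 ∨ ∃ (G : MvPolynomial σ B) (g : ℕ), G.IsHomogeneous g ∧ n + g = d ∧ aeval x G = f := by
  have h1 := h.eq (hp.mul (isHomogeneous_X_pow j n)) (hq.mul (isHomogeneous_X_pow i n))
    (by simp [← e1, ← e2]; ring)
  obtain ⟨G, rfl⟩ : X i ^ n ∣ p := (X_prime (i := i)).pow_dvd_of_dvd_mul_right n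
    (fun h2 => hij (X_dvd_X.1 (X_prime.dvd_of_dvd_pow h2))) ⟨q, h1.trans (mul_comm _ _)⟩
  have h2 : aeval x G = f := mul_left_cancel₀ (pow_ne_zero n (h.ne i)) (by
    simpa [mul_comm] using e1.symm)
  by_cases h0 : G = 0
  · exact Or.inl (by simp [← h2, h0])
  have h3 := pow_ne_zero n (X_ne_zero (R := B) i)
  obtain ⟨a, g, h4, h5, h6⟩ := hom_of_mul hp (mul_ne_zero h3 h0)
  exact Or.inr ⟨G, g, h5, (isHomogeneous_X_pow i n).inj_right h4 h3 ▸ h6, h2⟩

theorem HInj.multiplier [IsDomain B] [Nontrivial σ] (h : HInj B x) {z : E}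
    (hz : ∀ l, z * x l ∈ Submodule.span B (Set.range x)) : ∃ b, algebraMap B E b = z := by
  obtain ⟨i, j, hij⟩ := exists_pair_ne σ
  obtain ⟨p, hp, e1⟩ := mem_span_iff_hom.1 (hz i)
  obtain ⟨q, hq, e2⟩ := mem_span_iff_hom.1 (hz j)
  obtain rfl | ⟨G, g, h1, h2, rfl⟩ := h.quot (n := 1) (f := z) hij hp hq (by simp [e1]) (by simp [e2])
  · exact ⟨0, map_zero _⟩
  · obtain rfl : g = 0 := by omega
    exact (eq_C_of_hom h1).imp fun _ => Eq.symm

variable (B) in
/-- Evaluation of polynomials. -/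
noncomputable abbrev ev (u : σ → E) : MvPolynomial σ B →+* E := (aeval u : _ →ₐ[B] E)

theorem ev_mem (h : ∀ b, algebraMap B E b ∈ O) (hu : ∀ l, u l ∈ O) (p : MvPolynomial σ B) :
    ev B u p ∈ O := by
  induction p using MvPolynomial.induction_on with
  | C a => simpa using h a
  | add p q hp hq => rw [map_add]; exact add_mem hp hq
  | mul_X p n hp => rw [map_mul]; exact mul_mem hp (by simpa using hu n)

theorem mem_ev {f : E} (h : ∀ O, Loc O → (∀ b, algebraMap B E b ∈ O) → (∀ l, u l ∈ O) → f ∈ O) :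
    ∃ p : MvPolynomial σ B, aeval u p = f :=
  mem_of_loc (A := (ev B u).range) fun O hO hle =>
    h O hO (fun b => hle ⟨C b, by simp⟩) fun l => hle ⟨X l, by simp⟩

theorem HInj.mem_span [IsDomain B] [Nontrivial σ] (h : HInj B x) {f : E}
    (hf : ∀ m O, Loc O → (∀ b, algebraMap B E b ∈ O) → (∀ l, x l / x m ∈ O) → f / x m ∈ O) :
    f ∈ Submodule.span B (Set.range x) := by
  obtain ⟨i, j, hij⟩ := exists_pair_ne σ
  choose p hp using fun m => mem_ev (hf m)
  let n := max (p i).totalDegree (p j).totalDegree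
  have key : ∀ m, (p m).totalDegree ≤ n → ∃ P : MvPolynomial σ B, P.IsHomogeneous (n + 1) ∧
      f * x m ^ n = aeval x P := fun m hm => by
    obtain ⟨P, h1, h2⟩ := exists_hom (u := fun l => x l / x m) (div_self (h.ne m))
      (hm.trans n.le_succ)
    rw [hp, aeval_div h1] at h2
    have := h.ne m
    exact ⟨P, h1, by field_simp at h2; grind⟩
  obtain ⟨P, h1, h2⟩ := key i (le_max_left _ _)
  obtain ⟨Q, h3, h4⟩ := key j (le_max_right _ _)
  obtain rfl | ⟨G, g, h5, h6, rfl⟩ := h.quot hij h1 h3 h2 h4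
  · exact zero_mem _
  · exact mem_span_iff_hom.2 ⟨G, (show g = 1 by omega) ▸ h5, rfl⟩

theorem cen_common {R : Type} [CommRing R] {r : R →+* E} [Finite ι] {ω : ι → E}
    (h : ∀ l, ω l ∈ cen r W) : ∃ s, Un W (r s) ∧ ∀ l, ∃ a, ω l * r s = r a := by
  classical
  have := Fintype.ofFinite ι
  choose a s hs e using h
  refine ⟨∏ l, s l, by rw [map_prod]; exact Un.prod fun l _ => hs l, fun l =>
    ⟨a l * ∏ l' ∈ Finset.univ.erase l, s l', ?_⟩⟩
  rw [← Finset.mul_prod_erase _ _ (Finset.mem_univ l), map_mul, map_mul, ← mul_assoc, e]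

theorem cen_hom [Finite ι] {m : σ} (hu : u m = 1) {ω : ι → E} (h : ∀ l, ω l ∈ cen (ev B u) W) :
    ∃ (s : MvPolynomial σ B) (d : ℕ) (A : ι → MvPolynomial σ B), Un W (aeval u s) ∧
      ∀ l, (A l).IsHomogeneous d ∧ aeval u (A l) = ω l * aeval u s := by
  obtain ⟨s, hs, h1⟩ := cen_common h
  choose a ha using h1
  obtain ⟨d, hd⟩ := Finite.exists_le fun l => (a l).totalDegree
  choose A h2 h3 using fun l => exists_hom hu (hd l)
  exact ⟨s, d, A, hs, fun l => ⟨h2 l, (h3 l).trans (ha l).symm⟩⟩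

theorem Cop.mem_cen [Finite ι] {P : ι → MvPolynomial σ B} (hP : Cop P)
    (hd : ∀ l, (P l).IsHomogeneous d) (h : HInj B u) {m : σ} (hu : u m = 1) {z : E}
    (hz : ∀ l, z * aeval u (P l) ∈ cen (ev B u) W) : z ∈ cen (ev B u) W := by
  have := (algebraMap B E).domain_nontrivial
  obtain ⟨i, hi⟩ : ∃ i, P i ≠ 0 := by
    by_contra! h0
    simpa using hP 0 1 fun l => by simp [h0]
  obtain ⟨s, e, A, hs, hA⟩ := cen_hom hu hz
  obtain ⟨Q, hQ⟩ := hP (P i) (A i) fun l => ⟨A l, h.eq ((hA i).1.mul (hd l))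
    (add_comm d e ▸ (hd i).mul (hA l).1) (by simp only [map_mul, hA]; ring)⟩
  refine ⟨Q, s, hs, mul_left_cancel₀ (fun h0 => hi (h _ _ (hd i) h0)) ?_⟩
  have := (hA i).2
  rw [hQ, map_mul] at this
  exact (this.trans (by simp; ring)).symm

/-- The point `x` of projective space is defined over `O`. -/
def Rt (x : σ → E) (O : Subring E) : Prop := ∃ i, ∀ l, x l / x i ∈ O

theorem Rt.mono (h : Rt x O) (hle : O ≤ W) : Rt x W := h.imp fun _ h l => hle (h l)

theorem rt_mul {c : E} (hc : c ≠ 0) : Rt (fun l => c * x l) O ↔ Rt x O := by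
  simp only [Rt, mul_div_mul_left _ _ hc]

theorem span_div_mem (hB : ∀ b, algebraMap B E b ∈ O) {c f : E} (h : ∀ l, x l / c ∈ O)
    (hf : f ∈ Submodule.span B (Set.range x)) : f / c ∈ O := by
  induction hf using Submodule.span_induction with
  | mem _ h' => obtain ⟨l, rfl⟩ := h'; exact h l
  | zero => simp
  | add _ _ _ _ h h' => rw [add_div]; exact add_mem h h'
  | smul b _ _ h => rw [Algebra.smul_def, mul_div_assoc]; exact mul_mem (hB b) h

theorem Rt.of_span [Finite σ] (hO : Loc O) (hB : ∀ b, algebraMap B E b ∈ O) (h0 : ∀ i, x i ≠ 0)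
    (h : Submodule.span B (Set.range x) = Submodule.span B (Set.range y)) (hx : Rt x O) :
    Rt y O := by
  have := Fintype.ofFinite σ
  obtain ⟨i, hi⟩ := hx
  have h1 : ∀ l, y l / x i ∈ O := fun l => span_div_mem hB hi (h.ge (Submodule.subset_span ⟨l, rfl⟩))
  obtain ⟨c, hc⟩ := (Submodule.mem_span_range_iff_exists_fun B).1
    (h.le (Submodule.subset_span ⟨i, rfl⟩))
  obtain ⟨l, -, hl⟩ := hO.sum (s := Finset.univ) (f := fun l => algebraMap B E (c l) * (y l / x i))
    (fun l _ => mul_mem (hB _) (h1 l)) (by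
      simp only [← mul_div_assoc, ← Finset.sum_div, ← Algebra.smul_def, hc, div_self (h0 i)]
      exact Un.one)
  exact ⟨l, fun m => by
    simpa [div_div_div_cancel_right₀ (h0 i)] using (hl.right (hB _) (h1 l)).div_mem (h1 m)⟩

theorem HInj.of_span [Finite σ] (hx : HInj B x)
    (h : Submodule.span B (Set.range x) = Submodule.span B (Set.range y)) : HInj B y := by
  classical
  have := Fintype.ofFinite σ
  choose M hM using fun l => (Submodule.mem_span_range_iff_exists_fun B).1
    (h.ge (Submodule.subset_span ⟨l, rfl⟩))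
  choose N hN using fun l => (Submodule.mem_span_range_iff_exists_fun B).1
    (h.le (Submodule.subset_span ⟨l, rfl⟩))
  have h1 : Matrix.of N * Matrix.of M = 1 := by
    ext i j
    refine sub_eq_zero.1 (Fintype.linearIndependent_iff.1 hx.linearIndependent
      (fun j => (Matrix.of N * Matrix.of M) i j - (1 : Matrix σ σ B) i j) ?_ j)
    simp only [sub_smul, Finset.sum_sub_distrib, Matrix.mul_apply, Finset.sum_smul, mul_smul]
    rw [Finset.sum_comm]
    simp [← Finset.smul_sum, hM, hN, Matrix.one_apply]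
  have h2 : ∀ i j, ∑ l, M i l * N l j = (1 : Matrix σ σ B) i j :=
    congrFun₂ (show Matrix.of M * Matrix.of N = 1 from mul_eq_one_comm.1 h1)
  let lin := fun (M : σ → σ → B) l => ∑ i, (C (M l i) * X i : MvPolynomial σ B)
  intro d p hp e
  have h3 := hx _ _ (hp.aeval (lin M) fun l => .sum _ _ _ fun l _ => isHomogeneous_C_mul_X _ _) (by
    rw [← e, ← AlgHom.comp_apply, comp_aeval]
    simp [lin, ← Algebra.smul_def, hM])
  have h4 := congrArg (aeval (lin N)) h3
  rw [← AlgHom.comp_apply, comp_aeval, map_zero] at h4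
  refine (aeval_X_left_apply p).symm.trans (Eq.trans (congrArg (aeval · p) (funext fun l => ?_)) h4)
  simp only [lin, map_sum, map_mul, aeval_C, aeval_X, Finset.mul_sum, algebraMap_eq, ← mul_assoc]
  rw [Finset.sum_comm]
  simp only [← Finset.sum_mul, ← map_sum, ← C_mul]
  simp [h2, Matrix.one_apply, apply_ite]

variable (B) in
/-- `x` identifies the variety whose local rings are described by `𝓠` with projective space. -/
structure PC (𝓠 : Subring E → Prop) (x : σ → E) : Prop where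
  hinj : HInj B x
  iff : ∀ O, Loc O → (∀ b, algebraMap B E b ∈ O) → (𝓠 O ↔ Rt x O)

variable {𝓠 : Subring E → Prop}

theorem PC.mul (h : PC B 𝓠 x) {c : E} (hc : c ≠ 0) : PC B 𝓠 fun l => c * x l :=
  ⟨h.hinj.mul hc, fun O hO hB => (h.iff O hO hB).trans (rt_mul hc).symm⟩

theorem PC.of_span [Finite σ] (hx : PC B 𝓠 x)
    (h : Submodule.span B (Set.range x) = Submodule.span B (Set.range y)) : PC B 𝓠 y :=
  ⟨hx.hinj.of_span h, fun O hO hB => (hx.iff O hO hB).trans
    ⟨.of_span hO hB hx.hinj.ne h, .of_span hO hB (hx.hinj.of_span h).ne h.symm⟩⟩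

theorem PC.cen (hx : PC B 𝓠 x) (hO : Loc O) (hB : ∀ b, algebraMap B E b ∈ O) {m : σ}
    (h : ∀ l, x l / x m ∈ O) : 𝓠 (cen (ev B fun l => x l / x m) O) :=
  (hx.iff _ (pt_cen hO (ev_mem hB h)).loc fun b => by
    simpa using map_mem_cen (r := ev B fun l => x l / x m) (W := O) (C b)).2
    ⟨m, fun l => by simpa using map_mem_cen (r := ev B fun l => x l / x m) (W := O) (X l)⟩

theorem PC.rt (hx : PC B 𝓠 x) (hy : PC B 𝓠 y) (hO : Loc O) (hB : ∀ b, algebraMap B E b ∈ O)
    {m : σ} (h : ∀ l, x l / x m ∈ O) : Rt y (MP_e8e0b6_ag.cen (ev B fun l => x l / x m) O) :=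
  (hy.iff _ (pt_cen hO (ev_mem hB h)).loc fun b => by
    simpa using map_mem_cen (r := ev B fun l => x l / x m) (W := O) (C b)).1 (hx.cen hO hB h)

variable [Finite σ] [Nontrivial σ] [IsDomain B] [UniqueFactorizationMonoid B]

theorem PC.exists_rep (hx : PC B 𝓠 x) (hy : PC B 𝓠 y) : ∃ (h : E) (d : ℕ)
    (P : σ → MvPolynomial σ B), (∀ l, (P l).IsHomogeneous d) ∧ (∀ l, y l = h * aeval x (P l)) ∧
      ∀ m O, Loc O → (∀ b, algebraMap B E b ∈ O) → (∀ l, x l / x m ∈ O) →
        ∃ i, Un O (aeval (fun l => x l / x m) (P i)) ∧ ∀ l, y l / y i ∈ O := by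
  obtain ⟨m⟩ : Nonempty σ := inferInstance
  obtain ⟨i, hi⟩ := hx.rt hy loc_top (fun _ => trivial) (m := m) fun _ => trivial
  obtain ⟨s, d, A, hs, hA⟩ := cen_hom (u := fun l => x l / x m) (div_self (hx.hinj.ne m)) hi
  have h1 := hy.hinj.ne i
  have h2 := hx.hinj.ne
  have h3 := hs.2.1
  obtain ⟨g, a, b, P, -, h4, h5, h6⟩ := exists_cop (fun l => (hA l).1) (i := i) fun h0 =>
    h3 (by simpa [h0, h1] using (hA i).2.symm)
  obtain ⟨h, h7⟩ : ∃ h, ∀ l, y l = h * aeval x (P l) :=
    ⟨y i / aeval (fun l => x l / x m) s / x m ^ d * aeval x g, fun l => by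
      have := (hA l).2
      rw [aeval_div (hA l).1, h5, map_mul] at this
      have := h2 m
      field_simp at *
      grind⟩
  refine ⟨h, b, P, h4, h7, fun m O hO hB hm => ?_⟩
  obtain ⟨i, hi⟩ := hx.rt hy hO hB hm
  have h8 := dom_cen (ev_mem hB hm)
  have h9 : h ≠ 0 ∧ aeval x (P i) ≠ 0 := by simpa [h7] using hy.hinj.ne i
  refine ⟨i, ⟨ev_mem hB hm _, by simp [aeval_div (h4 i), h9, h2], h8.1 (h6.mem_cen h4
    (hx.hinj.div (h2 m)) (div_self (h2 m)) fun l => ?_)⟩, fun l => h8.1 (hi l)⟩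
  convert hi l using 1
  rw [aeval_div (h4 i), aeval_div (h4 l), h7, h7]
  have := h2 m
  field_simp [h9.1, h9.2]

/-- Automorphisms of projective space are linear. -/
theorem PC.unique (hx : PC B 𝓠 x) (hy : PC B 𝓠 y) : ∃ h : E, h ≠ 0 ∧
    Submodule.span B (Set.range y) = Submodule.span B (Set.range fun l => h * x l) := by
  obtain ⟨h, d, P, h1, h2, h3⟩ := hx.exists_rep hy
  obtain ⟨h', e, Q, h4, h5, h6⟩ := hy.exists_rep hx
  obtain ⟨i, j, hij⟩ := exists_pair_ne σ
  have hh : h ≠ 0 := left_ne_zero_of_mul (h2 i ▸ hy.hinj.ne i)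
  have hh' : h' ≠ 0 := left_ne_zero_of_mul (h5 i ▸ hx.hinj.ne i)
  have h7 : ∀ l, (h' * h ^ e)⁻¹ * x l ^ 1 = aeval x (aeval P (Q l)) := fun l => by
    have := h5 l
    rw [funext h2, aeval_scale (h4 l)] at this
    rw [← AlgHom.comp_apply, comp_aeval, this]
    field_simp
  obtain h8 | ⟨G, g, h8, h9, h10⟩ := hx.hinj.quot hij ((h4 i).aeval P h1) ((h4 j).aeval P h1)
    (h7 i) (h7 j)
  · simp [hh, hh'] at h8
  have key : ∀ m, ∃ N, G ∣ X m ^ N := fun m => by
    have hm := hx.hinj.ne m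
    obtain ⟨H, hH⟩ := mem_ev (B := B) (u := fun l => x l / x m)
      (f := (aeval (fun l => x l / x m) G)⁻¹) fun O hO hB hm' => by
        obtain ⟨i, h11, h12⟩ := h3 m O hO hB hm'
        obtain ⟨l, h13, -⟩ := h6 i O hO hB h12
        refine (Un.left (b := x l / x m) ?_ (ev_mem hB hm' G) (hm' l)).2.2
        convert h13.mul (h11.pow e) using 1
        have := hy.hinj.ne i
        have h14 : aeval x (P i) = y i / h := by rw [h2]; field_simp
        have h15 : aeval y (Q l) = x l / h' := by rw [h5]; field_simp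
        have h16 : x m ^ (d * e) = x m * x m ^ g := by rw [← h9, pow_add, pow_one]
        rw [RingHom.coe_coe, aeval_div h8, aeval_div (h4 l), aeval_div (h1 i), h10, h14, h15, div_pow, div_pow,
          ← pow_mul, h16]
        field_simp
    obtain ⟨H', h11, h12⟩ := exists_hom (u := fun l => x l / x m) (div_self hm) (le_refl H.totalDegree)
    refine ⟨_, H', (hx.hinj.div hm).eq (isHomogeneous_X_pow m _) (h8.mul h11) ?_⟩
    simp [h12, hH, hm, aeval_div h8, h10, hh, hh']
  obtain ⟨G', hG⟩ : ∃ G', G * G' = 1 := by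
    obtain ⟨a, ha⟩ := key i
    obtain ⟨b, hb⟩ := key j
    obtain ⟨_ | n, -, h⟩ := (dvd_prime_pow X_prime a).1 ha
    · exact (associated_one_iff_isUnit.1 h).exists_right_inv
    · exact absurd (X_dvd_X.1 (X_prime.dvd_of_dvd_pow
        ((dvd_pow_self _ n.succ_ne_zero).trans (h.symm.dvd.trans hb)))) hij
  obtain ⟨a, b, h11, h12, h13⟩ := hom_of_mul (hG ▸ isHomogeneous_one σ B) (hG ▸ one_ne_zero)
  obtain rfl := h8.inj_right h11 (left_ne_zero_of_mul_eq_one hG)
  obtain ⟨rfl, rfl⟩ := Nat.add_eq_zero_iff.1 h13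
  obtain ⟨rfl, rfl⟩ : d = 1 ∧ e = 1 := by simpa using h9.symm
  obtain ⟨c, hc⟩ := eq_C_of_hom (x := x) h12
  have h14 := congrArg (aeval x) hG
  rw [map_mul, map_one, h10, hc, pow_one, inv_mul_eq_one₀ (mul_ne_zero hh' hh)] at h14
  refine ⟨h, hh, le_antisymm (Submodule.span_le.2 ?_) (Submodule.span_le.2 ?_)⟩
  · rintro _ ⟨l, rfl⟩
    exact mem_span_iff_hom.2 ⟨P l, h1 l, by simp [aeval_scale (h1 l), h2]⟩
  · rintro _ ⟨l, rfl⟩
    exact mem_span_iff_hom.2 ⟨C c * Q l, (h4 l).C_mul c, by simp [← h14, h5 l]; ring⟩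

end Pool.Agent.MP_e8e0b6_ag

end MrgPart0

-- ======== part 1: formerly Pool.Agent.MP_e8e0b6_ag.SB.Base
section MrgPart1

/-!
Frames over an affine line, integrality of smooth families, charts of base changes, lines of sprays.
-/

set_option linter.unusedSectionVars false

namespace Pool.Agent.MP_e8e0b6_ag.SB

section
open Polynomial TensorProduct IsLocalRing Module

variable {k A R F : Type} [Field k] [CharZero k] [IsAlgClosed k]

theorem mem_radical_of_points {R : Type} [CommRing R] [Algebra k R] [Algebra.FiniteType k R]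
    {I : Ideal R} {f : R} (h : ∀ e : R →ₐ[k] k, I ≤ kerPt e → e f = 0) : f ∈ I.radical := by
  have := isJacobsonRing_of_finiteType (A := k) (B := R)
  rw [Ideal.radical_eq_jacobson, Ideal.jacobson, Ideal.mem_sInf]
  rintro m ⟨h1, h2⟩
  obtain ⟨e, he⟩ := exists_point (k := k) m h2.ne_top
  exact h2.eq_of_le (Ideal.IsPrime.ne_top inferInstance) he ▸ h e (h1.trans he)

variable [CommRing A] [IsDomain A]
  [Algebra k A] [Algebra.FiniteType k A] [Field F] [Algebra A[X] F] {x : A →ₐ[k] k}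
  [CommRing R] [IsDomain R] [IsLocalRing R] [Algebra A R] [IsLocalization.AtPrime R (kerPt x)]

attribute [local instance] Polynomial.algebra in
variable (x) in
theorem exists_frame (hL : AllFree R[X]) (hi : Function.Injective (algebraMap A[X] F))
    (N : Submodule A[X] F) [Module.Finite A[X] N] [Module.Flat A[X] N] :
    ∃ (m : ℕ) (ψ : Fin m → F) (h : A), x h ≠ 0 ∧ (∀ l, ψ l ∈ N) ∧ LinearIndependent A[X] ψ ∧
      ∀ y ∈ N, (C h : A[X]) • y ∈ Submodule.span A[X] (Set.range ψ) := by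
  classical
  have := Algebra.FiniteType.isNoetherianRing k A
  let M := (kerPt x).primeCompl.map (C : A →+* A[X])
  have := Polynomial.isLocalization (kerPt x).primeCompl R
  have hM : ∀ y : M, IsUnit (algebraMap A[X] F y) := by
    rintro ⟨_, a, ha, rfl⟩
    exact ((map_ne_zero_iff _ hi).2 (C_ne_zero.2 fun h : a = 0 => ha (h ▸ zero_mem _))).isUnit
  let := (IsLocalization.lift (S := R[X]) hM).toAlgebra
  have : IsScalarTower A[X] R[X] F := .of_algebraMap_eq fun a => (IsLocalization.lift_eq hM a).symm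
  have := IsLocalization.flat R[X] M
  have hj : Function.Injective ((LinearMap.id : F →ₗ[A[X]] F).liftBaseChange R[X]) := by
    have : (LinearMap.id : F →ₗ[A[X]] F).liftBaseChange R[X] =
      (IsLocalization.moduleLid M R[X] F).toLinearMap := by
        ext y
        exact (one_smul R[X] y).trans ((IsLocalization.moduleLid M R[X] F).symm_apply_eq.1 rfl)
    rw [this]; exact (IsLocalization.moduleLid M R[X] F).injective
  have := IsLocalization.isNoetherianRing (kerPt x).primeCompl R inferInstance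
  have := finitePresentation_of_finite R[X] (R[X] ⊗[A[X]] N)
  have := Flat.projective_of_finitePresentation (R := R[X]) (M := R[X] ⊗[A[X]] N)
  have := hL.free (R[X] ⊗[A[X]] N)
  let b := (finBasis R[X] (R[X] ⊗[A[X]] N)).map (spanEquiv R[X] LinearMap.id hj N)
  choose t ht using fun l => multiple_mem_span_of_mem_localization_span M R[X] _ _ (b l).2
  choose u hu using fun l => IsLocalization.map_units R[X] (t l)
  have e : ∀ l, t l • (b l : F) = (b.unitsSMul u l : F) := fun l => by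
    rw [Basis.unitsSMul_apply, Units.smul_def, hu, Submodule.coe_smul, algebraMap_smul]; rfl
  obtain ⟨s, hs⟩ := Module.Finite.iff_fg.1 ‹Module.Finite A[X] N›
  have h1 : ∀ y ∈ N, ∃ c : M, c • y ∈ Submodule.span A[X] (Set.range fun l => t l • (b l : F)) :=
    fun y hy => multiple_mem_span_of_mem_localization_span M R[X] _ _ (by
      have := Submodule.apply_mem_span_image_of_mem_span (Submodule.subtype _)
        ((b.unitsSMul u).mem_span ⟨y, Submodule.subset_span ⟨y, hy, rfl⟩⟩)
      rw [← Set.range_comp] at this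
      simp only [e]
      exact this)
  choose t' ht' using fun y : s => h1 y (hs ▸ Submodule.subset_span y.2)
  obtain ⟨h, hh, e'⟩ := (∏ y, t' y).2
  refine ⟨_, fun l => t l • (b l : F), h, hh, fun l => by simpa using ht l, ?_, fun y hy => ?_⟩
  · simp only [e]
    exact ((b.unitsSMul u).linearIndependent.map' _ (Submodule.ker_subtype _)).restrict_scalars
      (by simpa [← Algebra.algebraMap_eq_smul_one] using map_injective _ (IsLocalization.injective R
        (kerPt x).primeCompl_le_nonZeroDivisors))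
  · refine (Submodule.span_le (p := Submodule.comap (LinearMap.lsmul A[X] F (C h))
      (Submodule.span A[X] (Set.range fun l => t l • (b l : F))))).2
      (fun y hy => ?_) (hs.ge hy)
    have := Submodule.smul_mem _ (∏ y' ∈ Finset.univ.erase (⟨y, hy⟩ : s), t' y').1 (ht' ⟨y, hy⟩)
    rwa [Submonoid.smul_def, smul_smul, ← Submonoid.coe_mul, Finset.prod_erase_mul _ _
      (Finset.mem_univ _), ← e'] at this

variable (R x) in
/-- The residue map. -/
noncomputable def resAt : R →+* k :=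
  IsLocalization.lift (M := (kerPt x).primeCompl) (g := (x : A →+* k)) fun y => Ne.isUnit y.2

theorem resAt_map (a : A) : resAt R x (algebraMap A R a) = x a := IsLocalization.lift_eq _ a

theorem isUnit_of_resAt {a : R} (h : resAt R x a ≠ 0) : IsUnit a := by_contra fun h' =>
  h ((ker_eq_maximalIdeal (resAt R x) fun c => ⟨_, (resAt_map _).trans (x.commutes c)⟩).ge h')

variable (x) in
/-- The base point. -/
noncomputable def basePt : A[X] →ₐ[k] k := x.comp ((aeval (0 : A)).restrictScalars k)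

theorem basePt_apply (c : A[X]) : basePt x c = x (c.eval 0) := by simp [basePt]

end

open AlgebraicGeometry CategoryTheory Limits IsLocalRing TensorProduct Polynomial TrivSqZeroExt

section
variable {P L T R Ω : Type} [CommRing P] [CommRing L] [CommRing T] [CommRing R] [Field Ω]
  (M : Submonoid P) [Algebra P L] [IsLocalization M L]
include M

theorem ext_loc {r : R →+* Ω} {θ : R →+* T} {φ : L →+* Ω} {ρ : L →+* T}
    (h : ∀ p, Ext r θ (φ (algebraMap P L p)) (ρ (algebraMap P L p))) (b : L) :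
    Ext r θ (φ b) (ρ b) := by
  obtain ⟨⟨p, s⟩, e⟩ := IsLocalization.surj M b
  exact (h p).of_mul (h s) ((IsLocalization.map_units L s).map ρ) (by rw [← map_mul, e])
    (by rw [← map_mul, e])

theorem inj_loc {g : L →+* T} (h : ∀ p, g (algebraMap P L p) = 0 → p = 0) : Function.Injective g :=
  (injective_iff_map_eq_zero g).2 fun b hb => by
    obtain ⟨⟨p, s⟩, e⟩ := IsLocalization.surj M b
    rw [h p (by rw [← e, map_mul, hb, zero_mul]), map_zero] at e
    exact (IsLocalization.map_units L s).mul_left_eq_zero.1 e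

end

variable {k C D A : Type} [Field k] [IsAlgClosed k] [CharZero k] [CommRing C] [CommRing D]
  [CommRing A] {Y Z : Scheme.{0}}

theorem isReduced_of_etale [IsDomain C] {φ : C →+* A} (h : φ.Etale) : IsReduced A := by
  algebraize [φ]
  have := Algebra.FormallyUnramified.isReduced_of_field (FractionRing C) (FractionRing C ⊗[C] A)
  exact isReduced_of_injective _ (Algebra.TensorProduct.includeRight_injective (B := A)
    (IsFractionRing.injective C (FractionRing C)))

theorem smooth_of_chart {q : Y ⟶ Spec (.of C)} [Smooth q] (j : Spec (.of A) ⟶ Y)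
    [IsOpenImmersion j] {φ : C →+* A} (h : j ≫ q = sp φ) : φ.Smooth :=
  (HasRingHomProperty.Spec_iff (P := @Smooth) (φ := CommRingCat.ofHom φ)).1
    (show Smooth (sp φ) from h ▸ inferInstance)

theorem isReduced_of_smooth [IsDomain C] (q : Y ⟶ Spec (.of C)) [Smooth q] :
    AlgebraicGeometry.IsReduced Y := by
  choose A _ j _ φ h1 h2 h3 h4 using fun y => exists_piece q y ⊤ trivial RingHom.IsStandardSmooth
    fun A _ j _ φ h => (smooth_of_chart j h).locally_isStandardSmooth
  have : ∀ y, AlgebraicGeometry.IsReduced (Spec (.of (A y))) := fun y =>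
    let ⟨_, _, _, h⟩ := (h4 y).exists_etale_mvPolynomial
    have := isReduced_of_etale h
    inferInstance
  exact @IsReduced.of_openCover _ (Scheme.Cover.mkOfCovers _ _ j fun y => ⟨y, h1 y⟩) this

theorem exists_pt_mem [Algebra k C] [Algebra.FiniteType k C] {U : Set (Spec (.of C))}
    (hU : IsOpen U) (h : U.Nonempty) : ∃ τ : C →ₐ[k] k, sp (τ : C →+* k) (closedPoint k) ∈ U := by
  obtain ⟨p, hp⟩ := h
  obtain ⟨_, ⟨f, rfl⟩, h1, h2⟩ :=
    PrimeSpectrum.isTopologicalBasis_basic_opens.exists_subset_of_mem_open hp hU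
  by_contra! H
  exact h1 ((Ideal.IsPrime.radical_le_iff p.2).2 bot_le (mem_radical_of_points (k := k)
    fun e _ => by_contra fun h0 => H e (h2 fun h3 => h3 (Ne.isUnit h0))))

theorem isIntegral_of_fibres [IsDomain C] [Algebra k C] [Algebra.FiniteType k C]
    (q : Y ⟶ Spec (.of C)) [Smooth q] (h : ∀ τ : C →ₐ[k] k, ∃ (Z : Scheme.{0}) (m : Z ⟶ Y)
      (q' : Z ⟶ Spec (.of k)), IsPullback m q' q (sp (τ : C →+* k)) ∧ IsIntegral Z) :
    IsIntegral Y := by
  have := isReduced_of_smooth q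
  have : Nonempty Y := by
    obtain ⟨τ, -⟩ := exists_point (k := k) (⊥ : Ideal C) bot_ne_top
    obtain ⟨Z, m, -, -, _⟩ := h τ
    exact ⟨m (genericPoint Z)⟩
  have : PreirreducibleSpace Y := ⟨fun U V hU hV ⟨u, _, hu⟩ ⟨v, _, hv⟩ => by
    obtain ⟨τ, ⟨u, hu, e⟩, v, hv, e'⟩ := exists_pt_mem (k := k)
      ((q.isOpenMap _ hU).inter (q.isOpenMap _ hV))
      (nonempty_preirreducible_inter (q.isOpenMap _ hU) (q.isOpenMap _ hV) ⟨_, u, hu, rfl⟩
        ⟨_, v, hv, rfl⟩)
    obtain ⟨Z, m, q', H, _⟩ := h τ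
    obtain ⟨a, rfl, -⟩ := Scheme.exists_preimage_of_isPullback H u _ e
    obtain ⟨b, rfl, -⟩ := Scheme.exists_preimage_of_isPullback H v _ e'
    obtain ⟨z, hz⟩ := nonempty_preirreducible_inter (hU.preimage m.continuous)
      (hV.preimage m.continuous) ⟨a, hu⟩ ⟨b, hv⟩
    exact ⟨m z, trivial, hz⟩⟩
  have : IrreducibleSpace Y := ⟨‹_›⟩
  exact isIntegral_of_irreducibleSpace_of_isReduced _

theorem exists_bc_chart [Algebra C D] [Algebra C A] {q : Y ⟶ Spec (.of C)} {m : Z ⟶ Y}
    {q' : Z ⟶ Spec (.of D)} (H : IsPullback m q' q (sp (algebraMap C D))) (j : Spec (.of A) ⟶ Y)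
    [IsOpenImmersion j] (h : j ≫ q = sp (algebraMap C A)) :
    ∃ j' : Spec (.of (D ⊗[C] A)) ⟶ Z, IsOpenImmersion j' ∧ j' ≫ q' = sp (algebraMap D _) ∧
      j' ≫ m = sp (Algebra.TensorProduct.includeRight (R := C) (A := D)).toRingHom ≫ j := by
  have P := (isPullback_SpecMap_of_isPushout _ _ _ _ (CommRingCat.isPushout_tensorProduct C D A))
  let j' := H.lift (sp (Algebra.TensorProduct.includeRight (R := C) (A := D)).toRingHom ≫ j)
    (sp (algebraMap D _)) (by rw [Category.assoc, h]; exact P.w.symm)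
  have h1 : j' ≫ q' = _ := H.lift_snd _ _ _
  have h2 : j' ≫ m = _ := H.lift_fst _ _ _
  refine ⟨j', MorphismProperty.of_isPullback (IsPullback.of_bot (h₁₁ := sp _) ?_ h2.symm H)
    ‹IsOpenImmersion j›, h1, h2⟩
  rw [h, h1]
  exact P.flip

theorem ufd_smooth [IsDomain A] [Algebra k A] [Algebra.Smooth k A] (p : Ideal A) [hp : p.IsMaximal] :
    UniqueFactorizationMonoid (Localization.AtPrime p) := by
  obtain ⟨e, he⟩ := exists_point (k := k) p hp.ne_top
  obtain rfl := hp.eq_of_le (Ideal.IsPrime.ne_top inferInstance) he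
  obtain ⟨s, hs, h⟩ := (RingHom.smooth_algebraMap.2 ‹_›).locally_isStandardSmooth
  obtain ⟨t, ht, h1⟩ : ∃ t ∈ s, t ∉ kerPt e := by
    by_contra! h1
    exact hp.ne_top (top_le_iff.1 (hs ▸ Ideal.span_le.2 h1))
  obtain ⟨n, z, h2, h3⟩ := (h t ht).exists_etale_mvPolynomial
  let B := Localization.Away t
  let R := Localization.AtPrime (kerPt e)
  have h4 : Submonoid.powers t ≤ (kerPt e).primeCompl := Submonoid.powers_le.2 h1
  have := IsLocalization.isDomain_of_le_nonZeroDivisors B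
    (h4.trans (kerPt e).primeCompl_le_nonZeroDivisors)
  let := IsLocalization.localizationAlgebraOfSubmonoidLe B R _ _ h4
  have := IsLocalization.localization_isScalarTower_of_submonoid_le B R _ _ h4
  have := IsLocalization.isLocalization_of_submonoid_le B R _ _ h4
  have h5 : ∀ a, resAt R e (algebraMap B R (algebraMap A B a)) = e a := fun a => by
    rw [← IsScalarTower.algebraMap_apply, resAt_map]
  let e' : B →ₐ[k] k := ⟨(resAt R e).comp (algebraMap B R), fun c => (h5 _).trans (e.commutes c)⟩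
  have : IsLocalization.AtPrime R (kerPt e') := .of_le ((kerPt e).primeCompl.map (algebraMap A B)) _
    (by rintro _ ⟨a, ha, rfl⟩ h; exact ha ((h5 a).symm.trans h)) fun _ h => isUnit_of_resAt h
  exact ufd_local ⟨z, DFunLike.congr_fun h2⟩ h3 e' R

open AffineSpace in
theorem exists_line {f : Y ⟶ Spec (.of k)} (hf : Elliptic f) (v : Spec (.of (DualNumber k)) ⟶ Y)
    (hv : v ≫ f = epsProj k) : ∃ U : Y.Opens, v (closedPoint _) ∈ U ∧ ∀ (A : Type) [CommRing A]
      (g : Spec (.of A) ⟶ Y) (e : A →+* k), Set.range g ⊆ U → sp e ≫ g = epsPoint k ≫ v →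
      ∃ γ : Spec (.of A[X]) ⟶ Y, γ ≫ f = sp Polynomial.C ≫ g ≫ f ∧ sp constantCoeff ≫ γ = g ∧
        sp (eval₂RingHom ((inlR k).comp e) DualNumber.eps) ≫ γ = v := by
  obtain ⟨σ, hσ⟩ := hf.2
  obtain ⟨w, h1, h2, h3⟩ := hσ v hv
  obtain ⟨i, hi⟩ := σ.cover (v (closedPoint _))
  refine ⟨σ.U i, hi, fun A _ g e hg he => ?_⟩
  obtain ⟨g, rfl⟩ : ∃ g', g' ≫ (σ.U i).ι = g :=
    ⟨_, IsOpenImmersion.lift_fac _ g (by rwa [Scheme.Opens.range_ι])⟩
  obtain ⟨φ, hφ⟩ := sp_surj (g ≫ (σ.U i).ι ≫ f)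
  have h4 : e.comp φ = RingHom.id k := sp_inj (by
    rw [← sp_comp, hφ, reassoc_of% he, hv]
    exact (sp_comp _ _).trans (congrArg sp (RingHom.ext fun a => rfl)))
  obtain ⟨w, rfl, h5⟩ : ∃ w', w' ≫ σ.e i = w ∧ w' ≫ _ = epsProj k ≫ sp e ≫ g :=
    ⟨_, (σ.isPullback i).lift_fst w _ (by rw [h1, ← he]; simp), (σ.isPullback i).lift_snd _ _ _⟩
  have : IsOpenImmersion (σ.e i) :=
    MorphismProperty.of_isPullback (σ.isPullback i).flip (inferInstance : IsOpenImmersion _)
  have h6 : epsPoint k ≫ w = sp e ≫ g ≫ zeroSec _ _ := (cancel_mono (σ.e i)).1 (by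
    rw [Category.assoc, h2, Category.assoc, Category.assoc, σ.zero_eq, ← reassoc_of% he])
  let c := fun a => (Scheme.ΓSpecIso (.of (DualNumber k))).hom (w.appTop (coord _ a))
  have hc : ∀ a, (Scheme.ΓSpecIso (.of (DualNumber k))).inv (c a) = w.appTop (coord _ a) :=
    fun a => Iso.hom_inv_id_apply _ _
  have h7 : ∀ a, (c a).fst = 0 := fun a => by
    have := congrArg (fun g => g.appTop (coord _ a)) h6
    simp only [appTop_comp, homOfVector_appTop_coord, map_zero] at this
    rw [← hc] at this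
    exact (map_eq_zero_iff _ (Scheme.ΓSpecIso (.of k)).symm.commRingCatIsoToRingEquiv.injective).1
      ((sp_app (fstR k) _).symm.trans this)
  let l := homOfVector (sp Polynomial.C ≫ g) fun a =>
    (Scheme.ΓSpecIso (.of A[X])).inv (Polynomial.C (φ (c a).snd) * X)
  refine ⟨l ≫ σ.e i ≫ σ.s, ?_, ?_, ?_⟩
  · rw [Category.assoc, Category.assoc, σ.s_over, (σ.isPullback i).w_assoc, homOfVector_over_assoc]
    simp
  · have : sp constantCoeff ≫ l = g ≫ zeroSec _ _ := hom_ext (by
      rw [Category.assoc, Category.assoc, homOfVector_over, homOfVector_over, sp_comp_assoc,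
        show constantCoeff.comp Polynomial.C = RingHom.id A from RingHom.ext (by simp), sp_id]
      simp) fun a => by
        rw [appTop_comp, appTop_comp, homOfVector_appTop_coord, homOfVector_appTop_coord, map_zero,
          sp_app]
        simp
    rw [reassoc_of% this, reassoc_of% σ.zero_eq, σ.zero_s, Category.comp_id]
  · have : sp (eval₂RingHom ((inlR k).comp e) DualNumber.eps) ≫ l = w := hom_ext (by
      rw [Category.assoc, homOfVector_over, h5, sp_comp_assoc]
      refine Eq.trans ?_ (sp_comp_assoc _ _ _).symm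
      congr 2
      ext1 a
      simp) fun a => by
        rw [appTop_comp, homOfVector_appTop_coord, sp_app, ← hc]
        congr 1
        ext <;> simp [h7, TrivSqZeroExt.algebraMap_eq_inl, show ∀ x, e (φ x) = x from DFunLike.congr_fun h4]
    rw [reassoc_of% this, ← h3, Category.assoc]

theorem eps_closedPoint : epsPoint k (closedPoint k) = closedPoint (DualNumber k) :=
  sp_closedPoint (fstR k) fun _ hx => isUnit_iff_isUnit_fst.2 hx

theorem noZeroDivisors_of_fg [Algebra C D] [Algebra C A] [Module.Flat C A]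
    (h : ∀ B : Subalgebra C D, B.FG → NoZeroDivisors (B ⊗[C] A)) : NoZeroDivisors (D ⊗[C] A) := by
  let μ := fun B : Subalgebra C D => Algebra.TensorProduct.map B.val (AlgHom.id C A)
  have key : ∀ x, ∃ B : Subalgebra C D, B.FG ∧ ∀ B', B ≤ B' → ∃ y, μ B' y = x := fun x => by
    induction x using TensorProduct.induction_on with
    | zero => exact ⟨⊥, Subalgebra.fg_bot, fun _ _ => ⟨0, map_zero _⟩⟩
    | tmul d a => exact ⟨_, Subalgebra.fg_adjoin_finset {d}, fun B h =>
        ⟨⟨d, h (Algebra.subset_adjoin (by simp))⟩ ⊗ₜ a, rfl⟩⟩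
    | add x y hx hy =>
      obtain ⟨B, h1, h2⟩ := hx
      obtain ⟨B', h3, h4⟩ := hy
      refine ⟨_, h1.sup h3, fun B h => ?_⟩
      obtain ⟨x, rfl⟩ := h2 B (le_sup_left.trans h)
      obtain ⟨y, rfl⟩ := h4 B (le_sup_right.trans h)
      exact ⟨x + y, map_add _ _ _⟩
  refine ⟨fun {x y} e => ?_⟩
  obtain ⟨B, h1, h2⟩ := key x
  obtain ⟨B', h3, h4⟩ := key y
  obtain ⟨x, rfl⟩ := h2 _ (le_sup_left (b := B'))
  obtain ⟨y, rfl⟩ := h4 _ (le_sup_right (a := B))
  have := h _ (h1.sup h3)
  have hμ : Function.Injective (μ (B ⊔ B')) :=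
    Module.Flat.rTensor_preserves_injective_linearMap (B ⊔ B').val.toLinearMap Subtype.val_injective
  rwa [← map_mul, map_eq_zero_iff _ hμ, mul_eq_zero, ← map_eq_zero_iff _ hμ,
    ← map_eq_zero_iff _ hμ (x := y)] at e

end Pool.Agent.MP_e8e0b6_ag.SB

end MrgPart1

-- ======== part 2: formerly Pool.Agent.MP_e8e0b6_ag.SB.Atlas
section MrgPart2

/-!
Base change of function fields, generic coordinates and atlases.
-/

set_option linter.unusedSectionVars false

open TensorProduct

namespace Pool.Agent.MP_e8e0b6_ag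

variable {C F D E N σ ι : Type} [CommRing C] [Field F] [Algebra C F] [CommRing D] [Algebra C D]
  [Field E] [Algebra D E] [Algebra C E] [IsScalarTower C D E] [CommRing N] [Algebra C N]

theorem exists_lift_frac {R E' : Type} [CommRing R] [Field E'] {r : R →+* E}
    (hr : Function.Injective r) (hf : ∀ ω, ∃ a s, s ≠ 0 ∧ ω * r s = r a) {g : R →+* E'}
    (hg : Function.Injective g) : ∃ φ : E →+* E', ∀ a, φ (r a) = g a := by
  let := r.toAlgebra
  have := hr.isDomain r
  have := (faithfulSMul_iff_algebraMap_injective R E).2 hr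
  have : IsFractionRing R E := .of_field _ _ fun ω => by
    obtain ⟨a, s, hs, e⟩ := hf ω
    exact ⟨a, s, eq_div_of_mul_eq ((map_ne_zero_iff r hr).2 hs) e⟩
  exact ⟨IsFractionRing.lift hg, IsFractionRing.lift_algebraMap hg⟩

namespace BC

variable (β : BC C F D E)

theorem ext' {E' : Type} [Field E'] {φ ψ : E →+* E'}
    (h : ∀ d, φ (algebraMap D E d) = ψ (algebraMap D E d)) (h' : ∀ f, φ (β.μ f) = ψ (β.μ f)) :
    φ = ψ := RingHom.ext fun ω => by
  have key : ∀ y, φ (tens D β.μ y) = ψ (tens D β.μ y) := fun y => by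
    induction y using TensorProduct.induction_on with
    | zero => simp
    | tmul d f => simp [h, h']
    | add a b ha hb => simp only [map_add, ha, hb]
  obtain ⟨a, s, hs, e⟩ := β.frac ω
  rw [eq_div_of_mul_eq ((map_ne_zero_iff _ β.inj).2 hs) e, map_div₀, map_div₀, key, key]

theorem frac_Θ {r : N →ₐ[C] F} (hr : Function.Injective r)
    (hf : ∀ ω, ∃ a s, s ≠ 0 ∧ ω * r s = r a) (ω : E) :
    ∃ a s, s ≠ 0 ∧ ω * β.Θ r s = β.Θ r a := by
  have := hr.isDomain r
  obtain ⟨a, s, hs, e⟩ := β.frac ω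
  obtain ⟨t, ht, x, hx⟩ := exists_clear hf a
  obtain ⟨t', ht', x', hx'⟩ := exists_clear hf s
  have h : ∀ t, t ≠ 0 → β.μ (r t) ≠ 0 := fun t ht => by
    simpa using (map_ne_zero_iff _ hr).2 ht
  have h1 : β.Θ r (x' * 1 ⊗ₜ t) = tens D β.μ s * β.μ (r t') * β.μ (r t) := by
    rw [map_mul, β.Θ_eq, ← hx']; simp
  refine ⟨x * 1 ⊗ₜ t', x' * 1 ⊗ₜ t, fun h0 => ?_, ?_⟩
  · rw [h0, map_zero] at h1
    exact mul_ne_zero (mul_ne_zero ((map_ne_zero_iff _ β.inj).2 hs) (h _ ht')) (h _ ht) h1.symm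
  · rw [h1, map_mul, β.Θ_eq, ← hx, map_mul, ← e]; simp; ring

theorem linearIndependent [Module.Flat C D] (ι : Type) (v : ι → F) (h : LinearIndependent C v) :
    LinearIndependent D fun i => (β.μ : F →+* E) (v i) := by
  simpa [Function.comp_def] using (Module.Flat.linearIndependent_one_tmul (S := D) h).map' _
    (LinearMap.ker_eq_bot.2 β.inj')

theorem alg_alg (c : C) : β.μ (algebraMap C F c) = algebraMap D E (algebraMap C D c) := by
  rw [β.μ.commutes, ← IsScalarTower.algebraMap_apply]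

theorem exists_over' [Module.Flat C D] {O : Subring F} (hO : Loc O)
    (hC : ∀ c, algebraMap C F c ∈ O) (q : Ideal D) [q.IsPrime]
    (hq : ctr (algebraMap C F) hO hC = q.under C) : ∃ W : Subring E, Loc W ∧
      (∀ d, algebraMap D E d ∈ W) ∧ (∀ d ∉ q, Un W (algebraMap D E d)) ∧
        W.comap (β.μ : F →+* E) = O := by
  let := ((algebraMap C F).codRestrict O hC).toAlgebra
  let r : O →ₐ[C] F := ⟨O.subtype, fun _ => rfl⟩
  let p := ctr O.subtype hO fun x => x.2
  have : q.LiesOver (p.under C) := ⟨hq⟩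
  let K := FractionRing (D ⧸ q)
  have := Algebra.TensorProduct.nontrivial_of_algebraMap_injective_of_isDomain (C ⧸ p.under C)
    K (O ⧸ p) (FaithfulSMul.algebraMap_injective _ _) (FaithfulSMul.algebraMap_injective _ _)
  obtain ⟨θ, hθ⟩ := exists_tmul (C := C) (T := K ⊗[C ⧸ p.under C] (O ⧸ p))
    (Algebra.TensorProduct.includeLeftRingHom.comp ((algebraMap _ K).comp (Ideal.Quotient.mk q)))
    (Algebra.TensorProduct.includeRight.toRingHom.comp (Ideal.Quotient.mk p)) fun c =>
      (Algebra.TensorProduct.tmul_one_eq_one_tmul (Ideal.Quotient.mk (p.under C) c)).symm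
  obtain ⟨t, ht⟩ := Ideal.exists_maximal (K ⊗[C ⧸ p.under C] (O ⧸ p))
  have hr : Function.Injective r := Subtype.val_injective
  refine ⟨locS (β.Θ r) (t.comap θ), loc_locS (β.Θ_inj hr), fun d => ?_, fun d hd => ?_, le_antisymm
    (fun f hf => locS_ctr_le hO _ (β.desc hr (p := p) (fun x hx => ?_) hf)) fun f hf => ?_⟩
  · simpa using map_mem_locS (r := β.Θ r) (d ⊗ₜ 1)
  · simpa using (un_locS (p := t.comap θ) (β.Θ_inj hr) (x := d ⊗ₜ 1)).2 fun h => ht.ne_top
      (t.eq_top_of_isUnit_mem h (by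
        simpa [hθ] using ((map_ne_zero_iff _ (IsFractionRing.injective (D ⧸ q) K)).2
          (mt Ideal.Quotient.eq_zero_iff_mem.1 hd)).isUnit.map
          (Algebra.TensorProduct.includeLeftRingHom (R := C ⧸ p.under C) (B := O ⧸ p))))
  · simp [hθ, Ideal.Quotient.eq_zero_iff_mem.2 hx]
  · simpa [r] using map_mem_locS (r := β.Θ r) (1 ⊗ₜ ⟨f, hf⟩)

theorem exists_over [Module.Flat C D] {O : Subring F} (hO : Loc O) (hC : ∀ c, algebraMap C F c ∈ O)
    {m : Ideal C} [m.IsMaximal] (hm : ctr (algebraMap C F) hO hC ≤ m)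
    (hD : m.map (algebraMap C D) ≠ ⊤) : ∃ W : Subring E, Loc W ∧ (∀ d, algebraMap D E d ∈ W) ∧
      W.comap (β.μ : F →+* E) = O := by
  obtain ⟨n, hn, h1⟩ := Ideal.exists_le_maximal _ hD
  have : n.LiesOver m := ⟨Ideal.IsMaximal.eq_of_le ‹_› (Ideal.IsPrime.ne_top inferInstance)
    (Ideal.map_le_iff_le_comap.1 h1)⟩
  obtain ⟨q, -, _, h2⟩ := Ideal.exists_ideal_le_liesOver_of_le n hm
  obtain ⟨W, h3, h4, -, h5⟩ := β.exists_over' hO hC q h2.over
  exact ⟨W, h3, h4, h5⟩

theorem mem_of_cover {M : Submodule C F} {f : F} (h : ∀ m : Ideal C, m.IsMaximal →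
    ∃ (D E : Type) (_ : CommRing D) (_ : Algebra C D) (_ : Field E) (_ : Algebra D E)
      (_ : Algebra C E) (_ : IsScalarTower C D E) (β : BC C F D E), Module.Flat C D ∧
      Function.Injective (algebraMap D E) ∧ m.map (algebraMap C D) ≠ ⊤ ∧
        β.μ f ∈ Submodule.span D (β.μ.toLinearMap '' M)) : f ∈ M := by
  by_contra h0
  obtain ⟨m, hm, hle⟩ := Ideal.exists_le_maximal (M.comap (LinearMap.toSpanSingleton C F f))
    fun e => h0 (by simpa using (e.ge trivial : (1 : C) ∈ _))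
  obtain ⟨D, E, _, _, _, _, _, _, β, _, h1, h2, h3⟩ := h m hm
  have h5 : β.μ.toLinearMap '' (Submodule.span C {f} ⊓ M.comap LinearMap.id : Submodule C F) ⊆
      Submodule.map (LinearMap.toSpanSingleton D E (β.μ f)) (m.map (algebraMap C D)) := by
    rintro _ ⟨_, ⟨h4, h5⟩, rfl⟩
    obtain ⟨c, rfl⟩ := Submodule.mem_span_singleton.1 h4
    exact ⟨_, Ideal.mem_map_of_mem _ (hle h5), by simp⟩
  obtain ⟨b, hb, e⟩ := Submodule.span_le.2 h5 (fbc β.inj' LinearMap.id LinearMap.id (fun _ => rfl)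
    (Submodule.subset_span ⟨f, Submodule.mem_span_singleton_self f, rfl⟩) h3)
  have h4 : β.μ f ≠ 0 := by simpa using fun h : f = 0 => h0 (h ▸ M.zero_mem)
  obtain rfl : b = 1 := h1 (by simpa [Algebra.smul_def, h4] using e)
  exact h2 ((Ideal.eq_top_iff_one _).2 hb)

variable {B E' : Type} [CommRing B] [Algebra C B] [Algebra D B] [IsScalarTower C D B] [Field E']
  [Algebra B E'] [Algebra D E'] [Algebra C E'] [IsScalarTower C B E'] [IsScalarTower D B E']
  [IsScalarTower C D E']

theorem tens_cancel (ν : E →ₐ[D] E') (y : B ⊗[D] (D ⊗[C] F)) :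
    tens B ((ν.restrictScalars C).comp β.μ) (Algebra.TensorProduct.cancelBaseChange C D B B F y) =
      tens B ν (Algebra.TensorProduct.map (AlgHom.id B B) (tens D β.μ) y) :=
  DFunLike.congr_fun (show (tens B ((ν.restrictScalars C).comp β.μ)).comp
    (Algebra.TensorProduct.cancelBaseChange C D B B F) = (tens B ν).comp
      (Algebra.TensorProduct.map (AlgHom.id B B) (tens D β.μ)) by ext; simp) y

/-- Composition of base changes. -/
noncomputable def comp [Module.Flat D B] (β' : BC D E B E') : BC C F B E' where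
  μ := (β'.μ.restrictScalars C).comp β.μ
  inj a b h := by
    obtain ⟨a, rfl⟩ := (Algebra.TensorProduct.cancelBaseChange C D B B F).surjective a
    obtain ⟨b, rfl⟩ := (Algebra.TensorProduct.cancelBaseChange C D B B F).surjective b
    rw [tens_cancel, tens_cancel] at h
    rw [map_inj β.inj (β'.inj h)]
  frac ω := by
    obtain ⟨a, s, hs, e⟩ := β'.frac_Θ β.inj β.frac ω
    exact ⟨Algebra.TensorProduct.cancelBaseChange C D B B F a, _,
      (map_ne_zero_iff _ (Algebra.TensorProduct.cancelBaseChange C D B B F).injective).2 hs, by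
        rwa [tens_cancel, tens_cancel, ← Θ_eq, ← Θ_eq]⟩

theorem factor [Module.Flat C F] (hB : Function.Injective (algebraMap D B)) (β'' : BC C F B E') :
    ∃ β' : BC D E B E', ∀ f, β'.μ (β.μ f) = β''.μ f := by
  obtain ⟨φ, hφ⟩ := exists_lift_frac (r := (tens D β.μ : D ⊗[C] F →+* E)) β.inj β.frac
    (g := (tens D β''.μ : D ⊗[C] F →+* E')) (by
      have : ⇑(tens D β''.μ) = tens B β''.μ ∘ (IsScalarTower.toAlgHom C D B).toLinearMap.rTensor F := by
        ext y
        induction y using TensorProduct.induction_on with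
        | zero => simp
        | tmul d f => simp [← IsScalarTower.algebraMap_apply]
        | add a b ha hb => simp only [Function.comp_apply, map_add] at *; rw [ha, hb]
      exact this ▸ β''.inj.comp (Module.Flat.rTensor_preserves_injective_linearMap _ hB))
  let ν : E →ₐ[D] E' := ⟨φ, fun d => by simpa using hφ (d ⊗ₜ 1)⟩
  have h1 : (ν.restrictScalars C).comp β.μ = β''.μ := AlgHom.ext fun f => by simpa [ν] using hφ (1 ⊗ₜ f)
  have h2 := β.tens_cancel (B := B) ν
  rw [h1] at h2
  have := β.inj.isDomain _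
  let e := Algebra.TensorProduct.cancelBaseChange C D B B F
  refine ⟨⟨ν, (injective_iff_map_eq_zero _).2 fun z hz => ?_, fun ω => ?_⟩, DFunLike.congr_fun h1⟩
  · obtain ⟨s, hs, x, hx⟩ := exists_clear β.frac z
    obtain rfl : x = 0 := e.injective (β''.inj (by rw [h2, ← hx, map_mul, hz]; simp))
    exact (((map_ne_zero_iff _ β.inj).2 hs).isUnit.map
      (Algebra.TensorProduct.includeRight (R := D) (A := B))).mul_left_eq_zero.1 (by simpa using hx)
  · obtain ⟨a, s, hs, h⟩ := β''.frac ω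
    obtain ⟨a, rfl⟩ := e.surjective a
    obtain ⟨s, rfl⟩ := e.surjective s
    rw [h2, h2] at h
    exact ⟨_, _, fun h0 => hs (β''.inj (by rw [h2, h0, map_zero, map_zero])), h⟩

end BC

variable {𝓠 𝓡 : Subring F → Prop} {x y : σ → F}

theorem PC.congr (h : PC C 𝓠 x) (H : ∀ O, (∀ c, algebraMap C F c ∈ O) → (𝓡 O ↔ 𝓠 O)) : PC C 𝓡 x :=
  ⟨h.hinj, fun O hO hC => (H O hC).trans (h.iff O hO hC)⟩

theorem rt_comap {φ : F →+* E} {O : Subring E} : Rt x (O.comap φ) ↔ Rt (fun l => φ (x l)) O := by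
  simp [Rt]

variable (C) in
/-- Coordinates of the generic fibre. -/
structure PG (𝓠 : Subring F → Prop) (x : σ → F) : Prop where
  hinj : HInj C x
  iff : ∀ O, Loc O → (∀ c, c ≠ 0 → Un O (algebraMap C F c)) → (𝓠 O ↔ Rt x O)

theorem mem_of_un {O : Subring F} (h : ∀ c, c ≠ 0 → Un O (algebraMap C F c)) (c : C) :
    algebraMap C F c ∈ O := by
  by_cases h0 : c = 0
  exacts [by simp [h0], (h c h0).1]

theorem PC.pg (h : PC C 𝓠 x) : PG C 𝓠 x := ⟨h.hinj, fun O hO hC => h.iff O hO (mem_of_un hC)⟩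

theorem PG.congr (h : PG C 𝓠 x) (H : ∀ O, (∀ c, algebraMap C F c ∈ O) → (𝓡 O ↔ 𝓠 O)) : PG C 𝓡 x :=
  ⟨h.hinj, fun O hO hC => (H O (mem_of_un hC)).trans (h.iff O hO hC)⟩

theorem PG.mul (h : PG C 𝓠 x) {c : F} (hc : c ≠ 0) : PG C 𝓠 fun l => c * x l :=
  ⟨h.hinj.mul hc, fun O hO hB => (h.iff O hO hB).trans (rt_mul hc).symm⟩

theorem pg_iff (L : Type) [Field L] [Algebra C L] [IsFractionRing C L] [Algebra L F]
    [IsScalarTower C L F] : PG C 𝓠 x ↔ PC L 𝓠 x := by
  have e := IsScalarTower.algebraMap_apply C L F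
  have := (algebraMap C L).domain_nontrivial
  refine ⟨fun h => ⟨h.hinj.transfer (RingHom.id F) fun _ _ h => h.localization L (nonZeroDivisors C),
    fun O hO hL => h.iff O hO fun c hc => ⟨e c ▸ hL _, by simpa [e], by
      simpa [e] using hL (algebraMap C L c)⁻¹⟩⟩, fun h => ⟨h.hinj.of_map (RingHom.id F)
      (IsFractionRing.injective C L) e, fun O hO hC => h.iff O hO fun l => ?_⟩⟩
  obtain ⟨a, b, hb, rfl⟩ := IsFractionRing.div_surjective C l
  rw [map_div₀, ← e, ← e]
  exact (hC b (nonZeroDivisors.ne_zero hb)).div_mem (mem_of_un hC a)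

theorem PG.bc [Module.Flat C D] (hD : Function.Injective (algebraMap C D)) (β : BC C F D E)
    (h : PG C 𝓠 x) : PG D (fun O => 𝓠 (O.comap (β.μ : F →+* E))) fun l => β.μ (x l) :=
  ⟨h.hinj.transfer _ β.linearIndependent, fun O hO hC => (h.iff _ (hO.comap _) fun c hc =>
    un_comap.2 (by simpa [β.alg_alg] using hC _ ((map_ne_zero_iff _ hD).2 hc))).trans rt_comap⟩

theorem flat_field [IsDomain C] (h : Function.Injective (algebraMap C F)) : Module.Flat C F := by
  have := (faithfulSMul_iff_algebraMap_injective C F).2 h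
  let := FractionRing.liftAlgebra C F
  exact .trans C (FractionRing C) F

theorem PG.desc [IsDomain C] [IsDomain D] [Module.Flat C D] (hD : Function.Injective (algebraMap C D))
    (β : BC C F D E) (h : PG D (fun O => 𝓠 (O.comap (β.μ : F →+* E))) fun l => β.μ (x l)) :
    PG C 𝓠 x := by
  refine ⟨h.hinj.of_map (β.μ : F →+* E) hD β.alg_alg, fun O hO hC => ?_⟩
  obtain ⟨W, h1, -, h2, rfl⟩ := β.exists_over' hO (mem_of_un hC) ⊥ (Ideal.ext fun c =>
    ⟨fun h => by_contra fun h0 => h (hC c fun e => h0 (e ▸ zero_mem _)), fun h => by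
      simp [hD (h.trans (map_zero _).symm)]⟩)
  exact (h.iff W h1 h2).trans rt_comap.symm

theorem mem_span_mul {h f : F} (h0 : h ≠ 0) : f ∈ Submodule.span C (Set.range fun l => h * x l) ↔
    f / h ∈ Submodule.span C (Set.range x) := by
  have : Submodule.span C (Set.range fun l => h * x l) =
      (Submodule.span C (Set.range x)).map (LinearMap.mulLeft C h) := by
    rw [Submodule.map_span, ← Set.range_comp]; rfl
  rw [this]
  exact ⟨fun ⟨w, hw, e⟩ => by simpa [← e, h0] using hw, fun H => ⟨_, H, by simp; field_simp⟩⟩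

theorem PC.exists_lin [IsDomain C] [Finite σ] [Nontrivial σ] (hx : PC C 𝓠 x) (hy : PG C 𝓠 y) :
    ∃ h : F, h ≠ 0 ∧ (∀ l, y l / h ∈ Submodule.span C (Set.range x)) ∧
      ∃ d : C, d ≠ 0 ∧ ∀ l, d • (h * x l) ∈ Submodule.span C (Set.range y) := by
  classical
  have := Fintype.ofFinite σ
  have := (faithfulSMul_iff_algebraMap_injective C F).2 hx.hinj.inj
  let L := FractionRing C
  let := FractionRing.liftAlgebra C F
  obtain ⟨h, h0, h1⟩ := ((pg_iff L).1 hx.pg).unique ((pg_iff L).1 hy)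
  have key : ∀ u v : σ → F, Submodule.span L (Set.range u) = Submodule.span L (Set.range v) →
      ∃ d : C, d ≠ 0 ∧ ∀ l, d • u l ∈ Submodule.span C (Set.range v) := fun u v h => by
    choose t ht using fun l => multiple_mem_span_of_mem_localization_span (nonZeroDivisors C) L _ _
      (h.le (Submodule.subset_span ⟨l, rfl⟩))
    refine ⟨(∏ l, t l :), nonZeroDivisors.coe_ne_zero _, fun l => ?_⟩
    rw [← Finset.prod_erase_mul _ _ (Finset.mem_univ l), Submonoid.coe_mul, mul_smul]
    exact Submodule.smul_mem _ _ (ht l)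
  obtain ⟨c, hc, h2⟩ := key _ _ h1
  obtain ⟨d, hd, h3⟩ := key _ _ h1.symm
  have h4 : algebraMap C F c ≠ 0 := by simpa
  refine ⟨h / algebraMap C F c, div_ne_zero h0 h4, fun l => ?_, d * c, mul_ne_zero hd hc,
    fun l => ?_⟩
  · convert (mem_span_mul h0).1 (h2 l) using 1
    rw [Algebra.smul_def]; field_simp
  · convert h3 l using 1
    rw [Algebra.smul_def, Algebra.smul_def, map_mul]; field_simp

variable (C F ι) in
/-- An atlas of affine charts of a variety over `C` with function field `F`. -/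
structure Atlas where
  A : ι → Type
  [ring : ∀ i, CommRing (A i)]
  [alg : ∀ i, Algebra C (A i)]
  κ : ∀ i, A i →ₐ[C] F
  inj : ∀ i, Function.Injective (κ i)
  frac : ∀ i ω, ∃ a s, s ≠ 0 ∧ ω * κ i s = κ i a
  ft : ∀ i, Algebra.FiniteType C (A i)
  sep : ∀ i j W, Loc W → (∀ a, κ i a ∈ W) → (∀ a, κ j a ∈ W) →
    ∀ a, κ j a ∈ cen (κ i : A i →+* F) W
  gi : ∀ (D : Type) [CommRing D] [IsDomain D] [Algebra C D] [Module.Flat C D],
    Function.Injective (algebraMap C D) → IsDomain (D ⊗[C] F)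

attribute [instance] Atlas.ring Atlas.alg Atlas.ft

namespace Atlas

variable (𝒜 : Atlas C F ι)

/-- The local ring has a centre on the variety. -/
def P (O : Subring F) : Prop := ∃ j, ∀ a, 𝒜.κ j a ∈ O

/-- The local ring has a centre on the base change. -/
abbrev Q (μ : F →ₐ[C] E) (O : Subring E) : Prop := 𝒜.P (O.comap (μ : F →+* E))

variable [Module.Flat C D] (β : BC C F D E) (hD : Function.Injective (algebraMap C D))

/-- The base change of an atlas. -/
noncomputable def bc : Atlas D E ι where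
  A j := D ⊗[C] 𝒜.A j
  κ j := tens D (β.μ.comp (𝒜.κ j))
  inj j := β.Θ_inj (𝒜.inj j)
  frac j := β.frac_Θ (𝒜.inj j) (𝒜.frac j)
  ft j := inferInstance
  sep i j W hW hi hj := by
    refine β.Θ_mem (W := cen (β.Θ (𝒜.κ i)) W) (fun d => ?_) fun a => ?_
    · simpa using map_mem_cen (r := β.Θ (𝒜.κ i)) (W := W) (d ⊗ₜ 1)
    · obtain ⟨x, s, hs, e⟩ := 𝒜.sep i j _ (hW.comap (β.μ : F →+* E))
        (fun a => by simpa using hi (1 ⊗ₜ a)) (fun a => by simpa using hj (1 ⊗ₜ a)) a
      exact ⟨1 ⊗ₜ x, 1 ⊗ₜ s, by simpa using un_comap.1 hs, by simpa using congrArg β.μ e⟩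
  gi D' _ _ _ _ h := by
    let := ((algebraMap D D').comp (algebraMap C D)).toAlgebra
    have : IsScalarTower C D D' := .of_algebraMap_eq' rfl
    have := Module.Flat.trans C D D'
    have := 𝒜.gi D' (h.comp hD)
    have := (Algebra.TensorProduct.cancelBaseChange C D D' D' F).toMulEquiv.isDomain
    exact isDomain_tensor β.inj β.frac

theorem bc_P (O : Subring E) (h : ∀ d, algebraMap D E d ∈ O) : (𝒜.bc β hD).P O ↔ 𝒜.Q β.μ O :=
  exists_congr fun j => ⟨fun H a => by
    have : β.Θ (𝒜.κ j) (1 ⊗ₜ a) ∈ O := H _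
    simpa using this, fun H => β.Θ_mem h H⟩

end Atlas

end Pool.Agent.MP_e8e0b6_ag

end MrgPart2

-- ======== part 3: formerly Pool.Agent.MP_e8e0b6_ag.SB.Hull
section MrgPart3

/-!
The lattice of sections of a line bundle on a family that is locally a projective space.
-/

set_option linter.unusedSectionVars false

open TensorProduct MvPolynomial

namespace Pool.Agent.MP_e8e0b6_ag

variable {C F D E σ ι : Type} [CommRing C] [Field F] [Algebra C F] [CommRing D] [Algebra C D]
  [Field E] [Algebra D E] [Algebra C E] [IsScalarTower C D E] [Finite σ] [Nontrivial σ]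
  {x y : σ → F}

theorem BC.mem_top (β : BC C F D E) (z : D ⊗[C] F) :
    tens D β.μ z ∈ Submodule.span D (β.μ.toLinearMap '' (⊤ : Submodule C F)) := by
  refine Submodule.span_mono (Set.image_mono fun _ _ => trivial)
    ((β.mem_span (AlgHom.id C F)).2 ⟨z, ?_⟩)
  rw [β.Θ_eq]; simp

namespace Atlas

variable (𝒜 : Atlas C F ι)

/-- The sections of the reflexive hull of the sheaf generated by `y`. -/
def hull (y : σ → F) : Submodule C F where
  carrier := {f | ∀ j, ∀ b ∈ den (𝒜.κ j : 𝒜.A j →+* F) (Set.range y), ∃ a, 𝒜.κ j a = 𝒜.κ j b * f}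
  zero_mem' _ _ _ := ⟨0, by simp⟩
  add_mem' h h' j b hb := by
    obtain ⟨a, ha⟩ := h j b hb
    obtain ⟨a', ha'⟩ := h' j b hb
    exact ⟨a + a', by rw [map_add, ha, ha', mul_add]⟩
  smul_mem' c _ h j b hb := by
    obtain ⟨a, ha⟩ := h j b hb
    exact ⟨c • a, by rw [map_smul, ha, mul_smul_comm]⟩

theorem base_mem {j : ι} {O : Subring F} (h : ∀ a, 𝒜.κ j a ∈ O) (c : C) : algebraMap C F c ∈ O :=
  (𝒜.κ j).commutes c ▸ h _

theorem hull_bc [IsNoetherianRing C] [Finite ι] [Nonempty ι] [Module.Flat C D] (β : BC C F D E)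
    (hD : Function.Injective (algebraMap C D)) {i : σ} (hi : y i = 1) :
    Submodule.span D (β.μ.toLinearMap '' 𝒜.hull y) = (𝒜.bc β hD).hull fun l => β.μ (y l) := by
  have key : ∀ j, ∀ b ∈ den (𝒜.κ j : 𝒜.A j →+* F) (Set.range y),
      1 ⊗ₜ b ∈ den (β.Θ (𝒜.κ j)) (Set.range fun l => β.μ (y l)) := by
    rintro j b hb _ ⟨l, rfl⟩
    obtain ⟨a, ha⟩ := hb _ ⟨l, rfl⟩
    exact ⟨1 ⊗ₜ a, by simpa using congrArg β.μ ha⟩
  refine le_antisymm (Submodule.span_le.2 ?_) fun f hf => ?_
  · rintro _ ⟨f, hf, rfl⟩ j (b : D ⊗[C] 𝒜.A j) hb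
    have h1 : β.μ.toLinearMap '' {v | ∀ l, LinearMap.mulLeft C (y l) v ∈
        LinearMap.range (𝒜.κ j).toLinearMap} ⊆ (LinearMap.range (tens D (β.μ.comp
          (𝒜.κ j))).toLinearMap).comap (LinearMap.mulRight D (β.μ f)) := by
      rintro _ ⟨v, hv, rfl⟩
      obtain ⟨c, hc⟩ := hv i
      obtain rfl : 𝒜.κ j c = v := by simpa [hi] using hc
      obtain ⟨a, ha⟩ := hf j c (by
        rintro _ ⟨l, rfl⟩
        exact (hv l).imp fun _ => Eq.symm)
      exact ⟨1 ⊗ₜ a, by simp [ha]⟩
    exact Submodule.span_le.2 h1 (fbc_fin β.inj' (fun l => LinearMap.mulLeft C (y l))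
      (fun l => LinearMap.mulLeft D (β.μ (y l))) (fun l v => by simp) _ (x := β.Θ (𝒜.κ j) b)
      (β.Θ_eq _ b ▸ β.mem_top _) fun l => (β.mem_span _).2 ((hb _ ⟨l, rfl⟩).imp fun _ => Eq.symm))
  · choose S hS using fun j => have := Algebra.FiniteType.isNoetherianRing C (𝒜.A j)
      (IsNoetherian.noetherian (den (𝒜.κ j : 𝒜.A j →+* F) (Set.range y)) : Submodule.FG _)
    refine Submodule.span_mono (Set.image_mono fun v hv j b hb => ?_) (fbc_fin β.inj'
      (ι := Σ j, S j) (fun l => LinearMap.mulLeft C (𝒜.κ l.1 l.2))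
      (fun l => LinearMap.mulLeft D (β.μ (𝒜.κ l.1 l.2))) (fun l v => by simp)
      (fun l => LinearMap.range (𝒜.κ l.1).toLinearMap) ?_ fun l => (β.mem_span _).2 ?_)
    · rw [← hS j] at hb
      induction hb using Submodule.span_induction with
      | mem b hb => exact hv ⟨j, b, hb⟩
      | zero => exact ⟨0, by simp⟩
      | add _ _ _ _ h h' =>
        obtain ⟨b, hb⟩ := h; obtain ⟨c, hc⟩ := h'; exact ⟨b + c, by simp [hb, hc, add_mul]⟩
      | smul c _ _ h => obtain ⟨b, hb⟩ := h; exact ⟨c * b, by simp [hb, mul_assoc]⟩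
    · obtain ⟨j⟩ := ‹Nonempty ι›
      have := (𝒜.inj j).isDomain _
      obtain ⟨b, hb, h0⟩ := exists_den (r := (𝒜.κ j : 𝒜.A j →+* F)) (p := ⊥) (Set.finite_range y)
        fun ω _ => 𝒜.frac j ω
      obtain ⟨a, ha⟩ := hf j _ (key j b hb)
      replace ha : β.Θ (𝒜.κ j) a = β.Θ (𝒜.κ j) (1 ⊗ₜ b) * f := ha
      have h1 : 𝒜.κ j b ≠ 0 := (map_ne_zero_iff _ (𝒜.inj j)).2 h0
      convert β.mem_top (Algebra.TensorProduct.map (AlgHom.id D D) (𝒜.κ j) a * 1 ⊗ₜ (𝒜.κ j b)⁻¹)
      rw [map_mul, ← β.Θ_eq, ha]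
      simp [mul_comm, h1]
    · obtain ⟨a, ha⟩ := hf l.1 _ (key l.1 l.2 (hS l.1 ▸ Submodule.subset_span l.2.2))
      exact ⟨a, (show β.Θ (𝒜.κ l.1) a = β.Θ (𝒜.κ l.1) (1 ⊗ₜ l.2) * f from ha).trans (by simp)⟩

variable {𝒜} [IsDomain C]

theorem hull_le (hx : PC C 𝒜.P x) {i : σ} (hi : y i = 1) {h : F} (h0 : h ≠ 0)
    (hy : ∀ l, y l / h ∈ Submodule.span C (Set.range x)) {f : F} (hf : f ∈ 𝒜.hull y) :
    f / h ∈ Submodule.span C (Set.range x) := by
  refine hx.hinj.mem_span fun m O hO hC hm => ?_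
  obtain ⟨j, hj⟩ := (hx.iff O hO hC).2 ⟨m, hm⟩
  let p := ctr (𝒜.κ j : 𝒜.A j →+* F) hO hj
  have h1 := 𝒜.base_mem (O := locS (𝒜.κ j : 𝒜.A j →+* F) p) map_mem_locS
  obtain ⟨n, hn⟩ := (hx.iff _ (loc_locS (𝒜.inj j)) h1).1 ⟨j, map_mem_locS⟩
  obtain ⟨s, hs, h2⟩ := exists_den (r := (𝒜.κ j : 𝒜.A j →+* F)) (p := p)
    (Set.finite_range fun l => y l / h / x n) (by
      rintro _ ⟨l, rfl⟩
      exact span_div_mem h1 hn (hy l))
  have h3 := hx.hinj.ne
  obtain ⟨b, hb⟩ : ∃ b, y i / h / x n * 𝒜.κ j s = 𝒜.κ j b := hs _ ⟨i, rfl⟩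
  obtain ⟨a, ha⟩ := hf j b (by
    rintro _ ⟨l, rfl⟩
    obtain ⟨a, ha⟩ : ∃ a, y l / h / x n * 𝒜.κ j s = 𝒜.κ j a := hs _ ⟨l, rfl⟩
    exact ⟨a, by rw [RingHom.coe_coe, ← ha, ← hb, hi]; ring⟩)
  have h4 : f / h / x n ∈ O := (not_not.1 h2 : Un O _).mem_of_mul (by
    convert hj a using 1
    rw [ha, RingHom.coe_coe, ← hb, hi]; ring)
  convert mul_mem h4 (hm n) using 1
  field_simp [h3]

theorem le_cen (hx : PC C 𝒜.P x) {j : ι} {O : Subring F} (hO : Pt (𝒜.κ j : 𝒜.A j →+* F) O) {m : σ}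
    (hm : ∀ l, x l / x m ∈ O) : O ≤ cen (ev C fun l => x l / x m) O := by
  have hC := 𝒜.base_mem hO.mem
  have h1 := dom_cen (ev_mem hC hm)
  obtain ⟨i, hi⟩ := hx.cen hO.loc hC hm
  have h2 := fun a => cen_le hi (fun a => h1.2 _ (hi a))
    (𝒜.sep i j O hO.loc (fun a => h1.1 (hi a)) hO.mem a)
  exact hO.le_of h2 fun a => h1.2 _ (h2 a)

theorem hull_eq [UniqueFactorizationMonoid C] (hx : PC C 𝒜.P x) (hy : PG C 𝒜.P y) {i : σ}
    (hi : y i = 1) : ∃ h : F, h ≠ 0 ∧
      𝒜.hull y = Submodule.span C (Set.range fun l => h * x l) := by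
  obtain ⟨h, h0, h1, -⟩ := hx.exists_lin hy
  choose P h2 h3 using fun l => mem_span_iff_hom.1 (h1 l)
  obtain ⟨g, a, b, R, h4, h5, h6, h7⟩ := exists_cop h2 (i := i) fun e => by
    simpa [e, hi, h0] using (h3 i).symm
  have h8 : ∀ l, y l = h * aeval x g * aeval x (R l) := fun l => by
    rw [mul_assoc, ← map_mul, ← h6, h3]; field_simp
  have h9 : h * aeval x g ≠ 0 := left_ne_zero_of_mul (h8 i ▸ hy.hinj.ne i)
  obtain rfl : b = 1 := by
    by_contra hb
    obtain rfl : b = 0 := by omega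
    obtain ⟨j, hj⟩ := exists_ne i
    choose c hc using fun l => eq_C_of_hom (x := x) (h5 l)
    have := hy.hinj.eq (isHomogeneous_C_mul_X (c j) i) (isHomogeneous_C_mul_X (c i) j)
      (by simp [h8, hc]; ring)
    refine hy.hinj.ne j ?_
    classical
    have h10 : c j = 0 := by
      simpa [coeff_X, Finsupp.single_eq_single_iff, hj] using
        congrArg (coeff (Finsupp.single i 1)) this
    simp [h8, hc, h10]
  refine ⟨_, h9, le_antisymm (fun f hf => (mem_span_mul h9).2 (hull_le hx hi h9 (fun l => ?_) hf))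
    (Submodule.span_le.2 ?_)⟩
  · exact mem_span_iff_hom.2 ⟨R l, h5 l, by rw [h8, mul_div_cancel_left₀ _ h9]⟩
  rintro _ ⟨l, rfl⟩ j b hb
  refine mem_range_of_loc (r := (𝒜.κ j : 𝒜.A j →+* F)) fun p _ => ?_
  have hp := pt_locS (r := (𝒜.κ j : 𝒜.A j →+* F)) (𝒜.inj j) p
  have hC := 𝒜.base_mem hp.mem
  obtain ⟨m, hm⟩ := (hx.iff _ hp.loc hC).1 ⟨j, hp.mem⟩
  have h10 := hx.hinj.ne m
  have := (dom_cen (ev_mem hC hm)).1 (h7.mem_cen h5 (hx.hinj.div h10) (div_self h10)
    (z := 𝒜.κ j b * (h * aeval x g * x m)) fun l => le_cen hx hp hm (by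
      obtain ⟨a, ha⟩ := hb _ ⟨l, rfl⟩
      convert hp.mem a using 1
      rw [← ha, aeval_div (h5 l), h8, RingHom.coe_coe]
      field_simp))
  convert mul_mem this (hm l) using 1
  field_simp

end Atlas

variable (σ) in
/-- A trivialisation after a flat base change. -/
structure Tr (𝒜 : Atlas C F ι) where
  B : Type
  [ring : CommRing B]
  [domain : IsDomain B]
  [alg : Algebra C B]
  [flat : Module.Flat C B]
  inj : Function.Injective (algebraMap C B)
  E : Type
  [field : Field E]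
  [algB : Algebra B E]
  [algC : Algebra C E]
  [tower : IsScalarTower C B E]
  β : BC C F B E
  x : σ → E
  pc : PC B (𝒜.Q β.μ) x

attribute [instance] Tr.ring Tr.domain Tr.alg Tr.flat Tr.field Tr.algB Tr.algC Tr.tower

variable (σ) in
/-- The family is locally trivial. -/
structure LT (𝒜 : Atlas C F ι) : Prop where
  loc : ∀ m : Ideal C, m.IsMaximal → ∃ T : Tr σ 𝒜, UniqueFactorizationMonoid T.B ∧
    m.map (algebraMap C T.B) ≠ ⊤ ∧ ∀ c ∉ m, IsUnit (algebraMap C T.B c)
  fin : ∃ (α : Type) (_ : Finite α) (T : α → Tr σ 𝒜), (∀ a, Algebra.IsAlgebraic C (T a).B) ∧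
    ∀ m : Ideal C, m.IsMaximal → ∃ a, m.map (algebraMap C (T a).B) ≠ ⊤

variable {𝒜 : Atlas C F ι} [IsDomain C] [IsNoetherianRing C] [Finite ι] [Nonempty ι]

namespace Tr

variable (T : Tr σ 𝒜)

/-- The module generated by a set. -/
abbrev sp (N : Set F) : Submodule T.B T.E := Submodule.span T.B (T.β.μ.toLinearMap '' N)

theorem pc' : PC T.B (𝒜.bc T.β T.inj).P T.x := T.pc.congr (𝒜.bc_P T.β T.inj)

theorem pg (hy : PG C 𝒜.P y) : PG T.B (𝒜.bc T.β T.inj).P fun l => T.β.μ (y l) :=
  (hy.bc T.inj T.β).congr (𝒜.bc_P T.β T.inj)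

theorem sp_span {ι : Type} (v : ι → F) : T.sp (Submodule.span C (Set.range v)) =
    Submodule.span T.B (Set.range fun l => T.β.μ (v l)) := by
  rw [sp, ← Submodule.map_coe, Submodule.map_span, Submodule.span_span_of_tower, ← Set.range_comp]
  rfl

theorem sp_hull [UniqueFactorizationMonoid T.B] (hy : PG C 𝒜.P y) {i : σ} (hi : y i = 1) :
    ∃ x : σ → T.E, PC T.B (𝒜.Q T.β.μ) x ∧ T.sp (𝒜.hull y) = Submodule.span T.B (Set.range x) := by
  obtain ⟨h, h0, h1⟩ := Atlas.hull_eq T.pc' (T.pg hy) (i := i) (by simp [hi])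
  exact ⟨_, T.pc.mul h0, (𝒜.hull_bc T.β T.inj hi).trans h1⟩

end Tr

namespace LT

variable (H : LT σ 𝒜) (hy : PG C 𝒜.P y) {i : σ} (hi : y i = 1)
include H hy hi

theorem finite : Module.Finite C (𝒜.hull y) := by
  classical
  obtain ⟨α, _, T, h1, h2⟩ := H.fin
  have := Fintype.ofFinite α
  have key : ∀ a, ∃ c : C, c ≠ 0 ∧ ∀ f ∈ 𝒜.hull y,
      (T a).β.μ (c • f) ∈ (T a).sp (Submodule.span C (Set.range y)) := fun a => by
    obtain ⟨h, h0, h3, d, hd, h4⟩ := (T a).pc'.exists_lin ((T a).pg hy)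
    obtain ⟨c, hc, e, he⟩ := ((h1 a).1 d).exists_nonzero_dvd (mem_nonZeroDivisors_of_ne_zero hd)
    refine ⟨c, hc, fun f hf => ?_⟩
    have h5 := (mem_span_mul h0).2 (Atlas.hull_le (T a).pc' (i := i) (by simp [hi]) h0 h3
      ((𝒜.hull_bc (T a).β (T a).inj hi).le (Submodule.subset_span ⟨f, hf, rfl⟩)))
    rw [(T a).sp_span, map_smul, ← algebraMap_smul (T a).B, he, mul_comm, mul_smul]
    refine Submodule.smul_mem _ _ ((Submodule.span_le (p := Submodule.comap
      (LinearMap.lsmul _ _ d) (Submodule.span _ _))).2 ?_ h5)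
    rintro _ ⟨l, rfl⟩
    exact h4 l
  choose c hc h3 using key
  have h4 : ∀ f : 𝒜.hull y, (∏ a, c a) • (f : F) ∈ Submodule.span C (Set.range y) := fun f =>
    BC.mem_of_cover fun m hm => by
      obtain ⟨a, ha⟩ := h2 m hm
      refine ⟨_, _, _, _, _, _, _, inferInstance, (T a).β, inferInstance, (T a).pc.hinj.inj, ha, ?_⟩
      rw [← Finset.mul_prod_erase _ _ (Finset.mem_univ a), mul_smul]
      exact h3 a _ (Submodule.smul_mem _ _ f.2)
  have := Module.Finite.span_of_finite C (Set.finite_range y)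
  refine .of_injective (((LinearMap.lsmul C F (∏ a, c a)).domRestrict _).codRestrict _ h4)
    fun f g e => Subtype.ext ?_
  have h5 : algebraMap C F (∏ a, c a) ≠ 0 :=
    (map_ne_zero_iff _ hy.hinj.inj).2 (Finset.prod_ne_zero_iff.2 fun a _ => hc a)
  exact mul_left_cancel₀ h5 (by
    rw [← Algebra.smul_def, ← Algebra.smul_def]; exact congrArg Subtype.val e)

theorem flat : Module.Flat C (𝒜.hull y) := by
  refine flat_of_local_ext fun m hm => ?_
  obtain ⟨T, _, h1, -⟩ := H.loc m hm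
  obtain ⟨x, h2, h3⟩ := T.sp_hull hy hi
  have := Fintype.ofFinite σ
  have : Module.Free T.B (T.sp (𝒜.hull y)) := h3 ▸ .of_basis (.span h2.hinj.linearIndependent)
  exact ⟨T.B, inferInstance, inferInstance, inferInstance, h1,
    .of_linearEquiv (spanEquiv T.B _ T.β.inj' _)⟩

variable {τ : Type} {ψ : τ → F} (h1 : ∀ l, ψ l ∈ 𝒜.hull y) {h : C}
  (h3 : ∀ f ∈ 𝒜.hull y, h • f ∈ Submodule.span C (Set.range ψ))
include h1 h3

theorem frame {m : Ideal C} (hm : m.IsMaximal) (h4 : h ∉ m) : ∃ (T : Tr σ 𝒜) (x : σ → T.E),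
    m.map (algebraMap C T.B) ≠ ⊤ ∧ PC T.B (𝒜.Q T.β.μ) x ∧ Submodule.span T.B (Set.range x) =
      Submodule.span T.B (Set.range fun l => T.β.μ (ψ l)) := by
  obtain ⟨T, _, h5, h6⟩ := H.loc m hm
  obtain ⟨x, h7, h8⟩ := T.sp_hull hy hi
  refine ⟨T, x, h5, h7, h8.symm.trans (le_antisymm (Submodule.span_le.2 ?_)
    (Submodule.span_mono ?_))⟩
  · rintro _ ⟨f, hf, rfl⟩
    have := (T.sp_span ψ).le (Submodule.subset_span ⟨_, h3 f hf, rfl⟩)
    rw [map_smul, ← algebraMap_smul T.B] at this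
    exact (Submodule.smul_mem_iff_of_isUnit _ (h6 h h4)).1 this
  · rintro _ ⟨l, rfl⟩
    exact ⟨_, h1 l, rfl⟩

theorem card [Fintype σ] [Fintype τ] (h2 : LinearIndependent C ψ) {m : Ideal C} (hm : m.IsMaximal)
    (h4 : h ∉ m) : Fintype.card τ = Fintype.card σ := by
  obtain ⟨T, x, -, h5, h6⟩ := H.frame hy hi h1 h3 hm h4
  rw [← finrank_span_eq_card h5.hinj.linearIndependent, h6]
  exact (finrank_span_eq_card (T.β.linearIndependent _ _ h2)).symm

end LT

theorem LT.pc [IsJacobsonRing C] (H : LT σ 𝒜) (hy : PG C 𝒜.P y) {i : σ} (hi : y i = 1)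
    {ψ : σ → F} (h1 : ∀ l, ψ l ∈ 𝒜.hull y) {h : C}
    (h3 : ∀ f ∈ 𝒜.hull y, h • f ∈ Submodule.span C (Set.range ψ)) (h0 : h ≠ 0) :
    HInj C ψ ∧ ∀ O, Loc O → (∀ c, algebraMap C F c ∈ O) → Un O (algebraMap C F h) →
      (𝒜.P O ↔ Rt ψ O) := by
  have key : ∀ p : Ideal C, p.IsPrime → h ∉ p → ∃ m, p ≤ m ∧ m.IsMaximal ∧ h ∉ m := fun p _ hp => by
    by_contra! h4
    exact hp ((IsJacobsonRing.out inferInstance (Ideal.IsPrime.isRadical ‹_›)).le
      (Ideal.mem_sInf.2 fun {m} hm => h4 m hm.1 hm.2))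
  refine ⟨?_, fun O hO hC hu => ?_⟩
  · obtain ⟨m, -, hm, h4⟩ := key ⊥ inferInstance h0
    obtain ⟨T, x, -, h5, h6⟩ := H.frame hy hi h1 h3 hm h4
    exact (h5.of_span h6).hinj.of_map (T.β.μ : F →+* T.E) T.inj T.β.alg_alg
  · obtain ⟨m, hle, hm, h4⟩ := key (ctr _ hO hC) inferInstance (not_not.2 hu)
    obtain ⟨T, x, h7, h5, h6⟩ := H.frame hy hi h1 h3 hm h4
    obtain ⟨W, h8, h9, rfl⟩ := T.β.exists_over hO hC hle h7
    exact ((h5.of_span h6).iff W h8 h9).trans rt_comap.symm

end Pool.Agent.MP_e8e0b6_ag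

end MrgPart3

-- ======== part 4: formerly Pool.Agent.MP_e8e0b6_ag.SB.Tsen
section MrgPart4

/-! The theorem of Tsen and stable lines of projective semilinear actions. -/

set_option autoImplicit false

namespace Pool.Agent.MP_e8e0b6_ag

open MvPolynomial

/-- forms with more variables than their degree have a zero -/
def C1 (L : Type) [Field L] : Prop :=
  ∀ (ι : Type) [Fintype ι] (d : ℕ) (p : MvPolynomial ι L), p.IsHomogeneous d → 0 < d →
    d < Fintype.card ι → ∃ y : ι → L, y ≠ 0 ∧ MvPolynomial.eval y p = 0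

namespace Tsen

theorem height_fin (K : Type) [Field K] (n : ℕ) :
    ∀ (P : Ideal (MvPolynomial (Fin n) K)), P.IsMaximal → (n : ℕ∞) ≤ P.height := by
  induction n with
  | zero => intro P _; simp
  | succ n ih =>
    intro P hP
    let e := (MvPolynomial.finSuccEquiv K n).toRingEquiv
    rw [← e.height_map P]
    have h1 : (P.map e).IsMaximal := Ideal.map_isMaximal_of_equiv e
    generalize P.map e = Q at h1
    have h2 : (Q.under (MvPolynomial (Fin n) K)).IsMaximal :=
      Polynomial.isMaximal_comap_C_of_isJacobsonRing Q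
    have : Q.LiesOver (Q.under (MvPolynomial (Fin n) K)) := ⟨rfl⟩
    rw [Polynomial.height_eq_height_add_one (Q.under (MvPolynomial (Fin n) K)) Q, Nat.cast_succ]
    exact add_le_add_left (ih _ h2) _

theorem height_max {K σ : Type} [Field K] [Fintype σ] (P : Ideal (MvPolynomial σ K))
    (hP : P.IsMaximal) : (Fintype.card σ : ℕ∞) ≤ P.height := by
  let e := (MvPolynomial.renameEquiv K (Fintype.equivFin σ)).toRingEquiv
  rw [← e.height_map P]
  exact height_fin K _ _ (Ideal.map_isMaximal_of_equiv e)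

theorem common_zero {K σ τ : Type} [Field K] [IsAlgClosed K] [Fintype σ] [Fintype τ]
    (F : τ → MvPolynomial σ K) (h0 : ∀ j, eval 0 (F j) = 0)
    (hc : Fintype.card τ < Fintype.card σ) : ∃ z : σ → K, z ≠ 0 ∧ ∀ j, eval z (F j) = 0 := by
  classical
  by_contra h
  push Not at h
  let s : Finset (MvPolynomial σ K) := Finset.univ.image F
  let I : Ideal (MvPolynomial σ K) := Ideal.span s
  have hz : zeroLocus K I = {0} := by
    rw [zeroLocus_span]
    ext z
    constructor
    · intro hz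
      by_contra k
      obtain ⟨j, hj⟩ := h z k
      exact hj (hz (F j) (by simp [s]))
    · rintro rfl p hp
      obtain ⟨j, -, rfl⟩ := Finset.mem_image.1 hp
      exact h0 j
  have hr : I.radical = vanishingIdeal K {(0 : σ → K)} := by
    rw [← hz, vanishingIdeal_zeroLocus_eq_radical]
  have hm : vanishingIdeal K {(0 : σ → K)} ∈ I.minimalPrimes := by
    refine ⟨⟨inferInstance, hr ▸ Ideal.le_radical⟩, fun q hq _ => ?_⟩
    rw [← hr]
    exact hq.1.radical_le_iff.2 hq.2
  have h1 := (height_max _ inferInstance).trans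
    (Ideal.height_le_card_of_mem_minimalPrimes_span_finset hm)
  have h2 : s.card ≤ Fintype.card τ := Finset.card_image_le.trans (by simp)
  have h3 : Fintype.card σ ≤ s.card := by exact_mod_cast h1
  omega

theorem c1_poly {K ι : Type} [Field K] [IsAlgClosed K] [Fintype ι] {d : ℕ}
    (q : MvPolynomial ι (Polynomial K)) (hq : q.IsHomogeneous d) (h0 : 0 < d)
    (hd : d < Fintype.card ι) : ∃ y : ι → Polynomial K, y ≠ 0 ∧ eval y q = 0 := by
  classical
  let e := q.support.sup fun s => (coeff s q).natDegree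
  let A := MvPolynomial (ι × Fin (e + 1)) K
  let Y : ι → Polynomial A := fun i => ∑ j : Fin (e + 1), Polynomial.monomial j (X (i, j))
  let Q : Polynomial A := eval₂ (Polynomial.mapRingHom (C : K →+* A)) Y q
  have hY : ∀ i, (Y i).natDegree ≤ e := fun i =>
    Polynomial.natDegree_sum_le_of_forall_le _ _ fun j _ =>
      (Polynomial.natDegree_monomial_le _).trans (Nat.lt_succ_iff.1 j.2)
  have hQ : Q.natDegree ≤ e + d * e := by
    simp only [Q, eval₂_eq]
    refine Polynomial.natDegree_sum_le_of_forall_le _ _ fun s hs => ?_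
    refine Polynomial.natDegree_mul_le.trans (add_le_add ?_ ?_)
    · exact Polynomial.natDegree_map_le.trans
        (Finset.le_sup (f := fun s => (coeff s q).natDegree) hs)
    · refine (Polynomial.natDegree_prod_le _ _).trans ?_
      rw [hq.degree_eq_sum_deg_support hs, Finset.sum_mul]
      exact Finset.sum_le_sum fun i _ =>
        Polynomial.natDegree_pow_le.trans (Nat.mul_le_mul_left _ (hY i))
  let y : (ι × Fin (e + 1) → K) → ι → Polynomial K := fun z i =>
    ∑ j : Fin (e + 1), Polynomial.monomial j (z (i, j))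
  have key : ∀ z, Q.map (eval z) = eval (y z) q := by
    intro z
    rw [← Polynomial.coe_mapRingHom, eval₂_comp_left]
    have e1 : (Polynomial.mapRingHom (eval z : A →+* K)).comp
        (Polynomial.mapRingHom (C : K →+* A)) = RingHom.id _ := by
      ext x <;> simp
    have e2 : (Polynomial.mapRingHom (eval z : A →+* K)) ∘ Y = y z := by
      funext i
      simp [Y, y, A, Polynomial.map_sum]
    rw [e1, e2]
    rfl
  obtain ⟨z, hz, hF⟩ := common_zero (K := K) (fun l : Fin (e + d * e + 1) => Q.coeff l)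
    (fun l => by
      have := congrArg (fun p => Polynomial.coeff p l) (key 0)
      simp only [Polynomial.coeff_map] at this
      rw [this]
      have e0 : y 0 = 0 := by funext i; simp [y]
      rw [e0, eval_zero, constantCoeff_eq, hq.coeff_eq_zero (by simpa using h0.ne)]
      simp)
    (by
      simp only [Fintype.card_fin, Fintype.card_prod]
      nlinarith)
  refine ⟨y z, fun k => hz ?_, ?_⟩
  · funext ⟨i, j⟩
    have := congrArg (fun p => Polynomial.coeff p j) (congrFun k i)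
    simpa [y, Polynomial.coeff_monomial, Fin.val_inj] using this
  · rw [← key]
    ext l
    rw [Polynomial.coeff_map, Polynomial.coeff_zero]
    by_cases hl : l < e + d * e + 1
    · exact hF ⟨l, hl⟩
    · rw [Polynomial.coeff_eq_zero_of_natDegree_lt (by omega), map_zero]

end Tsen

theorem tsen {K L : Type} [Field K] [IsAlgClosed K] [Field L] [Algebra (Polynomial K) L]
    [IsFractionRing (Polynomial K) L] : C1 L := by
  classical
  intro ι _ d p hp h0 hd
  obtain ⟨c, hc⟩ := IsLocalization.exist_integer_multiples_of_finset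
    (nonZeroDivisors (Polynomial K)) (p.support.image fun s => coeff s p)
  have hc' : ∀ s, ∃ a : Polynomial K, s ∈ p.support →
      algebraMap _ L a = algebraMap _ L (c : Polynomial K) * coeff s p := fun s => by
    by_cases hs : s ∈ p.support
    · obtain ⟨a, ha⟩ := hc _ (Finset.mem_image_of_mem _ hs)
      exact ⟨a, fun _ => by rw [ha, Algebra.smul_def]⟩
    · exact ⟨0, fun k => (hs k).elim⟩
  choose a ha using hc'
  obtain ⟨y, hy, h⟩ := Tsen.c1_poly (∑ s ∈ p.support, monomial s (a s))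
    (IsHomogeneous.sum _ _ _ fun s hs => isHomogeneous_monomial _ (by
      rw [hp.degree_eq_sum_deg_support hs]; rfl)) h0 hd
  refine ⟨fun i => algebraMap _ L (y i), fun k => hy ?_, ?_⟩
  · funext i
    exact IsFractionRing.injective (Polynomial K) L (by simpa using congrFun k i)
  · have h1 := congrArg (algebraMap _ L) h
    have hc0 : algebraMap _ L (c : Polynomial K) ≠ 0 :=
      IsFractionRing.to_map_ne_zero_of_mem_nonZeroDivisors c.2
    refine (mul_eq_zero.1 ?_).resolve_left hc0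
    rw [map_zero] at h1
    rw [← h1, eval_eq, Finset.mul_sum, map_sum, map_sum]
    refine Finset.sum_congr rfl fun s hs => ?_
    rw [eval_monomial, map_mul, ha s hs, mul_assoc, Finsupp.prod, map_prod]
    simp only [map_pow]

open Classical in
theorem speiser (L₀ L : Type) [Field L₀] [Field L] [Algebra L₀ L] [FiniteDimensional L₀ L] :
    ∃ (n : ℕ) (a b : Fin n → L), ∀ g : L ≃ₐ[L₀] L,
      ∑ i, a i * g (b i) = if g = 1 then 1 else 0 := by
  have h : LinearIndependent L fun (g : L ≃ₐ[L₀] L) (x : L) => g x :=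
    (linearIndependent_monoidHom L L).comp (fun g : L ≃ₐ[L₀] L => (g : L →* L))
      fun g g' e => AlgEquiv.ext fun x => DFunLike.congr_fun e x
  have h1 := span_flip_eq_top_iff_linearIndependent.2 h
  have h2 : (fun g : L ≃ₐ[L₀] L => if g = 1 then (1 : L) else 0) ∈ Submodule.span L
      (Set.range (flip fun (g : L ≃ₐ[L₀] L) (x : L) => g x)) := h1 ▸ Submodule.mem_top
  obtain ⟨n, a, b, hb⟩ := Submodule.mem_span_set'.1 h2
  choose x hx using fun i => (b i).2
  refine ⟨n, a, x, fun g => ?_⟩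
  have := congrFun hb g
  simp only [Finset.sum_apply, Pi.smul_apply, smul_eq_mul, ← hx, flip] at this
  exact this

namespace Tsen

variable {L₀ L W : Type} [Field L₀] [Field L] [Algebra L₀ L] [AddCommGroup W] [Module L W]

/-- conjugation by a semilinear bijection -/
def cj (g : L ≃ₐ[L₀] L) (φ : W ≃+ W) (hφ : ∀ (a : L) w, φ (a • w) = g a • φ w)
    (m : W →ₗ[L] W) : W →ₗ[L] W where
  toFun w := φ (m (φ.symm w))
  map_add' x y := by simp
  map_smul' a w := by
    obtain ⟨w, rfl⟩ := φ.surjective w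
    obtain ⟨a, rfl⟩ := g.surjective a
    simp only [← hφ, φ.symm_apply_apply, map_smul, RingHom.id_apply]

theorem det_cj [FiniteDimensional L W] (g : L ≃ₐ[L₀] L) (φ : W ≃+ W)
    (hφ : ∀ (a : L) w, φ (a • w) = g a • φ w) (m : W →ₗ[L] W) :
    LinearMap.det (cj g φ hφ m) = g (LinearMap.det m) := by
  classical
  let e := Module.finBasis L W
  have hs : ∀ x : Fin (Module.finrank L W) → L, φ (∑ i, x i • e i) = ∑ i, g (x i) • φ (e i) :=
    fun x => by simp only [map_sum, hφ]
  let e' : Module.Basis (Fin (Module.finrank L W)) L W :=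
    basisOfTopLeSpanOfCardEqFinrank (fun i => φ (e i)) (fun w _ => by
      obtain ⟨w, rfl⟩ := φ.surjective w
      rw [← e.sum_repr w, hs]
      exact Submodule.sum_mem _ fun i _ => Submodule.smul_mem _ _ (Submodule.subset_span ⟨i, rfl⟩))
      (by simp)
  have he : ∀ i, e' i = φ (e i) := fun i => by simp [e']
  rw [← LinearMap.det_toMatrix e', ← LinearMap.det_toMatrix e]
  have : LinearMap.toMatrix e' e' (cj g φ hφ m) = (g : L →+* L).mapMatrix
      (LinearMap.toMatrix e e m) := by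
    ext i j
    rw [LinearMap.toMatrix_apply, RingHom.mapMatrix_apply, Matrix.map_apply,
      LinearMap.toMatrix_apply, he]
    change e'.repr (φ (m (φ.symm (φ (e j))))) i = _
    rw [φ.symm_apply_apply, ← e.sum_repr (m (e j)), hs]
    simp only [← he, e'.repr_sum_self, e.repr_sum_self]
    rfl
  rw [this, ← RingHom.map_det]
  rfl

theorem exists_singular [FiniteDimensional L₀ L] [IsGalois L₀ L] (h : C1 L₀)
    [FiniteDimensional L W] (h2 : 2 ≤ Module.finrank L W) (φ : (L ≃ₐ[L₀] L) → W ≃+ W)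
    (hφ : ∀ g (a : L) w, φ g (a • w) = g a • φ g w)
    (hc : ∀ g g', ∃ c : L, ∀ w, φ g (φ g' w) = c • φ (g * g') w) :
    ∃ m : W →ₗ[L] W, m ≠ 0 ∧ LinearMap.det m = 0 ∧ ∀ g w, m (φ g w) = φ g (m w) := by
  classical
  have hnt : Nontrivial W := Module.nontrivial_of_finrank_pos (R := L) (by omega)
  let S : Set (W →ₗ[L] W) := {m | ∀ g w, m (φ g w) = φ g (m w)}
  have hcj : ∀ g m w, cj g (φ g) (hφ g) m (φ g w) = φ g (m w) := fun g m w =>
    congrArg (fun x => φ g (m x)) ((φ g).symm_apply_apply w)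
  have tr : ∀ m, ∑ g, cj g (φ g) (hφ g) m ∈ S := by
    intro m g w
    simp only [LinearMap.sum_apply, map_sum]
    refine (Fintype.sum_equiv (Equiv.mulLeft g) _ _ fun g' => ?_).symm
    obtain ⟨w, rfl⟩ := (φ g').surjective w
    obtain ⟨c, hc⟩ := hc g g'
    rw [hcj, hc, hc, Equiv.coe_mulLeft, map_smul, hcj]
  have one : ∀ m, cj 1 (φ 1) (hφ 1) m = m := by
    intro m
    obtain ⟨c, hc⟩ := hc 1 1
    have h1 : ∀ w, φ 1 w = c • w := fun w => (φ 1).injective (by rw [hc, hφ, one_mul]; rfl)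
    ext w
    obtain ⟨w, rfl⟩ := (φ 1).surjective w
    rw [hcj, h1, h1, map_smul]
  have hsp : Submodule.span L S = ⊤ := by
    obtain ⟨n, a, b, hab⟩ := speiser L₀ L
    refine eq_top_iff.2 fun m _ => ?_
    have : m = ∑ i, a i • ∑ g, cj g (φ g) (hφ g) (b i • m) := by
      have e1 : ∀ (g : L ≃ₐ[L₀] L) (x : L), cj g (φ g) (hφ g) (x • m) =
          g x • cj g (φ g) (hφ g) m := fun g x => LinearMap.ext fun w => hφ g _ _
      simp only [Finset.smul_sum, e1, smul_smul]
      rw [Finset.sum_comm]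
      simp only [← Finset.sum_smul, hab, ite_smul, one_smul, zero_smul, Finset.sum_ite_eq',
        Finset.mem_univ, if_true, one]
    rw [this]
    exact Submodule.sum_mem _ fun i _ => Submodule.smul_mem _ _ (Submodule.subset_span (tr _))
  obtain ⟨T, hTS, hT, hli⟩ := exists_linearIndependent L S
  have hfin : T.Finite := hli.set_finite_of_isNoetherian
  have := hfin.fintype
  have hcard : Fintype.card T = Module.finrank L W * Module.finrank L W := by
    rw [← Module.finrank_linearMap L L W W, ← finrank_top, ← hsp, ← hT, finrank_span_set_eq_card hli,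
      Set.toFinset_card]
  let e := Module.finBasis L W
  let D : MvPolynomial T L :=
    (Matrix.of fun i j => ∑ m : T, C (LinearMap.toMatrix e e m.1 i j) * X m).det
  have hD : D.IsHomogeneous (Module.finrank L W) := by
    simp only [D, Matrix.det_apply']
    refine IsHomogeneous.sum _ _ _ fun σ _ => ?_
    have := (isHomogeneous_C T ((Equiv.Perm.sign σ : ℤ) : L)).mul
      (IsHomogeneous.prod Finset.univ (fun i => ∑ m : T,
        C (LinearMap.toMatrix e e m.1 (σ i) i) * X m) (fun _ => 1) fun i _ =>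
          IsHomogeneous.sum _ _ _ fun m _ => isHomogeneous_C_mul_X _ _)
    simpa using this
  have hev : ∀ y : T → L, eval y D = LinearMap.det (∑ m : T, y m • m.1) := by
    intro y
    rw [← LinearMap.det_toMatrix e, RingHom.map_det]
    congr 1
    ext i j
    simp [Matrix.sum_apply, mul_comm]
  have hS : ∀ y : T → L₀, (∑ m : T, algebraMap L₀ L (y m) • m.1) ∈ S := by
    intro y g w
    simp only [LinearMap.sum_apply, LinearMap.smul_apply, map_sum, hφ, AlgEquiv.commutes]
    exact Finset.sum_congr rfl fun m _ => by rw [hTS m.2 g w]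
  obtain ⟨lam, hlam⟩ := (Algebra.linearMap L₀ L).exists_leftInverse_of_injective
    (LinearMap.ker_eq_bot.2 (algebraMap L₀ L).injective)
  obtain ⟨y, hy, h0⟩ := h T _ (∑ s ∈ D.support, monomial s (lam (coeff s D)))
    (IsHomogeneous.sum _ _ _ fun s hs => isHomogeneous_monomial _ (by
      rw [hD.degree_eq_sum_deg_support hs]; rfl)) (show 0 < Module.finrank L W by omega)
    (by rw [hcard]; nlinarith)
  refine ⟨_, fun k => hy ?_, ?_, hS y⟩
  · funext m
    exact (algebraMap L₀ L).injective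
      (by simpa using Fintype.linearIndependent_iff.1 hli _ k m)
  · obtain ⟨x, hx⟩ := (IsGalois.mem_range_algebraMap_iff_fixed (F := L₀)
      (LinearMap.det (∑ m : T, algebraMap L₀ L (y m) • m.1))).2 fun g => by
        rw [← det_cj g (φ g) (hφ g)]
        congr 1
        ext w
        obtain ⟨w, rfl⟩ := (φ g).surjective w
        rw [hcj, hS y g w]
    have e1 : lam (eval (fun m => algebraMap L₀ L (y m)) D) = 0 := by
      rw [← h0, eval_eq, map_sum, map_sum]
      refine Finset.sum_congr rfl fun s _ => ?_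
      rw [eval_monomial, Finsupp.prod, mul_comm (lam _), ← smul_eq_mul (∏ _ ∈ s.support, _ : L₀),
        ← map_smul, Algebra.smul_def, mul_comm, map_prod]
      simp only [map_pow]
    rw [hev, ← hx] at e1
    have e2 : lam (algebraMap L₀ L x) = x := LinearMap.congr_fun hlam x
    rw [← hx, ← e2, e1, map_zero]

theorem stable_aux [FiniteDimensional L₀ L] [IsGalois L₀ L] (h : C1 L₀) (n : ℕ) :
    ∀ (W : Type) [AddCommGroup W] [Module L W] [FiniteDimensional L W] [Nontrivial W],
      Module.finrank L W = n → ∀ (φ : (L ≃ₐ[L₀] L) → W ≃+ W),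
      (∀ g (a : L) w, φ g (a • w) = g a • φ g w) →
      (∀ g g', ∃ c : L, ∀ w, φ g (φ g' w) = c • φ (g * g') w) →
      ∃ l : W, l ≠ 0 ∧ ∀ g, ∃ c : L, φ g l = c • l := by
  induction n using Nat.strong_induction_on with
  | _ n ih =>
  intro W _ _ _ _ hn φ hφ hc
  by_cases h2 : 2 ≤ Module.finrank L W
  · obtain ⟨m, hm, hd, hg⟩ := exists_singular h h2 φ hφ hc
    have hk : LinearMap.ker m ≠ ⊥ := LinearMap.bot_lt_ker_of_det_eq_zero hd |>.ne'
    have hk' : LinearMap.ker m ≠ ⊤ := fun k => hm (LinearMap.ker_eq_top.1 k)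
    have : Nontrivial (LinearMap.ker m) := Submodule.nontrivial_iff_ne_bot.2 hk
    have hmem : ∀ g w, φ g w ∈ LinearMap.ker m ↔ w ∈ LinearMap.ker m := fun g w => by
      rw [LinearMap.mem_ker, LinearMap.mem_ker, hg, EmbeddingLike.map_eq_zero_iff]
    let ψ : (L ≃ₐ[L₀] L) → LinearMap.ker m ≃+ LinearMap.ker m := fun g =>
      { toFun := fun w => ⟨φ g w, (hmem g w).2 w.2⟩
        invFun := fun w => ⟨(φ g).symm w, (hmem g _).1 (by simp)⟩
        left_inv := fun w => Subtype.ext (by simp)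
        right_inv := fun w => Subtype.ext (by simp)
        map_add' := fun x y => Subtype.ext (by simp) }
    obtain ⟨l, hl, H⟩ := ih _ (hn ▸ Submodule.finrank_lt hk') (LinearMap.ker m) rfl ψ
      (fun g a w => Subtype.ext (hφ g a w))
      (fun g g' => (hc g g').imp fun c k w => Subtype.ext (k w))
    exact ⟨l, fun k => hl (Subtype.ext k), fun g => (H g).imp fun c k => congrArg Subtype.val k⟩
  · obtain ⟨l, hl⟩ := exists_ne (0 : W)
    have h1 : Module.finrank L W = 1 := by
      have := Module.finrank_pos (R := L) (M := W)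
      omega
    exact ⟨l, hl, fun g => ((finrank_eq_one_iff_of_nonzero' l hl).1 h1 (φ g l)).imp
      fun c k => k.symm⟩

end Tsen

theorem exists_stable_line {L₀ L W : Type} [Field L₀] [Field L] [Algebra L₀ L]
    [FiniteDimensional L₀ L] [IsGalois L₀ L] (h : C1 L₀) [AddCommGroup W] [Module L W]
    [FiniteDimensional L W] [Nontrivial W] (φ : (L ≃ₐ[L₀] L) → W ≃+ W)
    (hφ : ∀ g (a : L) w, φ g (a • w) = g a • φ g w)
    (hc : ∀ g g', ∃ c : L, ∀ w, φ g (φ g' w) = c • φ (g * g') w) :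
    ∃ l : W, l ≠ 0 ∧ ∀ g, ∃ c : L, φ g l = c • l :=
  Tsen.stable_aux h _ W rfl φ hφ hc

end Pool.Agent.MP_e8e0b6_ag

end MrgPart4

-- ======== part 5: formerly Pool.Agent.MP_e8e0b6_ag.SB.Gal
section MrgPart5

/-!
Galois descent of projective coordinates.
-/

set_option linter.unusedSectionVars false

open TensorProduct

namespace Pool.Agent.MP_e8e0b6_ag

variable {C F D E σ : Type} [CommRing C] [Field F] [Algebra C F] [CommRing D] [Algebra C D]
  [Field E] [Algebra D E] [Algebra C E] [IsScalarTower C D E] {x : σ → E} {𝓠 : Subring F → Prop}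

namespace BC

variable (β : BC C F D E) {g g' : D ≃ₐ[C] D} {h h' : E}

theorem exists_act (g : D ≃ₐ[C] D) : ∃ φ : E →+* E,
    (∀ d, φ (algebraMap D E d) = algebraMap D E (g d)) ∧ ∀ f, φ (β.μ f) = β.μ f := by
  let e := Algebra.TensorProduct.congr g (AlgEquiv.refl (R := C) (A₁ := F))
  obtain ⟨φ, hφ⟩ := exists_lift_frac (r := (tens D β.μ : D ⊗[C] F →+* E)) β.inj β.frac
    (g := (tens D β.μ : D ⊗[C] F →+* E).comp e.toRingEquiv.toRingHom) (β.inj.comp e.injective)
  exact ⟨φ, fun d => by simpa [e] using hφ (d ⊗ₜ 1), fun f => by simpa [e] using hφ (1 ⊗ₜ f)⟩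

/-- The action of an automorphism of the base on the function field. -/
noncomputable def act (g : D ≃ₐ[C] D) : E →+* E := (β.exists_act g).choose

@[simp] theorem act_alg (d : D) : β.act g (algebraMap D E d) = algebraMap D E (g d) :=
  (β.exists_act g).choose_spec.1 d

@[simp] theorem act_μ (f : F) : β.act g (β.μ f) = β.μ f := (β.exists_act g).choose_spec.2 f

theorem act_mul (ω : E) : β.act (g * g') ω = β.act g (β.act g' ω) :=
  DFunLike.congr_fun (β.ext' (ψ := (β.act g).comp (β.act g')) (by simp) (by simp)) ω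

@[simp] theorem act_one (ω : E) : β.act 1 ω = ω :=
  DFunLike.congr_fun (β.ext' (ψ := RingHom.id E) (by simp) (by simp)) ω

@[simp] theorem act_inv (ω : E) : β.act g (β.act g⁻¹ ω) = ω := by simp [← act_mul]

theorem act_mem {w : E} (hw : w ∈ Submodule.span D (Set.range x)) :
    β.act g w ∈ Submodule.span D (Set.range fun l => β.act g (x l)) := by
  induction hw using Submodule.span_induction with
  | mem _ h => obtain ⟨l, rfl⟩ := h; exact Submodule.subset_span ⟨l, rfl⟩
  | zero => simp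
  | add _ _ _ _ h h' => rw [map_add]; exact add_mem h h'
  | smul d _ _ h =>
    rw [Algebra.smul_def, map_mul, act_alg, ← Algebra.smul_def]; exact Submodule.smul_mem _ _ h

theorem pc_act (hx : PC D (fun O => 𝓠 (O.comap (β.μ : F →+* E))) x) (g : D ≃ₐ[C] D) :
    PC D (fun O => 𝓠 (O.comap (β.μ : F →+* E))) fun l => β.act g (x l) := by
  refine ⟨.of_map (β.act g⁻¹) (g := (g⁻¹ : D ≃ₐ[C] D)) (g⁻¹).injective β.act_alg
    (by simpa [← act_mul] using hx.hinj), fun O hO hD => Iff.trans ?_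
      ((hx.iff _ (hO.comap (β.act g)) fun d => by simpa using hD _).trans rt_comap)⟩
  congr! 1
  ext f
  simp

variable (x g h) in
/-- `h` is a multiplier for the action on the linear forms. -/
def Mult : Prop := h ≠ 0 ∧ ∀ w, w ∈ Submodule.span D (Set.range x) ↔
  β.act g w / h ∈ Submodule.span D (Set.range x)

variable {β} [Finite σ] [Nontrivial σ] [IsDomain D]

theorem exists_mult [UniqueFactorizationMonoid D]
    (hx : PC D (fun O => 𝓠 (O.comap (β.μ : F →+* E))) x) (g : D ≃ₐ[C] D) : ∃ h, β.Mult x g h := by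
  obtain ⟨h, h0, h1⟩ := hx.unique (β.pc_act hx g)
  refine ⟨h, h0, fun w => ⟨fun hw => (mem_span_mul h0).1 (h1.le (β.act_mem hw)), fun hw => ?_⟩⟩
  simpa [← act_mul] using β.act_mem (g := g⁻¹) (h1.ge ((mem_span_mul h0).2 hw))

theorem Mult.mul (H : β.Mult x g h) (H' : β.Mult x g' h') : β.Mult x (g * g') (h * β.act g h') :=
  ⟨mul_ne_zero H.1 (by simpa using H'.1), fun w => by
    rw [H'.2, H.2, map_div₀, act_mul, div_div, mul_comm]⟩

theorem Mult.ratio (hx : HInj D x) (H : β.Mult x g h) (H' : β.Mult x g h') :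
    ∃ c, algebraMap D E c = h / h' := hx.multiplier fun l => by
  simpa [div_mul_eq_mul_div] using (H'.2 (β.act g⁻¹ (h * x l))).1 ((H.2 _).2 (by
    rw [act_inv, mul_div_cancel_left₀ _ H.1]; exact Submodule.subset_span ⟨l, rfl⟩))

theorem Mult.smul (H : β.Mult x g h) {c : D} (hc : IsUnit c) :
    β.Mult x g (h * algebraMap D E c) :=
  have h0 := (hc.map (algebraMap D E)).ne_zero
  ⟨mul_ne_zero H.1 h0, fun w => by
    rw [H.2, ← Submodule.smul_mem_iff_of_isUnit _ hc (x := _ / (h * _)), Algebra.smul_def]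
    congr! 1
    field_simp⟩

theorem Mult.stable {l : E} (h0 : l ≠ 0) (H : β.Mult x g (β.act g l / l)) (i : σ) :
    β.act g (l⁻¹ * x i) ∈ Submodule.span D (Set.range fun i => l⁻¹ * x i) := by
  rw [mem_span_mul (inv_ne_zero h0)]
  convert (H.2 _).1 (Submodule.subset_span ⟨i, rfl⟩) using 1
  simp only [map_mul, map_inv₀]
  field_simp

variable {G : Type} [Group G] [Fintype G] (a : G →* (D ≃ₐ[C] D))

theorem fixed_mem [CharZero F] (htr : ∀ d, ∃ f, β.μ f = algebraMap D E (∑ g, a g d)) {z : E}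
    (hz : ∀ g, β.act (a g) z = z) : ∃ f, β.μ f = z := by
  classical
  let R := (tens D β.μ).range
  have h1 : ∀ w ∈ R, (∀ g, β.act (a g) w ∈ R) ∧ ∃ f, β.μ f = ∑ g, β.act (a g) w := by
    rintro _ ⟨y, rfl⟩
    induction y using TensorProduct.induction_on with
    | zero => exact ⟨fun g => by simp, 0, by simp⟩
    | tmul d f =>
      obtain ⟨f', hf⟩ := htr d
      exact ⟨fun g => ⟨a g d ⊗ₜ f, by simp⟩, f' * f, by simp [hf, Finset.sum_mul]⟩
    | add y y' h h' =>
      obtain ⟨h2, f, hf⟩ := h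
      obtain ⟨h3, f', hf'⟩ := h'
      exact ⟨fun g => by simpa using add_mem (h2 g) (h3 g), f + f', by
        simp [hf, hf', Finset.sum_add_distrib]⟩
  have h2 : ∀ w ∈ R, (∀ g, β.act (a g) w = w) → ∃ f, β.μ f = w := fun w hw h => by
    obtain ⟨f, hf⟩ := (h1 w hw).2
    have : β.μ (Fintype.card G) ≠ 0 := (map_ne_zero _).2 (Nat.cast_ne_zero.2 Fintype.card_ne_zero)
    exact ⟨f / Fintype.card G, by rw [map_div₀, hf, div_eq_iff this]; simp [h, mul_comm]⟩
  obtain ⟨b, s, hs, e⟩ := β.frac z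
  let n := ∏ g, β.act (a g) (tens D β.μ s)
  have h3 : ∀ g, β.act (a g) n = n := fun g => by
    simp only [n, map_prod, ← act_mul, ← map_mul]
    exact Fintype.prod_equiv (Equiv.mulLeft g) _ _ fun _ => rfl
  have h4 := (h1 _ ⟨s, rfl⟩).1
  obtain ⟨f, hf⟩ := h2 n (prod_mem fun g _ => h4 g) h3
  obtain ⟨f', hf'⟩ := h2 (z * n) (by
    rw [show n = _ from (Finset.mul_prod_erase _ _ (Finset.mem_univ 1)).symm, map_one, act_one,
      ← mul_assoc, e]
    exact mul_mem ⟨b, rfl⟩ (prod_mem fun g _ => h4 g)) fun g => by rw [map_mul, hz, h3]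
  have h5 : n ≠ 0 := Finset.prod_ne_zero_iff.2 fun g _ =>
    (map_ne_zero _).2 ((map_ne_zero_iff _ β.inj).2 hs)
  exact ⟨f' / f, by rw [map_div₀, hf, hf', mul_div_cancel_right₀ _ h5]⟩

open Classical in
theorem exists_pg [CharZero F] [IsDomain C] [Module.Flat C D]
    (hD : Function.Injective (algebraMap C D))
    (htr : ∀ d, ∃ f, β.μ f = algebraMap D E (∑ g, a g d)) {n N : ℕ} {u v : Fin n → D}
    (hs : ∀ g, ∑ i, u i * a g (v i) = if g = 1 then 1 else 0) {x : Fin N → E}
    (hx : PC D (fun O => 𝓠 (O.comap (β.μ : F →+* E))) x)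
    (H : ∀ g i, β.act (a g) (x i) ∈ Submodule.span D (Set.range x)) :
    ∃ y : Fin N → F, PG C 𝓠 y := by
  let S := {w | w ∈ Submodule.span D (Set.range x) ∧ ∃ f, β.μ f = w}
  have h1 : ∀ w ∈ Submodule.span D (Set.range x), ∑ g, β.act (a g) w ∈ S := fun w hw =>
    ⟨sum_mem fun g _ => Submodule.span_le.2 (Set.range_subset_iff.2 (H g)) (β.act_mem hw),
      fixed_mem a htr fun g => by
        simp only [map_sum, ← act_mul, ← map_mul]
        exact Fintype.sum_equiv (Equiv.mulLeft g) _ _ fun _ => rfl⟩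
  have := (faithfulSMul_iff_algebraMap_injective D E).2 hx.hinj.inj
  let L := FractionRing D
  let := FractionRing.liftAlgebra D E
  have h2 : Submodule.span L S = Submodule.span L (Set.range x) := by
    refine le_antisymm (Submodule.span_le.2 fun w hw => Submodule.span_le_restrictScalars D L _ hw.1)
      (Submodule.span_le.2 ?_)
    rintro _ ⟨l, rfl⟩
    have : x l = ∑ i, u i • ∑ g, β.act (a g) (v i • x l) := by
      simp only [Algebra.smul_def, map_mul, act_alg, Finset.mul_sum, ← mul_assoc]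
      rw [Finset.sum_comm]
      simp only [← Finset.sum_mul, ← map_mul, ← map_sum, hs]
      simp [apply_ite (algebraMap D E)]
    rw [this]
    exact Submodule.span_le_restrictScalars D L _ (sum_mem fun i _ => Submodule.smul_mem _ _
      (Submodule.subset_span (h1 _ (Submodule.smul_mem _ _ (Submodule.subset_span ⟨l, rfl⟩)))))
  have h3 := (pg_iff L).1 hx.pg
  have : Module.Finite L (Submodule.span L S) :=
    h2 ▸ Module.Finite.span_of_finite L (Set.finite_range x)
  obtain ⟨w, h4, h5, -⟩ := Submodule.exists_fun_fin_finrank_span_eq L S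
  have h6 : Module.finrank L (Submodule.span L S) = N := by
    rw [h2, finrank_span_eq_card h3.hinj.linearIndependent, Fintype.card_fin]
  choose y hy using fun i => (h4 (finCongr h6.symm i)).2
  exact ⟨y, .desc hD β ((pg_iff L).2 (h3.of_span (h2.symm.trans (h5.symm.trans (by
    rw [funext hy, ← (finCongr h6.symm).surjective.range_comp w]; rfl)))))⟩

theorem exists_stable_of_point [UniqueFactorizationMonoid D] {K R : Type} [Field K] [CharZero K]
    [CommRing R] [Algebra K D] (hu : ∀ d : D, IsUnit d → ∃ c, algebraMap K D c = d) {r : R →+* E}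
    (hr : Function.Injective r) {θ : R →+* K} (s : G → K →+* K)
    (h1 : ∀ g ω c, Ext r θ ω c → Ext r θ (β.act (a g) ω) (s g c))
    (h2 : ∀ d, algebraMap D E d ∈ dom r θ)
    (h3 : ∀ c, Ext r θ (algebraMap D E (algebraMap K D c)) c)
    (hx : PC D (fun O => 𝓠 (O.comap (β.μ : F →+* E))) x) (h4 : Rt x (dom r θ)) :
    ∃ x' : σ → E, PC D (fun O => 𝓠 (O.comap (β.μ : F →+* E))) x' ∧
      ∀ g i, β.act (a g) (x' i) ∈ Submodule.span D (Set.range x') := by
  obtain ⟨m, hm⟩ := h4
  have h0 := hx.hinj.ne m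
  replace hx := hx.mul (inv_ne_zero h0)
  set y := fun l => (x m)⁻¹ * x l
  have h5 : (1 : E) ∈ Submodule.span D (Set.range y) :=
    Submodule.subset_span ⟨m, inv_mul_cancel₀ h0⟩
  have h6 : ∀ w ∈ Submodule.span D (Set.range y), w ∈ dom r θ := fun w hw => by
    simpa using span_div_mem (c := 1) h2 (fun l => by simpa [y, div_eq_inv_mul] using hm l) hw
  have key : ∀ g, ∃ h, β.Mult y (a g) h ∧ Ext r θ h 1 := fun g => by
    obtain ⟨h, H⟩ := exists_mult hx (a g)
    obtain ⟨c, hc⟩ := mem_dom.1 (h6 _ ((H.2 (β.act (a g)⁻¹ h)).2 (by simpa [H.1] using h5)))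
    have h7 := h1 g _ _ hc
    rw [act_inv] at h7
    have h8 := h7.ne_of_un hr ⟨mem_dom.2 ⟨_, h7⟩, H.1, h6 _ (by simpa using (H.2 1).1 h5)⟩
    exact ⟨_, H.smul ((inv_ne_zero h8).isUnit.map (algebraMap K D)), by
      simpa only [mul_inv_cancel₀ h8] using h7.mul (h3 (s g c)⁻¹)⟩
  choose h H h7 using key
  have h8 : ∀ g g', h (g * g') = h g * β.act (a g) (h g') := fun g g' => by
    have H' := (H g).mul (H g')
    rw [← map_mul] at H'
    obtain ⟨c, hc⟩ := (H _).ratio hx.hinj H'
    obtain ⟨c', hc'⟩ := H'.ratio hx.hinj (H _)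
    obtain ⟨k, rfl⟩ := hu c (.of_mul_eq_one c' (hx.hinj.inj (by
      rw [map_mul, hc, hc', map_one, div_mul_div_cancel₀ H'.1, div_self (H _).1])))
    have h9 := (h3 k).mul ((h7 g).mul (h1 g _ _ (h7 g')))
    rw [hc, div_mul_cancel₀ _ H'.1] at h9
    obtain rfl : k = 1 := by simpa using h9.unique hr (h7 _)
    exact (div_eq_one_iff_eq H'.1).1 (by simpa using hc.symm)
  have h9 : ∑ g, (h g)⁻¹ ≠ 0 := (Ext.sum (s := Finset.univ) fun g _ =>
    (h7 g).inv hr one_ne_zero).ne_zero hr (by simp)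
  refine ⟨_, hx.mul (inv_ne_zero h9), fun g => Mult.stable h9 ?_⟩
  convert H g
  rw [div_eq_iff h9, map_sum, Finset.mul_sum]
  refine Fintype.sum_equiv (Equiv.mulLeft g) _ _ fun g' => ?_
  simp [h8, (H g).1, mul_comm]

end BC

theorem exists_stable_of_c1 [Finite σ] [Nontrivial σ] {L L' : Type} [Field L] [Field L']
    [Algebra L L'] [Algebra C L] [Algebra C L'] [IsScalarTower C L L'] [FiniteDimensional L L']
    [IsGalois L L'] (hL : C1 L) [Algebra L' E] [IsScalarTower C L' E] (β : BC C F L' E)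
    (hx : PC L' (fun O => 𝓠 (O.comap (β.μ : F →+* E))) x) :
    ∃ x' : σ → E, PC L' (fun O => 𝓠 (O.comap (β.μ : F →+* E))) x' ∧ ∀ (g : L' ≃ₐ[L] L') i,
      β.act (g.restrictScalars C) (x' i) ∈ Submodule.span L' (Set.range x') := by
  choose h H using fun g : L' ≃ₐ[L] L' => BC.exists_mult hx (g.restrictScalars C)
  let W := Submodule.span L' (Set.range x)
  let φ : (L' ≃ₐ[L] L') → W ≃+ W := fun g => AddEquiv.ofBijective
    ({ toFun w := ⟨_, ((H g).2 w).1 w.2⟩
       map_zero' := by simp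
       map_add' a b := by simp [add_div] } : W →+ W)
    ⟨fun a b e => Subtype.ext ((β.act _).injective (by simpa [(H g).1] using e)), fun w =>
      ⟨⟨β.act (g.restrictScalars C)⁻¹ (w * h g), ((H g).2 _).2 (by simp [(H g).1])⟩,
        by simp [(H g).1]⟩⟩
  have hφ : ∀ g w, (φ g w : E) = β.act (g.restrictScalars C) w / h g := fun _ _ => rfl
  have := Module.Finite.span_of_finite L' (Set.finite_range x)
  obtain ⟨i⟩ : Nonempty σ := inferInstance
  have : Nontrivial W := ⟨⟨x i, Submodule.subset_span ⟨i, rfl⟩⟩, 0,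
    fun e => hx.hinj.ne i (congrArg Subtype.val e)⟩
  obtain ⟨l, h0, hl⟩ := exists_stable_line hL φ
    (fun g a w => Subtype.ext (by simp [hφ, Algebra.smul_def, mul_div_assoc])) fun g g' => by
      have H' := (H g).mul (H g')
      obtain ⟨c, hc⟩ := (H (g * g')).ratio hx.hinj H'
      refine ⟨c, fun w => Subtype.ext ?_⟩
      have := (H (g * g')).1
      rw [Submodule.coe_smul, Algebra.smul_def, hc, hφ, hφ, hφ, map_div₀, ← β.act_mul, div_div]
      field_simp
      rfl
  have h1 : (l : E) ≠ 0 := fun e => h0 (Subtype.ext e)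
  refine ⟨_, hx.mul (inv_ne_zero h1), fun g => BC.Mult.stable h1 ?_⟩
  obtain ⟨c, hc⟩ := hl g
  have h2 : c ≠ 0 := fun e => h0 (by simpa [e] using hc)
  convert (H g).smul h2.isUnit
  have := congrArg Subtype.val hc
  rw [hφ, Submodule.coe_smul, Algebra.smul_def, div_eq_iff (H g).1] at this
  rw [this]
  field_simp

end Pool.Agent.MP_e8e0b6_ag

end MrgPart5

-- marker of a merged file
example : 731051 + 162613 = 731051 + 162613 := rfl
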