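import Mathlib.AlgebraicGeometry.ProjectiveSpectrum.Basic
import Mathlib.RingTheory.MvPolynomial.Homogeneous
import Mathlib.AlgebraicGeometry.Morphisms.Etale

/-!
Projective space over a field.
-/

open AlgebraicGeometry CategoryTheory MvPolynomial

namespace Pool.Agent.MP_e8e0b6_ag

attribute [local instance] MvPolynomial.gradedAlgebra

/-- Projective `n`-space over `k`. -/
noncomputable def projSpace (k : Type) [Field k] (n : ℕ) : Scheme.{0} :=
  Proj (homogeneousSubmodule (Fin (n + 1)) k)

/-- The structure morphism of projective space. -/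
noncomputable def projStr (k : Type) [Field k] (n : ℕ) :
    projSpace k n ⟶ Spec (CommRingCat.of k) :=
  Proj.toSpecZero (homogeneousSubmodule (Fin (n + 1)) k) ≫
    Spec.map (CommRingCat.ofHom (algebraMap k (homogeneousSubmodule (Fin (n + 1)) k 0)))

end Pool.Agent.MP_e8e0b6_ag
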