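import Mathlib
import Pool.Agent.MP_e8e0b6_ag.SB.Defs
import Pool.Agent.MP_e8e0b6_ag.SB.Gal

-- ======== part 0: formerly Pool.Agent.MP_e8e0b6_ag.SB.Proj
section MrgPart0

/-!
The standard charts of projective space.
-/

set_option linter.unusedSectionVars false

open AlgebraicGeometry CategoryTheory Limits MvPolynomial HomogeneousLocalization TensorProduct
open IsLocalRing

namespace Pool.Agent.MP_e8e0b6_ag

open SB

attribute [local instance] MvPolynomial.gradedAlgebra

variable {k T T' : Type} [Field k] {n : ℕ} [CommRing T] [CommRing T'] {i j : Fin (n + 1)}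

variable (k n) in
/-- The grading. -/
abbrev gr := homogeneousSubmodule (Fin (n + 1)) k

/-- The map from the degree zero part of a localisation. -/
noncomputable def aw (g : MvPolynomial (Fin (n + 1)) k →+* T) (t : MvPolynomial (Fin (n + 1)) k)
    (ht : IsUnit (g t)) : Away (gr k n) t →+* T :=
  (IsLocalization.Away.lift (S := Localization.Away t) t ht).comp
    (algebraMap (Away (gr k n) t) (Localization.Away t))

theorem aw_mk (g : MvPolynomial (Fin (n + 1)) k →+* T) {t : MvPolynomial (Fin (n + 1)) k}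
    (ht : IsUnit (g t)) {d : ℕ} (hd : t ∈ gr k n d) (m : ℕ) (a) (ha : a ∈ gr k n (m • d)) :
    aw g t ht (Away.mk _ hd m a ha) * g t ^ m = g a := by
  have h : (Away.mk _ hd m a ha).val * algebraMap _ (Localization.Away t) (t ^ m) =
      algebraMap _ (Localization.Away t) a := by
    rw [Away.val_mk, Localization.mk_eq_mk']
    exact IsLocalization.mk'_spec _ _ _
  have h2 := congrArg (IsLocalization.Away.lift (S := Localization.Away t) t ht) h
  rw [map_mul, IsLocalization.Away.lift_eq, IsLocalization.Away.lift_eq, map_pow] at h2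
  exact h2

variable (k) in
theorem hX (i : Fin (n + 1)) : (X i : MvPolynomial (Fin (n + 1)) k) ∈ gr k n 1 := isHomogeneous_X k i

variable (k) in
/-- The coordinate ring of a standard chart. -/
abbrev Ch (i : Fin (n + 1)) := Away (gr k n) (X i)

variable (k) in
/-- The standard chart. -/
noncomputable def pchart (i : Fin (n + 1)) : Spec (.of (Ch k i)) ⟶ projSpace k n :=
  Proj.awayι (gr k n) (X i) (hX k i) one_pos

instance : IsOpenImmersion (pchart k i) := inferInstanceAs (IsOpenImmersion (Proj.awayι _ _ _ _))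

/-- The constants. -/
noncomputable def cst (t : MvPolynomial (Fin (n + 1)) k) : k →+* Away (gr k n) t :=
  (fromZeroRingHom _ _).comp (algebraMap k (gr k n 0))

variable (k) in
/-- The affine coordinates. -/
noncomputable def rat (i l : Fin (n + 1)) : Ch k i := Away.mk _ (hX k i) 1 (X l) (hX k l)

theorem rat_self : rat k i i = 1 := val_injective _ (by simp [rat])

theorem pchart_str : pchart k i ≫ projStr k n = sp (cst (X i)) :=
  (Proj.awayι_toSpecZero_assoc _ _ _ _ _).trans (sp_comp _ _)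

theorem pchart_cover (z : projSpace k n) : ∃ i, z ∈ Set.range (pchart k i) := by
  have := Proj.iSup_basicOpen_eq_top' (gr k n) X (fun i => ⟨1, hX k i⟩) (by
    refine eq_top_iff.mpr fun p _ => ?_
    induction p using MvPolynomial.induction_on with
    | C a => exact Subalgebra.algebraMap_mem _ (⟨C a, isHomogeneous_C _ a⟩ : gr k n 0)
    | add p q hp hq => exact add_mem (hp trivial) (hq trivial)
    | mul_X p j hp => exact mul_mem (hp trivial) (Algebra.subset_adjoin ⟨j, rfl⟩))
  obtain ⟨i, hi⟩ := TopologicalSpace.Opens.mem_iSup.mp (this.ge (Set.mem_univ z))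
  rw [← Proj.opensRange_awayι _ _ (hX k i) one_pos] at hi
  exact ⟨i, hi⟩

theorem aw_cst (g : MvPolynomial (Fin (n + 1)) k →+* T) {t : MvPolynomial (Fin (n + 1)) k}
    (ht : IsUnit (g t)) (a : k) : aw g t ht (cst t a) = g (C a) :=
  IsLocalization.Away.lift_eq (S := Localization.Away t) t ht (C a)

theorem aw_rat (g : MvPolynomial (Fin (n + 1)) k →+* T) (ht : IsUnit (g (X i))) (l) :
    aw g _ ht (rat k i l) * g (X i) = g (X l) := by
  simpa only [pow_one, rat] using aw_mk g ht (hX k i) 1 (X l) (hX k l)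

theorem aw_eval (g : MvPolynomial (Fin (n + 1)) k →+* T) (ht : IsUnit (g (X i))) {m : ℕ}
    {a : MvPolynomial (Fin (n + 1)) k} (ha : a.IsHomogeneous m) :
    aw g _ ht (eval₂ (cst (X i)) (rat k i) a) * g (X i) ^ m = g a := by
  let := (g.comp C).toAlgebra
  have h1 := aeval_scale ha (g (X i)) (aw g _ ht ∘ rat k i)
  rw [aeval_def, aeval_def, show (fun l => g (X i) * (aw g _ ht ∘ rat k i) l) = g ∘ X from
    funext fun l => (mul_comm _ _).trans (aw_rat g ht l)] at h1
  rw [eval₂_comp_left, show (aw g _ ht).comp _ = g.comp C from RingHom.ext (aw_cst g ht), mul_comm]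
  exact h1.symm.trans ((eval₂_comp_left g C X a).symm.trans (congrArg g (eval₂_eta a)))

theorem lift_away_self {R S : Type} [CommRing R] [CommRing S] [Algebra R S] (t : R)
    [IsLocalization.Away t S] (h : IsUnit (algebraMap R S t)) (z : S) :
    IsLocalization.Away.lift t h z = z :=
  DFunLike.congr_fun (IsLocalization.ringHom_ext (Submonoid.powers t)
    ((IsLocalization.Away.lift_comp t h).trans (RingHom.id_comp _).symm)) z

theorem aw_val {t : MvPolynomial (Fin (n + 1)) k}
    (h : IsUnit (algebraMap _ (Localization.Away t) t)) (z : Away (gr k n) t) :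
    aw (algebraMap _ (Localization.Away t)) t h z = z.val :=
  lift_away_self t h z.val

theorem exists_eval (z : Ch k i) : ∃ a, eval₂ (cst (X i)) (rat k i) a = z := by
  obtain ⟨m, a, ha, rfl⟩ := Away.mk_surjective _ (hX k i) z
  have h1 := IsLocalization.Away.algebraMap_isUnit
    (S := Localization.Away (X i : MvPolynomial (Fin (n + 1)) k)) (X i : MvPolynomial _ k)
  refine ⟨a, val_injective _ ((h1.pow m).mul_right_cancel ?_)⟩
  have h2 := aw_eval _ h1 (show a.IsHomogeneous m by simpa using ha)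
  have h3 := aw_mk _ h1 (hX k i) m a ha
  rw [aw_val] at h2 h3
  exact h2.trans h3.symm

theorem ch_ext {ρ ρ' : Ch k i →+* T} (h : ∀ a, ρ (cst _ a) = ρ' (cst _ a))
    (h' : ∀ l, ρ (rat k i l) = ρ' (rat k i l)) : ρ = ρ' := RingHom.ext fun z => by
  obtain ⟨a, rfl⟩ := exists_eval z
  rw [eval₂_comp_left, eval₂_comp_left, show ρ.comp _ = ρ'.comp _ from RingHom.ext h]
  exact congrArg (eval₂ _ · a) (funext h')

theorem aw_chart (g : MvPolynomial (Fin (n + 1)) k →+* T) (hi : IsUnit (g (X i)))
    (hj : IsUnit (g (X j))) : sp (aw g _ hi) ≫ pchart k i = sp (aw g _ hj) ≫ pchart k j := by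
  have key : ∀ {i j x} (hi : IsUnit (g (X i))) (hx : x = X i * X j) (h : IsUnit (g x)),
      sp (aw g _ hi) ≫ pchart k i = sp (aw g x h) ≫ Proj.awayι (gr k n) x
        (hx ▸ SetLike.mul_mem_graded (hX k i) (hX k j)) two_pos := fun {i j x} hi hx h => by
    rw [← Proj.SpecMap_awayMap_awayι _ (hX k i) one_pos (hX k j) hx]
    refine Eq.trans ?_ (sp_comp_assoc _ _ _).symm
    congr 2
    refine ch_ext (fun a => ?_) fun l => h.mul_right_cancel ?_
    · exact (aw_cst g hi a).trans ((aw_cst g h a).symm.trans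
        (congrArg _ (awayMap_fromZeroRingHom _ _ hx _).symm))
    · have := aw_mk g h (hx ▸ SetLike.mul_mem_graded (hX k i) (hX k j)) 1 (X l * X j ^ 1)
        (by simpa using SetLike.mul_mem_graded (hX k l) (hX k j))
      rw [RingHom.comp_apply, rat, awayMap_mk, ← pow_one (g x), this, hx, pow_one, pow_one,
        map_mul, map_mul, ← mul_assoc]
      exact congrArg (· * _) (aw_rat g hi l)
  have h : IsUnit (g (X i * X j)) := map_mul g _ _ ▸ hi.mul hj
  rw [key hi rfl h, key hj (mul_comm _ _) h]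

theorem chart_trans {ρ : Ch k i →+* T} {ρ' : Ch k j →+* T}
    (h : sp ρ ≫ pchart k i = sp ρ' ≫ pchart k j) (l) :
    ρ (rat k i l) * ρ' (rat k j i) = ρ' (rat k j l) := by
  let e := Proj.pullbackAwayιIso (gr k n) (hX k i) one_pos (hX k j) one_pos rfl
  obtain ⟨ψ, hψ⟩ := sp_surj (pullback.lift _ _ h ≫ e.hom)
  obtain rfl : ψ.comp (awayMap _ (hX k j) rfl) = ρ := sp_inj (by
    rw [← sp_comp, hψ, Category.assoc]
    exact (_ ≫= Proj.pullbackAwayιIso_hom_SpecMap_awayMap_left ..).trans (pullback.lift_fst ..))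
  obtain rfl : ψ.comp (awayMap _ (hX k i) (mul_comm _ _)) = ρ' := sp_inj (by
    rw [← sp_comp, hψ, Category.assoc]
    exact (_ ≫= Proj.pullbackAwayιIso_hom_SpecMap_awayMap_right ..).trans (pullback.lift_snd ..))
  simp only [RingHom.comp_apply, ← map_mul]
  congr 1
  refine val_injective _ ?_
  simp only [rat, awayMap_mk, val_mul, Away.val_mk, Localization.mk_mul, Localization.mk_eq_mk_iff,
    Localization.r_iff_exists]
  exact ⟨1, by simp; ring⟩

theorem aw_self (ρ : Ch k i →+* T) (h : IsUnit (eval₂Hom (ρ.comp (cst _)) (ρ ∘ rat k i) (X i))) :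
    aw _ _ h = ρ :=
  ch_ext (fun a => (aw_cst _ h a).trans (by simp)) fun l => by
    simpa [rat_self] using aw_rat _ h l

theorem exists_pt {E : Type} [Field E] (ρ : Ch k j →+* E) {O : Subring E}
    (hk : ∀ a, ρ (cst _ a) ∈ O) (h0 : ∀ l, ρ (rat k j l) ≠ 0) (h : Rt (fun l => ρ (rat k j l)) O) :
    ∃ ω : Spec (.of O) ⟶ projSpace k n, sp O.subtype ≫ ω = sp ρ ≫ pchart k j := by
  let g := eval₂Hom (ρ.comp (cst _)) (ρ ∘ rat k j)
  have hj : IsUnit (g (X j)) := by simp [g, rat_self]
  obtain ⟨i, h⟩ := h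
  have hi : IsUnit (g (X i)) := by simp [g, h0]
  have h1 : ∀ z, aw g _ hi z ∈ O := fun z => by
    obtain ⟨a, rfl⟩ := exists_eval z
    let := (ρ.comp (cst (X j))).toAlgebra
    have := ev_mem (B := k) hk h a
    rwa [eval₂_comp_left, show (aw g _ hi).comp _ = algebraMap k E from RingHom.ext fun a =>
      (aw_cst g hi a).trans (eval₂_C _ _ _), show aw g _ hi ∘ rat k i = fun l => ρ (rat k j l) /
        ρ (rat k j i) from funext fun l => eq_div_of_mul_eq (h0 i) (by simpa [g] using aw_rat g hi l)]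
  refine ⟨sp ((aw g _ hi).codRestrict O h1) ≫ pchart k i, ?_⟩
  rw [sp_comp_assoc, ← aw_self ρ hj, ← aw_chart g hi hj]
  rfl

section
variable {B : Type} [CommRing B] [IsDomain B] [Algebra k B]

noncomputable instance : Algebra k (Ch k i) := (cst (X i)).toAlgebra

theorem isDomain_ch : IsDomain (B ⊗[k] Ch k i) := by
  classical
  let g : MvPolynomial (Fin (n + 1)) k →+* MvPolynomial (Fin (n + 1)) B :=
    eval₂Hom (C.comp (algebraMap k B)) fun l => if l = i then 1 else X l
  have hg : IsUnit (g (X i)) := by simp [g]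
  obtain ⟨δ, hδ⟩ := exists_tmul (C := k) C (aw g _ hg) fun a => (aw_cst g hg a).trans (by simp [g])
  let ν := (Algebra.TensorProduct.includeRight (R := k) (A := B) (B := Ch k i)).toRingHom
  let ε := eval₂Hom (algebraMap B (B ⊗[k] Ch k i)) fun l => ν (rat k i l)
  have h1 : ε.comp (aw g _ hg) = ν := ch_ext
    (fun a => by
      rw [RingHom.comp_apply, aw_cst]
      simp only [ε, g, ν, coe_eval₂Hom, eval₂_C, RingHom.comp_apply]
      exact Algebra.TensorProduct.tmul_one_eq_one_tmul (A := B) (B := Ch k i) a)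
    fun l => by
      have := congrArg ε (aw_rat g hg l)
      by_cases h : l = i
      exacts [by simp [h, rat_self], by simpa [ε, g, h] using this]
  refine Function.Injective.isDomain δ (Function.LeftInverse.injective (g := ε) fun z => ?_)
  induction z using TensorProduct.induction_on with
  | zero => simp
  | tmul b a =>
    rw [hδ, map_mul, show ε (aw g _ hg a) = ν a from DFunLike.congr_fun h1 a]
    simp [ε, ν]
  | add a b ha hb => rw [map_add, map_add, ha, hb]

theorem hinj_ch {E : Type} [Field E] [Algebra B E] {θ : B ⊗[k] Ch k i →+* E}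
    (hθ : Function.Injective θ) (h : ∀ b, θ (algebraMap B _ b) = algebraMap B E b) :
    HInj B fun l => θ (1 ⊗ₜ rat k i l) := fun d p hp e => by
  let Ω := FractionRing (MvPolynomial (Fin (n + 1)) B)
  let α := algebraMap (MvPolynomial (Fin (n + 1)) B) Ω
  have hα : Function.Injective α := IsFractionRing.injective _ _
  let g := α.comp (MvPolynomial.map (algebraMap k B))
  have h0 : α (X i) ≠ 0 := (map_ne_zero_iff _ hα).2 (X_ne_zero i)
  have hg : IsUnit (g (X i)) := (show g (X i) = α (X i) by simp [g]) ▸ h0.isUnit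
  obtain ⟨δ, hδ⟩ := exists_tmul (C := k) (algebraMap B Ω) (aw g _ hg) fun a =>
    (aw_cst g hg a).trans (by simp [g]; rfl)
  have h1 : aeval (fun l => (1 : B) ⊗ₜ[k] rat k i l) p = 0 := hθ (by
    rw [map_zero, ← e, aeval_def, hom_eval₂, aeval_def]
    exact congrArg (eval₂ · _ p) (RingHom.ext h))
  have h2 := congrArg δ h1
  rw [aeval_def, hom_eval₂, map_zero, show δ.comp _ = algebraMap B Ω from
    RingHom.ext fun b => (hδ b 1).trans (by simp), show (fun l => δ (1 ⊗ₜ rat k i l)) =
      fun l => α (X l) / α (X i) from funext fun l => eq_div_of_mul_eq h0 (by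
        simpa [hδ, g] using aw_rat g hg l), ← aeval_def, aeval_div hp, div_eq_zero_iff] at h2
  refine hα ((Eq.trans ?_ (h2.resolve_right (pow_ne_zero _ h0))).trans (map_zero _).symm)
  exact DFunLike.congr_fun (show IsScalarTower.toAlgHom B _ Ω = aeval fun l => α (X l) by
    ext; simp [α]) p

theorem bc_chart {C D A : Type} [CommRing C] [CommRing D] [CommRing A] [Algebra C D] [Algebra C A]
    {Y Z : Scheme.{0}} {q : Y ⟶ Spec (.of C)} {m : Z ⟶ Y} {q' : Z ⟶ Spec (.of D)}
    (H : IsPullback m q' q (sp (algebraMap C D))) (j : Spec (.of A) ⟶ Y) [IsOpenImmersion j]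
    (h : j ≫ q = sp (algebraMap C A)) : ∃ j' : Spec (.of (D ⊗[C] A)) ⟶ Z, IsOpenImmersion j' ∧
      j' ≫ q' = sp (algebraMap D _) ∧
      j' ≫ m = sp (Algebra.TensorProduct.includeRight (R := C) (A := D)).toRingHom ≫ j ∧
      ∀ z, m z ∈ Set.range j → z ∈ Set.range j' := by
  obtain ⟨j', h1, h2, h3⟩ := exists_bc_chart H j h
  refine ⟨j', h1, h2, h3, fun z ⟨y, hy⟩ => ?_⟩
  have P := (isPullback_SpecMap_of_isPushout _ _ _ _ (CommRingCat.isPushout_tensorProduct C D A))
  obtain ⟨w, -, hw⟩ := Scheme.exists_preimage_of_isPullback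
    (IsPullback.of_bot (by rw [h, h2]; exact P.flip) h3.symm H) y z hy
  exact ⟨w, hw⟩

theorem isIntegral_proj {Z : Scheme.{0}} {e : Z ⟶ projSpace k n} {q : Z ⟶ Spec (.of B)}
    (H : IsPullback e q (projStr k n) (sp (algebraMap k B))) : IsIntegral Z := by
  choose j hj h1 h2 h3 using fun i => bc_chart H (pchart k i) pchart_str
  have hd := fun i : Fin (n + 1) => isDomain_ch (k := k) (B := B) (i := i)
  have h4 : ∀ z, ∃ i, z ∈ Set.range (j i) := fun z => (pchart_cover (e z)).imp fun i => h3 i z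
  let g : MvPolynomial (Fin (n + 1)) k →+* B := eval₂Hom (algebraMap k B) 1
  have hg : ∀ i, IsUnit (g (X i)) := fun i => by simp [g]
  let s := H.lift (sp (aw g _ (hg 0)) ≫ pchart k 0) (𝟙 _) (by
    rw [Category.assoc, pchart_str, sp_comp, Category.id_comp]
    exact congrArg sp (RingHom.ext fun a => (aw_cst g (hg 0) a).trans (eval₂_C _ _ _)))
  have h5 : ∀ i, s (genericPoint _) ∈ Set.range (j i) := fun i => h3 i _ (by
    rw [← Scheme.Hom.comp_apply, H.lift_fst, aw_chart g (hg 0) (hg i)]
    exact ⟨_, rfl⟩)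
  have h6 : ∀ i : Fin (n + 1), AlgebraicGeometry.IsReduced (Spec (.of (B ⊗[k] Ch k i))) :=
    fun i => inferInstance
  have : AlgebraicGeometry.IsReduced Z :=
    @IsReduced.of_openCover _ (Scheme.Cover.mkOfCovers _ _ j fun z => (h4 z).imp fun _ h => h) h6
  have : PreirreducibleSpace Z := .of_isOpenCover (U := fun i => (j i).opensRange)
    (fun a b _ h => Set.disjoint_left.1 (TopologicalSpace.Opens.coe_disjoint.2 h) (h5 a) (h5 b))
    (.of_sets _ (Set.eq_univ_of_forall fun z => Set.mem_iUnion.2 (h4 z))) fun i =>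
      Subtype.preirreducibleSpace (by
        have := (IrreducibleSpace.isIrreducible_univ (Spec (.of (B ⊗[k] Ch k i)))).2.image
          (j i) (j i).continuous.continuousOn
        simpa using this)
  have : IrreducibleSpace Z := ⟨⟨s (genericPoint _)⟩⟩
  exact isIntegral_of_irreducibleSpace_of_isReduced _

end

end Pool.Agent.MP_e8e0b6_ag

end MrgPart0

-- ======== part 1: formerly Pool.Agent.MP_e8e0b6_ag.SB.Pipe
section MrgPart1

/-!
A Severi-Brauer scheme over an affine line with a section over the origin is locally trivial.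
-/

set_option linter.unusedSectionVars false

open TensorProduct Polynomial

namespace Pool.Agent.MP_e8e0b6_ag

open SB

section
variable {C F ι σ : Type} [CommRing C] [Field F] [Algebra C F]

variable (σ) in
/-- The base change to `B` is a projective space. -/
def Atlas.Good (𝒜 : Atlas C F ι) (B : Type) [CommRing B] [Algebra C B] : Prop :=
  ∀ (E : Type) [Field E] [Algebra B E] [Algebra C E] [IsScalarTower C B E] (β : BC C F B E),
    ∃ x : σ → E, PC B (𝒜.Q β.μ) x

variable (σ) in
/-- A trivialising etale neighbourhood. -/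
structure Nb (𝒜 : Atlas C F ι) (R : Type) [CommRing R] [Algebra C R] where
  D : Type
  [ring : CommRing D]
  [domain : IsDomain D]
  [alg : Algebra R D]
  [etale : Algebra.Etale R D]
  good : ∀ (B : Type) [CommRing B] [IsDomain B] [Algebra C B] [Module.Flat C B] (φ : D →+* B),
    (∀ c, φ (algebraMap R D (algebraMap C R c)) = algebraMap C B c) →
      Function.Injective (algebraMap C B) → 𝒜.Good σ B

attribute [instance] Nb.ring Nb.domain Nb.alg Nb.etale

variable (σ) in
/-- The family is etale locally trivial. -/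
def Atlas.Etl (𝒜 : Atlas C F ι) : Prop :=
  ∀ (k R : Type) [Field k] [CommRing R] [Algebra k R] [Algebra.Smooth k R] [Algebra C R]
    (m : Ideal R), m.IsPrime → ∃ N : Nb σ 𝒜 R, m.map (algebraMap R N.D) ≠ ⊤

theorem isAlgebraic_of_etale (R D : Type) [CommRing R] [IsDomain R] [CommRing D] [Algebra R D]
    [Algebra.Etale R D] : Algebra.IsAlgebraic R D := ⟨fun d => by
  let K := FractionRing R
  have := Algebra.FormallyUnramified.finite_of_free K (K ⊗[R] D)
  exact (isAlgebraic_algHom_iff (Algebra.TensorProduct.includeRight (A := K))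
    (Algebra.TensorProduct.includeRight_injective (IsFractionRing.injective R K))).1
    ((IsFractionRing.isAlgebraic_iff R K _).2 (Algebra.IsAlgebraic.isAlgebraic _))⟩

variable {C' E' : Type} [CommRing C'] [Algebra C C'] [Module.Flat C C'] [Field E'] [Algebra C' E']
  [Algebra C E'] [IsScalarTower C C' E'] {𝒜 : Atlas C F ι} (β : BC C F C' E')
  (h : Function.Injective (algebraMap C C'))

theorem Atlas.Good.exists_pc {B : Type} [CommRing B] [IsDomain B] [Algebra C' B] [Algebra C B]
    [IsScalarTower C C' B] [Module.Flat C' B] (hB : Function.Injective (algebraMap C' B))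
    (H : 𝒜.Good σ B) : ∃ (E : Type) (_ : Field E) (_ : Algebra B E) (_ : Algebra C' E)
      (_ : IsScalarTower C' B E) (β' : BC C' E' B E) (x : σ → E),
        PC B ((𝒜.bc β h).Q β'.μ) x := by
  have := (𝒜.bc β h).gi B hB
  obtain ⟨E, _, _, _, _, ⟨β'⟩⟩ := exists_bc (C := C') (F := E') (D := B)
  let := ((algebraMap C' E).comp (algebraMap C C')).toAlgebra
  have : IsScalarTower C C' E := .of_algebraMap_eq' rfl
  have : IsScalarTower C B E := .to₁₃₄ _ C' _ _
  obtain ⟨x, hx⟩ := H E (β.comp β')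
  exact ⟨E, _, _, _, ‹_›, β', x, hx.congr fun O hO => 𝒜.bc_P β h _ fun c => by
    simpa [β'.alg_alg] using hO _⟩

theorem Atlas.Etl.lt (H : 𝒜.Etl σ) (k R : Type) [Field k] [IsAlgClosed k] [CharZero k]
    [CommRing R] [IsDomain R] [Algebra k R] [Algebra.Smooth k R] [Algebra C R] [Algebra C' R]
    [IsScalarTower C C' R] [Module.Flat C' R] [Algebra.IsIntegral C' R]
    (hR : Function.Injective (algebraMap C' R)) : LT σ (𝒜.bc β h) := by
  have := hR.isDomain _
  have h1 : ∀ m : Ideal C', m.IsMaximal → ∃ n : Ideal R, n.IsMaximal ∧ n.comap (algebraMap C' R) = m :=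
    fun m _ => Ideal.exists_ideal_over_maximal_of_isIntegral m
      ((RingHom.injective_iff_ker_eq_bot _).1 hR ▸ bot_le)
  have key : ∀ (N : Nb σ 𝒜 R) (B : Type) [CommRing B] [IsDomain B] [Algebra N.D B]
      [Module.Flat N.D B], Function.Injective (algebraMap N.D B) → ∀ P : ∀ (B : Type) [CommRing B]
      [Algebra C' B], Prop, letI := ((algebraMap N.D B).comp ((algebraMap R N.D).comp
        (algebraMap C' R))).toAlgebra; P B → ∃ T : Tr σ (𝒜.bc β h), P T.B := fun N B _ _ _ _ hB P hP => by
    let := ((algebraMap N.D B).comp (algebraMap R N.D)).toAlgebra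
    have : IsScalarTower R N.D B := .of_algebraMap_eq' rfl
    let := ((algebraMap N.D B).comp ((algebraMap R N.D).comp (algebraMap C' R))).toAlgebra
    have : IsScalarTower C' R B := .of_algebraMap_eq' rfl
    let := ((algebraMap C' B).comp (algebraMap C C')).toAlgebra
    have : IsScalarTower C C' B := .of_algebraMap_eq' rfl
    have := Module.Flat.trans R N.D B
    have := Module.Flat.trans C' R B
    have := Module.Flat.trans C C' B
    have h2 : Function.Injective (algebraMap C' B) :=
      hB.comp ((FaithfulSMul.algebraMap_injective R N.D).comp hR)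
    obtain ⟨E, _, _, _, _, β', x, hx⟩ := (N.good B (algebraMap _ _) (fun c => by
      rw [IsScalarTower.algebraMap_apply C C' R]; rfl) (h2.comp h)).exists_pc β h h2
    exact ⟨⟨B, h2, E, β', x, hx⟩, hP⟩
  refine ⟨fun m hm => ?_, ?_⟩
  · obtain ⟨n, hn, rfl⟩ := h1 m hm
    obtain ⟨N, hN⟩ := H k R n hn.isPrime
    obtain ⟨p, hp, h2⟩ := Ideal.exists_le_maximal _ hN
    let := ((algebraMap R N.D).comp (algebraMap k R)).toAlgebra
    have : IsScalarTower k R N.D := .of_algebraMap_eq' rfl
    have := Algebra.Smooth.comp k R N.D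
    have h3 : n = p.comap (algebraMap R N.D) :=
      hn.eq_of_le (Ideal.IsPrime.ne_top inferInstance) (Ideal.map_le_iff_le_comap.1 h2)
    refine key N (Localization.AtPrime p) (IsLocalization.injective _ p.primeCompl_le_nonZeroDivisors)
      (fun B _ _ => UniqueFactorizationMonoid B ∧ (n.comap (algebraMap C' R)).map (algebraMap C' B) ≠ ⊤
        ∧ ∀ c ∉ n.comap (algebraMap C' R), IsUnit (algebraMap C' B c)) ⟨ufd_smooth (k := k) p,
      fun e => (IsLocalRing.maximalIdeal.isMaximal _).ne_top (top_le_iff.1 (e.ge.trans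
        (Ideal.map_le_iff_le_comap.2 fun c hc => ?_))), fun c hc => ?_⟩
    · exact (IsLocalization.AtPrime.to_map_mem_maximal_iff _ p _).2 (h3.le hc)
    · exact (IsLocalization.AtPrime.isUnit_to_map_iff _ p _).2 fun h => hc (h3.ge h)
  · choose N hN using fun p : PrimeSpectrum R => H k R p.1 p.2
    obtain ⟨s, hs⟩ := isCompact_univ.elim_finite_subcover
      (fun p => Set.range (PrimeSpectrum.comap (algebraMap R (N p).D)))
      (fun p => PrimeSpectrum.isOpenMap_comap_of_hasGoingDown_of_finitePresentation.isOpen_range)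
      fun p _ => by
        obtain ⟨n, hn, h2⟩ := Ideal.exists_le_maximal p.1 p.2.ne_top
        obtain ⟨q, hq, h3⟩ := Ideal.exists_le_maximal _ (hN ⟨n, hn.isPrime⟩)
        have : q.LiesOver n := ⟨hn.eq_of_le (Ideal.IsPrime.ne_top inferInstance)
          (Ideal.map_le_iff_le_comap.1 h3)⟩
        obtain ⟨q', -, _, h4⟩ := Ideal.exists_ideal_le_liesOver_of_le q h2
        exact Set.mem_iUnion.2 ⟨⟨n, hn.isPrime⟩, ⟨q', ‹_›⟩, PrimeSpectrum.ext h4.over.symm⟩
    choose T hT using fun p : s => key (N p) (N p).D Function.injective_id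
      (fun B _ _ => Algebra.IsAlgebraic C' B ∧ ∀ q : Ideal (N p).D, q.IsPrime → ((q.comap
        (algebraMap R _)).comap (algebraMap C' R)).map (algebraMap C' B) ≠ ⊤) (by
        let := ((algebraMap R (N p).D).comp (algebraMap C' R)).toAlgebra
        have : IsScalarTower C' R (N p).D := .of_algebraMap_eq' rfl
        have := isAlgebraic_of_etale R (N p).D
        exact ⟨Algebra.IsAlgebraic.trans C' R _, fun q hq e => hq.ne_top (top_le_iff.1
          (e.ge.trans (Ideal.map_le_iff_le_comap.2 le_rfl)))⟩)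
    refine ⟨s, inferInstance, T, fun p => (hT p).1, fun m hm => ?_⟩
    obtain ⟨n, hn, rfl⟩ := h1 m hm
    obtain ⟨p, hp, q, hq⟩ := Set.mem_iUnion₂.1 (hs (Set.mem_univ ⟨n, hn.isPrime⟩))
    obtain rfl : q.1.comap _ = n := congrArg PrimeSpectrum.asIdeal hq
    exact ⟨⟨p, hp⟩, (hT ⟨p, hp⟩).2 q.1 q.2⟩

end

section
variable {C F ι : Type} [CommRing C] [Field F] [Algebra C F] {𝒜 : Atlas C F ι} {n : ℕ}
  [Nontrivial (Fin n)]

theorem exists_galois (R D L : Type) [CommRing R] [IsDomain R] [CommRing D] [IsDomain D]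
    [Algebra R D] [Algebra.Etale R D] [Field L] [CharZero L] [Algebra R L] [IsFractionRing R L] :
    ∃ (L' : Type) (_ : Field L') (_ : Algebra L L') (φ : D →+* L'), FiniteDimensional L L' ∧
      IsGalois L L' ∧ ∀ c, φ (algebraMap R D c) = algebraMap L L' (algebraMap R L c) := by
  let M := AlgebraicClosure L
  have := isAlgebraic_of_etale R D
  have : Module.IsTorsionFree R M := Module.isTorsionFree_iff_algebraMap_injective.2
    ((algebraMap L M).injective.comp (IsFractionRing.injective R L))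
  let ψ : D →ₐ[R] M := IsAlgClosed.lift
  obtain ⟨s, hs⟩ := (inferInstance : Algebra.FiniteType R D).out
  let L' := (FiniteGaloisIntermediateField.adjoin L (ψ '' s)).toIntermediateField
  have h1 : ∀ d, ψ d ∈ L' := fun d => (Algebra.adjoin_le
    (S := (L'.toSubalgebra.restrictScalars R).comap ψ) fun d hd =>
      FiniteGaloisIntermediateField.subset_adjoin L _ ⟨d, hd, rfl⟩) (hs.ge trivial)
  exact ⟨L', inferInstance, inferInstance, (ψ : D →+* M).codRestrict L' h1, inferInstance,
    inferInstance, fun c => Subtype.ext (ψ.commutes _)⟩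

theorem Nb.exists_pg {K E : Type} [Field K] [IsAlgClosed K] [CharZero K] [Algebra C K[X]]
    [Module.Flat C K[X]] (h : Function.Injective (algebraMap C K[X])) [Field E] [Algebra K[X] E]
    [Algebra C E] [IsScalarTower C K[X] E] (β : BC C F K[X] E) (N : Nb (Fin n) 𝒜 K[X]) :
    ∃ y : Fin n → E, PG K[X] (𝒜.Q β.μ) y := by
  let L := FractionRing K[X]
  obtain ⟨L', _, _, φ, _, _, hφ⟩ := exists_galois K[X] N.D L
  let := ((algebraMap L L').comp (algebraMap K[X] L)).toAlgebra
  have : IsScalarTower K[X] L L' := .of_algebraMap_eq' rfl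
  let := ((algebraMap K[X] L').comp (algebraMap C K[X])).toAlgebra
  have : IsScalarTower C K[X] L' := .of_algebraMap_eq' rfl
  have h2 : Function.Injective (algebraMap K[X] L') :=
    (algebraMap L L').injective.comp (IsFractionRing.injective _ L)
  have := flat_field h2
  have := Module.Flat.trans C K[X] L'
  obtain ⟨E', _, _, _, _, β', x, hx⟩ := (N.good L' φ (fun c => hφ _) (h2.comp h)).exists_pc β h h2
  obtain ⟨x', h3, h4⟩ := exists_stable_of_c1 (tsen (K := K) (L := L)) β' hx
  obtain ⟨m, u, v, h5⟩ := speiser L L'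
  have h6 := hx.hinj.inj.comp h2
  have : CharZero E := (algebraMap K[X] E).charZero_iff (fun a b e => h6 (by
    simpa [β'.alg_alg] using congrArg β'.μ e)) |>.1 inferInstance
  obtain ⟨y, hy⟩ := BC.exists_pg (AlgEquiv.restrictScalarsHom K[X]) h2 (fun d => by
    obtain ⟨a, b, hb, e⟩ := IsFractionRing.div_surjective K[X] (Algebra.trace L L' d)
    refine ⟨algebraMap _ _ a / algebraMap _ _ b, ?_⟩
    erw [← trace_eq_sum_automorphisms]
    rw [← e, map_div₀, map_div₀, map_div₀, β'.alg_alg, β'.alg_alg]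
    rfl) (u := u) (v := v) (fun g => by convert h5 g; rfl) h3 h4
  exact ⟨y, hy.congr fun O hO => (𝒜.bc_P β h O hO).symm⟩

theorem BC.exists_finset {K E : Type} [CommRing K] [Algebra C K[X]] [Field E] [Algebra K[X] E]
    [Algebra C E] [IsScalarTower C K[X] E] (β : BC C F K[X] E) (ω : E) :
    ∃ s : Finset K, ∀ W : Subfield E, (∀ c ∈ s, algebraMap K[X] E (Polynomial.C c) ∈ W) →
      algebraMap K[X] E X ∈ W → (∀ f, β.μ f ∈ W) → ω ∈ W := by
  classical
  have key : ∀ z, ∃ s : Finset K, ∀ W : Subfield E, (∀ c ∈ s, algebraMap K[X] E (Polynomial.C c) ∈ W) →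
      algebraMap K[X] E X ∈ W → (∀ f, β.μ f ∈ W) → tens K[X] β.μ z ∈ W := fun z => by
    induction z using TensorProduct.induction_on with
    | zero => exact ⟨∅, fun W _ _ _ => by simp⟩
    | tmul p f =>
      refine ⟨p.coeffs, fun W h1 h2 h3 => mul_mem ?_ (h3 f)⟩
      rw [p.as_sum_support_C_mul_X_pow, map_sum]
      exact sum_mem fun i hi => by
        simpa using mul_mem (h1 _ (coeff_mem_coeffs (mem_support_iff.1 hi))) (pow_mem h2 i)
    | add a b ha hb =>
      obtain ⟨s, hs⟩ := ha
      obtain ⟨t, ht⟩ := hb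
      exact ⟨s ∪ t, fun W h1 h2 h3 => map_add (tens K[X] β.μ) a b ▸ add_mem
        (hs W (fun c hc => h1 c (by simp [hc])) h2 h3) (ht W (fun c hc => h1 c (by simp [hc])) h2 h3)⟩
  obtain ⟨a, b, hb, e⟩ := β.frac ω
  obtain ⟨s, hs⟩ := key a
  obtain ⟨t, ht⟩ := key b
  exact ⟨s ∪ t, fun W h1 h2 h3 => eq_div_of_mul_eq ((map_ne_zero_iff _ β.inj).2 hb) e ▸ div_mem
    (hs W (fun c hc => h1 c (by simp [hc])) h2 h3) (ht W (fun c hc => h1 c (by simp [hc])) h2 h3)⟩

theorem PG.normal {y : Fin n → F} {𝓠 : Subring F → Prop} (h : PG C 𝓠 y) :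
    ∃ (y : Fin n → F) (i : Fin n), PG C 𝓠 y ∧ y i = 1 :=
  let ⟨i, _⟩ := exists_pair_ne (Fin n)
  ⟨_, i, h.mul (inv_ne_zero (h.hinj.ne i)), inv_mul_cancel₀ (h.hinj.ne i)⟩

theorem LT.exists_pc [IsDomain C] [IsPrincipalIdealRing C] [IsJacobsonRing C] [Finite ι]
    [Nonempty ι] (H : LT (Fin n) 𝒜) {y : Fin n → F} (hy : PG C 𝒜.P y) :
    ∃ x : Fin n → F, PC C 𝒜.P x := by
  obtain ⟨y, i, hy, hi⟩ := hy.normal
  have := H.finite hy hi
  have := (faithfulSMul_iff_algebraMap_injective C F).2 hy.hinj.inj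
  let b := Module.finBasis C (𝒜.hull y)
  have h1 : ∀ {τ : Type} (b : Module.Basis τ C (𝒜.hull y)), ∀ f ∈ 𝒜.hull y,
      (1 : C) • f ∈ Submodule.span C (Set.range fun l => (b l : F)) := fun b f hf => by
    simpa [← Set.range_comp, Function.comp_def] using
      Submodule.apply_mem_span_image_of_mem_span (Submodule.subtype _) (b.mem_span ⟨f, hf⟩)
  obtain ⟨m, hm⟩ := Ideal.exists_maximal C
  have h2 := H.card hy hi (fun l => (b l).2) (h1 b) (b.linearIndependent.map' _
    (Submodule.ker_subtype _)) hm hm.isPrime.one_notMem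
  obtain ⟨h3, h4⟩ := H.pc hy hi (fun l => (b.reindex (Fintype.equivOfCardEq h2) l).2) (h1 _)
    one_ne_zero
  exact ⟨_, h3, fun O hO hC => h4 O hO hC (by simpa using Un.one)⟩

end

attribute [local instance] Polynomial.algebra in
/-- The action on polynomials. -/
noncomputable def polyAct (A K L : Type) [CommRing A] [CommRing K] [CommRing L] [Algebra A K]
    [Algebra K L] [Algebra A L] [IsScalarTower A K L] : (L ≃ₐ[K] L) →* (L[X] ≃ₐ[A[X]] L[X]) where
  toFun g := { mapEquiv g.toRingEquiv with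
    commutes' p := (Polynomial.map_map _ _ p).trans (congrArg (Polynomial.map · p) (g.restrictScalars A).toAlgHom.comp_algebraMap) }
  map_one' := AlgEquiv.ext fun _ => Polynomial.map_id
  map_mul' g h := AlgEquiv.ext fun p => (Polynomial.map_map (h : L →+* L) (g : L →+* L) p).symm

attribute [local instance] Polynomial.algebra in
theorem polyAct_apply {A K L : Type} [CommRing A] [CommRing K] [CommRing L] [Algebra A K]
    [Algebra K L] [Algebra A L] [IsScalarTower A K L] (g : L ≃ₐ[K] L) (p : L[X]) :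
    polyAct A K L g p = p.map (g : L →+* L) := rfl

variable {k A R F ι : Type} [Field k] [CharZero k] [IsAlgClosed k] [CommRing A] [IsDomain A]
  [Algebra k A] [Algebra.Smooth k A] [Field F] [Algebra A[X] F] (x : A →ₐ[k] k)
  [CommRing R] [IsDomain R] [IsLocalRing R] [Algebra A R] [IsLocalization.AtPrime R (kerPt x)]
  [Finite ι] {𝒜 : Atlas A[X] F ι} {n : ℕ} [Nontrivial (Fin n)]
  (hF : Function.Injective (algebraMap A[X] F)) {i : ι} (s : 𝒜.A i →+* R)
  (hs : ∀ c, s (algebraMap A[X] _ c) = algebraMap A R (c.eval 0))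
include hF hs x

attribute [local instance] Polynomial.algebra

theorem generic_of_galois (K L : Type) [Field K] [Algebra A K] [IsFractionRing A K] [Field L]
    [Algebra K L] [Algebra A L] [IsScalarTower A K L] [FiniteDimensional K L] [IsGalois K L]
    [Module.Flat A[X] L[X]] {E : Type} [Field E] [Algebra L[X] E] [Algebra A[X] E]
    [IsScalarTower A[X] L[X] E] (β : BC A[X] F L[X] E) {ψ : Fin n → E} (hψ : PC L[X] (𝒜.Q β.μ) ψ) :
    ∃ y : Fin n → F, PG A[X] 𝒜.P y := by
  classical
  have := charZero_of_injective_algebraMap (algebraMap k A).injective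
  have := charZero_of_injective_algebraMap hF
  have h1 : Function.Injective (algebraMap A L) :=
    IsScalarTower.algebraMap_eq A K L ▸ (algebraMap K L).injective.comp (IsFractionRing.injective A K)
  have := charZero_of_injective_algebraMap h1
  let ρ : R →+* L := IsLocalization.lift (M := (kerPt x).primeCompl) (g := algebraMap A L) fun y =>
    ((map_ne_zero_iff _ h1).2 fun h : (y : A) = 0 => y.2 (h ▸ zero_mem _)).isUnit
  have hρ : ∀ a, ρ (algebraMap A R a) = algebraMap A L a := IsLocalization.lift_eq _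
  have h2 : ∀ (g : L ≃ₐ[K] L) r, g (ρ r) = ρ r := fun g => DFunLike.congr_fun
    (IsLocalization.ringHom_ext (kerPt x).primeCompl (j := (g : L →+* L).comp ρ) (k := ρ)
      (RingHom.ext fun a => (congrArg g (hρ a)).trans
        (((g.restrictScalars A).commutes a).trans (hρ a).symm)))
  obtain ⟨θ, hθ⟩ := exists_tmul (C := A[X]) (evalRingHom (0 : L)) (ρ.comp s) fun c => by
    simp [hs, hρ, ← coeff_zero_eq_eval_zero, ← coeff_zero_eq_aeval_zero']
  have hr := β.Θ_inj (𝒜.inj i)
  have h3 : ∀ d, Ext (β.Θ (𝒜.κ i)) θ (algebraMap L[X] E d) (d.eval 0) := fun d => by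
    simpa [hθ] using Ext.of (r := β.Θ (𝒜.κ i)) (θ := θ) (d ⊗ₜ 1)
  have h4 := fun d => mem_dom.2 ⟨_, h3 d⟩
  obtain ⟨x', h5, h6⟩ := BC.exists_stable_of_point (polyAct A K L) (fun d hd => by
      obtain ⟨c, -, rfl⟩ := isUnit_iff.1 hd; exact ⟨c, rfl⟩) hr (fun g => (g : L →+* L))
    (fun g ω c h => (h.comp (g : L →+* L)).trans _ fun z => by
      induction z using TensorProduct.induction_on with
      | zero => simpa using Ext.zero
      | tmul d a =>
        simpa [hθ, h2, polyAct_apply] using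
          Ext.of (r := β.Θ (𝒜.κ i)) (θ := θ) (d.map (g : L →+* L) ⊗ₜ a)
      | add a b ha hb => simpa only [map_add] using ha.add hb) h4
    (fun c => by simpa using h3 (C c)) hψ ((hψ.iff _ (loc_dom hr) h4).1 ⟨i, fun a =>
      mem_dom.2 ⟨_, by simpa using Ext.of (r := β.Θ (𝒜.κ i)) (θ := θ) (1 ⊗ₜ a)⟩⟩)
  obtain ⟨m, u, v, h7⟩ := speiser K L
  refine BC.exists_pg (polyAct A K L) (map_injective _ h1) (fun d => ?_) (u := fun j => C (u j))
    (v := fun j => C (v j)) (fun g => ?_) h5 h6
  · induction d using Polynomial.induction_on' with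
    | add p q hp hq =>
      obtain ⟨f, hf⟩ := hp
      obtain ⟨f', hf'⟩ := hq
      exact ⟨f + f', by simp only [map_add, Finset.sum_add_distrib, hf, hf']⟩
    | monomial m c =>
      obtain ⟨a, b, hb, e⟩ := IsFractionRing.div_surjective A (Algebra.trace K L c)
      have h8 := trace_eq_sum_automorphisms (K := K) c
      rw [← e, map_div₀, ← IsScalarTower.algebraMap_apply, ← IsScalarTower.algebraMap_apply,
        div_eq_iff ((map_ne_zero_iff _ h1).2 (nonZeroDivisors.ne_zero hb))] at h8
      refine ⟨algebraMap _ _ (monomial m a) / algebraMap _ _ (C b), ?_⟩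
      rw [map_div₀, β.alg_alg, β.alg_alg, div_eq_iff ((map_ne_zero_iff _ hψ.hinj.inj).2
        ((map_ne_zero_iff _ (map_injective _ h1)).2 (C_ne_zero.2 (nonZeroDivisors.ne_zero hb)))),
        ← map_mul]
      simp [polyAct_apply, ← map_sum, h8]
  · simp only [polyAct_apply, map_C, ← C_mul, ← map_sum, RingHom.coe_coe, h7]
    split_ifs <;> simp

variable (H : 𝒜.Etl (Fin n))
include H

theorem exists_generic : ∃ y : Fin n → F, PG A[X] 𝒜.P y := by
  classical
  have : Nonempty ι := ⟨i⟩
  have := charZero_of_injective_algebraMap (algebraMap k A).injective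
  let K := FractionRing A
  let M := AlgebraicClosure K
  have h1 : Function.Injective (algebraMap A M) :=
    (algebraMap K M).injective.comp (IsFractionRing.injective A K)
  have := flat_field h1
  have := flat_poly A M
  have h2 := map_injective _ h1
  have := 𝒜.gi M[X] h2
  obtain ⟨E, _, _, _, _, ⟨β⟩⟩ := exists_bc (C := A[X]) (F := F) (D := M[X])
  have : Algebra.Smooth M M[X] := {}
  obtain ⟨N, -⟩ := H M M[X] ⊥ inferInstance
  obtain ⟨y, hy⟩ := N.exists_pg h2 β
  choose t ht using fun l => β.exists_finset (y l)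
  let L := (FiniteGaloisIntermediateField.adjoin K (⋃ l, (t l : Set M))).toIntermediateField
  have : IsScalarTower A L M := .of_algebraMap_eq' rfl
  have h3 : Function.Injective (algebraMap A L) :=
    (algebraMap K L).injective.comp (IsFractionRing.injective A K)
  have := flat_field h3
  have := flat_poly A L
  have := flat_poly L M
  have h4 := map_injective _ h3
  have h5 := map_injective _ (algebraMap L M).injective
  have := 𝒜.gi L[X] h4
  obtain ⟨E', _, _, _, _, ⟨β₀⟩⟩ := exists_bc (C := A[X]) (F := F) (D := L[X])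
  let := ((algebraMap M[X] E).comp (algebraMap L[X] M[X])).toAlgebra
  have : IsScalarTower L[X] M[X] E := .of_algebraMap_eq' rfl
  have : IsScalarTower A[X] L[X] E := .to₁₂₄ _ _ M[X] _
  have := flat_field hF
  obtain ⟨β₁, h6⟩ := β₀.factor h5 β
  choose z hz using fun l => ht l (β₁.μ : E' →+* E).fieldRange (fun c hc => ⟨algebraMap L[X] E'
    (C ⟨c, FiniteGaloisIntermediateField.subset_adjoin K _ (Set.mem_iUnion.2 ⟨l, hc⟩)⟩), by
      simp [β₁.alg_alg]⟩) ⟨algebraMap L[X] E' X, by simp [β₁.alg_alg]⟩ fun f => ⟨_, h6 f⟩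
  have h7 : PG L[X] (𝒜.Q β₀.μ) z := .desc h5 β₁ (by
    convert hy with O
    · exact exists_congr fun j => by simp [h6]
    · exact hz _)
  obtain ⟨ψ, hψ⟩ := (H.lt β₀ h4 M M[X] h5).exists_pc (h7.congr (𝒜.bc_P β₀ h4))
  exact generic_of_galois x hF s hs K L β₀ (hψ.congr fun O hO => (𝒜.bc_P β₀ h4 O hO).symm)

theorem exists_linear_coords (hL : AllFree R[X]) : ∃ (h : A) (ψ : Fin n → F), x h ≠ 0 ∧ HInj A[X] ψ ∧
    ∀ O, Loc O → (∀ c, algebraMap A[X] F c ∈ O) → Un O (algebraMap A[X] F (C h)) →
      (𝒜.P O ↔ Rt ψ O) := by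
  have : Nonempty ι := ⟨i⟩
  obtain ⟨y, hy⟩ := exists_generic x hF s hs H
  let β : BC A[X] F A[X] F := ⟨AlgHom.id _ _, by
    have : tens A[X] (AlgHom.id A[X] F) = Algebra.TensorProduct.lid A[X] F := by ext; simp
    exact this ▸ (Algebra.TensorProduct.lid A[X] F).injective, fun ω =>
      ⟨1 ⊗ₜ ω, 1, one_ne_zero, by simp⟩⟩
  have : Algebra.Smooth A A[X] := {}
  have := Algebra.Smooth.comp k A A[X]
  have := Algebra.FiniteType.isNoetherianRing k A[X]
  have := isJacobsonRing_of_finiteType (A := k) (B := A[X])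
  have H' := H.lt β Function.injective_id k A[X] Function.injective_id
  obtain ⟨y, j, hy, hj⟩ := (hy.congr (𝒜.bc_P β Function.injective_id)).normal
  have := H'.finite hy hj
  have := H'.flat hy hj
  obtain ⟨m, ψ, h, hx, h1, h2, h3⟩ := exists_frame x hL hF ((𝒜.bc β Function.injective_id).hull y)
  obtain rfl : m = n := by
    simpa using H'.card hy hj h1 h3 h2 (m := kerPt (basePt x)) inferInstance
      (by simpa [mem_kerPt, basePt_apply])
  obtain ⟨h4, h5⟩ := H'.pc hy hj h1 h3 (C_ne_zero.2 fun e => hx (by simp [e]))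
  exact ⟨h, ψ, hx, h4, fun O hO hC hu => (𝒜.bc_P β _ O hC).symm.trans (h5 O hO hC hu)⟩

end Pool.Agent.MP_e8e0b6_ag

end MrgPart1

-- ======== part 2: formerly Pool.Agent.MP_e8e0b6_ag.SB.LocDom
section MrgPart2

/-! A smooth algebra over a field is locally a domain. -/

open TensorProduct

namespace Pool.Agent.MP_e8e0b6_ag

namespace LocDom

variable {P D : Type} [CommRing P] [IsIntegrallyClosed P] [CommRing D] [Algebra P D]

/-- Idempotents of the generic fibre of a smooth algebra over a normal domain come from the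
algebra. -/
theorem idem_lift [Algebra.Smooth P D] (e : D ⊗[P] FractionRing P) (he : IsIdempotentElem e) :
    ∃ d : D, d ⊗ₜ[P] (1 : FractionRing P) = e := by
  have hi : IsIntegral D e :=
    ⟨Polynomial.X ^ 2 - Polynomial.X, by monicity!, by simp [sq, he.eq]⟩
  obtain ⟨z, hz⟩ := (TensorProduct.toIntegralClosure_bijective_of_smooth (R := P) (S := D)
    (B := FractionRing P)).2 ⟨e, hi⟩
  have h : (TensorProduct.toIntegralClosure P D (FractionRing P) z).1 = e := congrArg Subtype.val hz
  rw [← h]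
  clear h hz
  induction z with
  | zero => exact ⟨0, by simp⟩
  | add x y hx hy =>
    obtain ⟨a, ha⟩ := hx
    obtain ⟨b, hb⟩ := hy
    exact ⟨a + b, by rw [add_tmul, ha, hb, map_add]; rfl⟩
  | tmul x y =>
    obtain ⟨r, hr⟩ := IsIntegrallyClosed.algebraMap_eq_of_integral (K := FractionRing P) y.2
    refine ⟨r • x, ?_⟩
    change _ = x ⊗ₜ[P] y.1
    rw [← hr, smul_tmul, Algebra.algebraMap_eq_smul_one]

/-- An etale algebra over a normal domain has, outside every prime, an element whose basic open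
set is irreducible and reduced. -/
theorem exists_idem [IsDomain P] [Algebra.Etale P D] (q : Ideal D) [hq : q.IsPrime] :
    ∃ d ∉ q, IsIdempotentElem d ∧ ∀ x y : D, x * y * d = 0 → x * d = 0 ∨ y * d = 0 := by
  classical
  let K := FractionRing P
  let E := K ⊗[P] D
  have hr : IsReduced E := Algebra.FormallyUnramified.isReduced_of_field K E
  have hf : Module.Finite K E := Algebra.FormallyUnramified.finite_of_free K E
  have ha : IsArtinianRing E := IsArtinianRing.of_finite K E
  have := Fintype.ofFinite (MaximalSpectrum E)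
  let ψ : D →+* ∀ m : MaximalSpectrum E, E ⧸ m.asIdeal :=
    (IsArtinianRing.equivPi E).toRingEquiv.toRingHom.comp
      (Algebra.TensorProduct.includeRight (R := P) (A := K) (B := D)).toRingHom
  have hψ : Function.Injective ψ := (IsArtinianRing.equivPi E).injective.comp
    (Algebra.TensorProduct.includeRight_injective (B := D) (IsFractionRing.injective P K))
  have hl : ∀ m, ∃ d, ψ d = Pi.single m 1 := fun m => by
    let e := (IsArtinianRing.equivPi E).symm (Pi.single m 1)
    have he : IsIdempotentElem e := by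
      refine IsIdempotentElem.map ?_ (IsArtinianRing.equivPi E).symm
      rw [IsIdempotentElem, ← Pi.single_mul, mul_one]
    obtain ⟨d, hd⟩ := idem_lift _ (he.map (Algebra.TensorProduct.comm P K D))
    refine ⟨d, ?_⟩
    have : (1 : K) ⊗ₜ[P] d = e := (Algebra.TensorProduct.comm P K D).injective (by simpa using hd)
    change IsArtinianRing.equivPi E ((1 : K) ⊗ₜ[P] d) = _
    rw [this]
    exact (IsArtinianRing.equivPi E).apply_symm_apply _
  choose d hd using hl
  have hs : ∑ m, d m = 1 := hψ (by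
    rw [map_sum, map_one]
    simp only [hd]
    exact Finset.univ_sum_single (1 : ∀ m : MaximalSpectrum E, E ⧸ m.asIdeal))
  obtain ⟨m, hm⟩ : ∃ m, d m ∉ q := by
    by_contra! h
    exact hq.ne_top ((Ideal.eq_top_iff_one q).2 (hs ▸ q.sum_mem fun m _ => h m))
  have key : ∀ x, x * d m = 0 ↔ ψ x m = 0 := fun x => by
    rw [← hψ.eq_iff, map_mul, hd, map_zero]
    refine ⟨fun h => by simpa using congrFun h m, fun h => funext fun j => ?_⟩
    by_cases hj : j = m
    · subst hj
      simp [h]
    · simp [hj]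
  refine ⟨d m, hm, hψ ?_, fun x y h => ?_⟩
  · rw [map_mul, hd]
    funext j
    by_cases hj : j = m
    · subst hj
      simp
    · simp [hj]
  · have := m.isMaximal.isPrime
    rw [key, map_mul, Pi.mul_apply] at h
    rw [key, key]
    exact mul_eq_zero.1 h

theorem domain_away {D : Type} [CommRing D] {d : D} (h0 : d ≠ 0) (he : IsIdempotentElem d)
    (h : ∀ x y : D, x * y * d = 0 → x * d = 0 ∨ y * d = 0) : IsDomain (Localization.Away d) := by
  have key : ∀ x, algebraMap D (Localization.Away d) x = 0 ↔ x * d = 0 := fun x => by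
    rw [IsLocalization.map_eq_zero_iff (Submonoid.powers d)]
    refine ⟨fun ⟨⟨_, n, rfl⟩, hn⟩ => ?_, fun hx => ⟨⟨d, 1, pow_one d⟩, by rw [mul_comm, hx]⟩⟩
    rw [← he.pow_succ_eq n, pow_succ, ← mul_assoc, mul_comm x]
    exact mul_eq_zero_of_left hn d
  have : Nontrivial (Localization.Away d) :=
    ⟨1, 0, fun h1 => h0 (by simpa using (key 1).1 (by rw [map_one, h1]))⟩
  have : NoZeroDivisors (Localization.Away d) := ⟨fun {a b} hab => by
    obtain ⟨x, s, rfl⟩ := IsLocalization.exists_mk'_eq (Submonoid.powers d) a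
    obtain ⟨y, t, rfl⟩ := IsLocalization.exists_mk'_eq (Submonoid.powers d) b
    have z : ∀ (x : D) (s : Submonoid.powers d),
        IsLocalization.mk' (Localization.Away d) x s = 0 ↔ x * d = 0 := fun x s => by
      rw [← key, IsLocalization.mk'_eq_iff_eq_mul, zero_mul]
    rw [← IsLocalization.mk'_mul, z] at hab
    rw [z, z]
    exact h x y hab⟩
  exact NoZeroDivisors.to_isDomain _

end LocDom

/-- A smooth algebra over a field is a domain on a basic open neighbourhood of every prime. -/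
theorem exists_domain_away {k A : Type} [Field k] [CommRing A] [Algebra k A] [Algebra.Smooth k A]
    (p : Ideal A) [hp : p.IsPrime] : ∃ f ∉ p, IsDomain (Localization.Away f) := by
  obtain ⟨f, hf, n, _, _, _⟩ :=
    Algebra.IsSmoothAt.exists_isStandardEtale_mvPolynomial (R := k) (p := p)
  have hd : Disjoint (Submonoid.powers f : Set A) p :=
    (Ideal.disjoint_powers_iff_notMem f hp.isRadical).2 hf
  have hq := IsLocalization.isPrime_of_isPrime_disjoint (Submonoid.powers f)
    (Localization.Away f) p hp hd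
  obtain ⟨d, hdq, he, h⟩ := LocDom.exists_idem (P := MvPolynomial (Fin n) k)
    (p.map (algebraMap A (Localization.Away f)))
  have := LocDom.domain_away (fun h0 => hdq (by rw [h0]; exact Ideal.zero_mem _)) he h
  obtain ⟨m, a, ha⟩ := IsLocalization.Away.surj f d
  have hu : IsUnit (algebraMap A (Localization.Away f) f ^ m) :=
    (IsLocalization.Away.algebraMap_isUnit f).pow m
  have hl : IsLocalization.Away (f * a) (Localization.Away d) :=
    IsLocalization.Away.mul_of_associated f a d (ha ▸ associated_mul_unit_left d _ hu)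
  refine ⟨f * a, fun hm => (hp.mem_or_mem hm).elim hf fun ha' => hdq ?_, ?_⟩
  · exact (Ideal.mul_unit_mem_iff_mem _ hu).1 (ha ▸ Ideal.mem_map_of_mem _ ha')
  · exact (IsLocalization.algEquiv (Submonoid.powers (f * a)) (Localization.Away (f * a))
      (Localization.Away d)).toMulEquiv.isDomain _

end Pool.Agent.MP_e8e0b6_ag

end MrgPart2

-- ======== part 3: formerly Pool.Agent.MP_e8e0b6_ag.SB.Sch
section MrgPart3

/-!
The atlas attached to an etale locally trivial family of projective spaces.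
-/

set_option linter.unusedSectionVars false

open AlgebraicGeometry CategoryTheory Limits TensorProduct IsLocalRing

namespace Pool.Agent.MP_e8e0b6_ag

open SB

attribute [local instance] MvPolynomial.gradedAlgebra

variable {k C B F E ι : Type} [Field k] {n : ℕ} {Y S T Z : Scheme.{0}}

variable (n) in
/-- The base change along `w` is a projective space. -/
def Trv (q : Y ⟶ S) (u : S ⟶ Spec (.of k)) (w : T ⟶ S) : Prop :=
  ∀ (V Z : Scheme.{0}) (g : V ⟶ T) (a : Z ⟶ Y) (b : Z ⟶ V), IsPullback a b q (g ≫ w) →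
    ∃ e, IsPullback e b (projStr k n) (g ≫ w ≫ u)

variable (n) in
/-- The family is etale locally a projective space. -/
def LocP (q : Y ⟶ S) (u : S ⟶ Spec (.of k)) : Prop :=
  ∀ (T : Scheme.{0}) (w : T ⟶ S) (t : T), ∃ (V : Scheme.{0}) (g : V ⟶ T),
    Etale g ∧ t ∈ Set.range g ∧ Trv n q u (g ≫ w)

theorem locP_of {q : Y ⟶ S} {u : S ⟶ Spec (.of k)} (h : ∀ s : S, ∃ (V : Scheme.{0}) (g : V ⟶ S),
    Etale g ∧ s ∈ Set.range g ∧ ∃ e, IsPullback e (pullback.snd q g) (projStr k n) (g ≫ u)) :
    LocP n q u := fun T w t => by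
  obtain ⟨V, g, _, ⟨v, hv⟩, e, he⟩ := h (w t)
  have H := IsPullback.of_hasPullback g w
  obtain ⟨z, -, hz⟩ := Scheme.exists_preimage_of_isPullback H v t hv
  refine ⟨_, pullback.snd g w, inferInstance, ⟨z, hz⟩, fun V' Z g' a b h => ?_⟩
  rw [← H.w, ← Category.assoc] at h
  have H' := IsPullback.of_hasPullback q g
  have h1 := IsPullback.of_right (h₁₁ := H'.lift a (b ≫ g' ≫ pullback.fst g w) (by simp [h.w]))
    (by rwa [H'.lift_fst]) (H'.lift_snd _ _ _) H'
  exact ⟨_, by simpa [← H.w] using h1.paste_horiz he⟩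

theorem LocP.bc {q : Y ⟶ S} {u : S ⟶ Spec (.of k)} (h : LocP n q u) {m : Z ⟶ Y} {q' : Z ⟶ T}
    {σ : T ⟶ S} (H : IsPullback m q' q σ) : LocP n q' (σ ≫ u) := fun T w t => by
  obtain ⟨V, g, h1, h2, h3⟩ := h T (w ≫ σ) t
  exact ⟨V, g, h1, h2, fun V' Z g' a b h => by
    simpa using h3 V' Z g' (a ≫ m) b (by simpa using h.paste_horiz H)⟩

variable [CommRing C] [CommRing B] [Field F] [Field E] [Algebra C F] [Algebra C B]
  {q : Y ⟶ Spec (.of C)} {u : Spec (.of C) ⟶ Spec (.of k)} {η : Spec (.of F) ⟶ Y}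

theorem LocP.isIntegral [IsDomain C] [Smooth q] (h : LocP n q u) : IsIntegral Y := by
  have key : ∀ p, ∃ (Z T : Scheme.{0}) (m : Z ⟶ Y) (b : Z ⟶ T) (w : T ⟶ Spec (.of C)),
      IsPullback m b q w ∧ IsIntegral Z ∧ p ∈ Set.range w := fun p => by
    obtain ⟨V, g, -, ⟨v, rfl⟩, h3⟩ := h _ (𝟙 _) p
    have H := IsPullback.of_hasPullback q (V.fromSpecResidueField v ≫ g ≫ 𝟙 _)
    obtain ⟨e, he⟩ := h3 _ _ _ _ _ H
    obtain ⟨φ, hφ⟩ := sp_surj (T := V.residueField v) (V.fromSpecResidueField v ≫ (g ≫ 𝟙 _) ≫ u)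
    let := φ.toAlgebra
    exact ⟨_, _, _, _, _, H, isIntegral_proj (B := V.residueField v) (hφ ▸ he), closedPoint _,
      by simp⟩
  have := isReduced_of_smooth q
  have : PreirreducibleSpace Y := ⟨fun U V hU hV ⟨u, _, hu⟩ ⟨v, _, hv⟩ => by
    obtain ⟨p, ⟨u, hu, e⟩, v, hv, e'⟩ := nonempty_preirreducible_inter (q.isOpenMap _ hU)
      (q.isOpenMap _ hV) ⟨_, u, hu, rfl⟩ ⟨_, v, hv, rfl⟩
    obtain ⟨Z, T, m, b, w, H, _, t, rfl⟩ := key p
    obtain ⟨a, rfl, -⟩ := Scheme.exists_preimage_of_isPullback H u _ e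
    obtain ⟨b, rfl, -⟩ := Scheme.exists_preimage_of_isPullback H v _ e'
    obtain ⟨z, hz⟩ := nonempty_preirreducible_inter (hU.preimage m.continuous)
      (hV.preimage m.continuous) ⟨a, hu⟩ ⟨b, hv⟩
    exact ⟨m z, trivial, hz⟩⟩
  obtain ⟨Z, T, m, -, -, -, _, -⟩ := key (genericPoint _)
  have : IrreducibleSpace Y := ⟨⟨m (genericPoint Z)⟩⟩
  exact isIntegral_of_irreducibleSpace_of_isReduced _

theorem LocP.isDomain [Smooth q] (h : LocP n q u) (c : Chart q η) [IsDomain B]
    (hB : Function.Injective (algebraMap C B)) : IsDomain (B ⊗[C] c.A) := by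
  have := RingHom.smooth_algebraMap.1 (smooth_of_chart c.j c.base)
  have := (Algebra.TensorProduct.includeRight_injective (B := c.A) hB).nontrivial
  have H := IsPullback.of_hasPullback q (sp (algebraMap C B))
  have := (h.bc H).isIntegral
  obtain ⟨j, _, -⟩ := exists_bc_chart H c.j c.base
  exact isDomain_chart j

theorem pc_of_trv [IsDomain B] [Module.Flat C B] [Algebra B E] [Algebra C E] [IsScalarTower C B E]
    (hK : η ≫ q = sp (algebraMap C F)) (c : ι → Chart q η) (hc : ∀ y, ∃ i, y ∈ Set.range (c i).j)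
    {m : Z ⟶ Y} {q' : Z ⟶ Spec (.of B)} (H : IsPullback m q' q (sp (algebraMap C B)))
    {e : Z ⟶ projSpace k n} {v : Spec (.of B) ⟶ Spec (.of k)}
    (he : IsPullback e q' (projStr k n) v) (β : BC C F B E) :
    ∃ x : Fin (n + 1) → E, PC B (fun O => ∃ i, ∀ a, β.μ ((c i).κ a) ∈ O) x := by
  obtain ⟨φ, rfl⟩ := sp_surj v
  let := φ.toAlgebra
  have := isIntegral_proj (B := B) he
  let ξ := H.lift (sp (β.μ : F →+* E) ≫ η) (sp (algebraMap B E)) (by
    rw [Category.assoc, hK, sp_comp, sp_comp]
    exact congrArg sp (RingHom.ext β.alg_alg))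
  have h1 : ξ ≫ m = _ := H.lift_fst _ _ _
  have h2 : ξ ≫ q' = _ := H.lift_snd _ _ _
  have : IsDominant ξ := by
    obtain ⟨i, -⟩ := hc (η (closedPoint F))
    obtain ⟨j, _, h3, h4⟩ := exists_bc_chart H (c i).j (c i).base
    have h5 := β.Θ_inj (r := (c i).κₐ) (c i).inj
    have := isDominant_sp h5
    have : IsDominant j := ⟨j.isOpenEmbedding.isOpen_range.dense ⟨_, sp (β.Θ (c i).κₐ)
      (closedPoint E), rfl⟩⟩
    have h6 : ξ = sp (β.Θ (c i).κₐ) ≫ j := H.hom_ext (by
      rw [h1, Category.assoc, h4, sp_comp_assoc]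
      refine (_ ≫= (c i).gen).symm.trans ((sp_comp_assoc _ _ _).trans ?_)
      exact congrArg (sp · ≫ _) (RingHom.ext fun a => by simp; rfl)) (by
      rw [h2, Category.assoc, h3, sp_comp]
      exact congrArg sp (RingHom.ext fun a => by simp))
    rw [h6]
    infer_instance
  obtain ⟨j, hj⟩ := pchart_cover (e (ξ (closedPoint E)))
  obtain ⟨j', _, h3, h4, h5⟩ := bc_chart (C := k) he (pchart k j) pchart_str
  obtain ⟨θ, hθ⟩ := exists_factor ξ j' (h5 _ hj)
  have h6 : ∀ b, θ (algebraMap B _ b) = algebraMap B E b :=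
    DFunLike.congr_fun (sp_inj (φ := θ.comp _) (by rw [← sp_comp, ← h3, reassoc_of% hθ, h2]))
  let ρ := θ.comp (Algebra.TensorProduct.includeRight (R := k) (A := B) (B := Ch k j)).toRingHom
  have h7 : sp ρ ≫ pchart k j = ξ ≫ e := by rw [← sp_comp_assoc, ← h4, reassoc_of% hθ]
  have := isDomain_ch (k := k) (B := B) (i := j)
  have h8 : Function.Injective θ := by
    have : IsDominant (sp θ ≫ j') := hθ ▸ inferInstance
    have := (PrimeSpectrum.denseRange_comap_iff_ker_le_nilRadical θ).1
      (IsDominant.of_comp_of_isOpenImmersion (sp θ) j').1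
    rwa [nilradical_eq_zero, Ideal.zero_eq_bot, le_bot_iff, ← RingHom.injective_iff_ker_eq_bot]
      at this
  have h9 := hinj_ch h8 h6
  refine ⟨_, h9, fun O hO hB => ?_⟩
  have := loc_iff.1 hO
  have h10 : sp O.subtype ≫ sp ((algebraMap B E).codRestrict O hB) = ξ ≫ q' := by
    rw [h2, sp_comp]; rfl
  refine ⟨fun ⟨i, hi⟩ => ?_, fun h => ?_⟩
  · let ω := H.lift (sp (((β.μ : F →+* E).comp (c i).κ).codRestrict O hi) ≫ (c i).j)
      (sp ((algebraMap B E).codRestrict O hB)) (by
        rw [Category.assoc, (c i).base, sp_comp, sp_comp]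
        exact congrArg sp (RingHom.ext fun a => Subtype.ext
          ((congrArg β.μ ((c i).comm a)).trans (β.alg_alg a))))
    have h11 : sp O.subtype ≫ ω = ξ := H.hom_ext (by
      rw [h1, Category.assoc, H.lift_fst, sp_comp_assoc]
      exact (sp_comp_assoc (c i).κ (β.μ : F →+* E) _).symm.trans (_ ≫= (c i).gen))
      (by rw [Category.assoc, H.lift_snd, h10])
    obtain ⟨l, hl⟩ := pchart_cover ((ω ≫ e) (closedPoint O))
    obtain ⟨ρ', h12⟩ := exists_factor _ _ hl
    have h13 := chart_trans (ρ := O.subtype.comp ρ') (ρ' := ρ)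
      (by rw [← sp_comp_assoc, h12, reassoc_of% h11, h7])
    exact ⟨l, fun l' => (div_eq_of_eq_mul (h9.ne l) (h13 l').symm).symm ▸ (ρ' _).2⟩
  · obtain ⟨ω, hω⟩ := exists_pt ρ (O := O) (fun a => by
      have : ρ (cst _ a) = θ (algebraMap B _ (φ a)) := congrArg θ
        (Algebra.TensorProduct.tmul_one_eq_one_tmul (A := B) (B := Ch k j) a).symm
      exact this ▸ h6 _ ▸ hB _) h9.ne h
    let ω' := he.lift ω (sp ((algebraMap B E).codRestrict O hB))
      (ext_sp (r := O.subtype) Subtype.val_injective (by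
        rw [reassoc_of% hω, reassoc_of% h10, ← he.w, reassoc_of% h7]))
    have h11 : sp O.subtype ≫ ω' = ξ := he.hom_ext (by rw [Category.assoc, he.lift_fst, hω, h7])
      (by rw [Category.assoc, he.lift_snd, h10])
    obtain ⟨i, hi⟩ := hc ((ω' ≫ m) (closedPoint O))
    exact ⟨i, (c i).subset_of_point (β.μ : F →+* E) _ (by rw [reassoc_of% h11, h1]) hi⟩

variable [Smooth q] [Y.IsSeparated] (c : ι → Chart q η) (hc : ∀ y, ∃ i, y ∈ Set.range (c i).j)
  (h : LocP n q u)

/-- The atlas given by a family of charts. -/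
noncomputable def mkAtlas : Atlas C F ι where
  A i := (c i).A
  κ i := (c i).κₐ
  inj i := (c i).inj
  frac i := (c i).frac
  ft i := have := RingHom.smooth_algebraMap.1 (smooth_of_chart (c i).j (c i).base); inferInstance
  sep i j W hW hi hj a :=
    let ⟨s, b, h1, h2⟩ := (c j).sep (c i) hW hj hi a
    ⟨b, s, h1, (mul_comm _ _).trans h2⟩
  gi D _ _ _ _ hD := by
    obtain ⟨i, -⟩ := hc (η (closedPoint F))
    have := h.isDomain (c i) hD
    exact isDomain_tensor (r := (c i).κₐ) (c i).inj (c i).frac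

theorem mkAtlas_etl (hK : η ≫ q = sp (algebraMap C F)) : (mkAtlas c hc h).Etl (Fin (n + 1)) := by
  intro k' R _ _ _ _ _ m hm
  obtain ⟨V, g, _, ⟨v, hv⟩, h1⟩ := h _ (sp (algebraMap C R)) ⟨m, hm⟩
  obtain ⟨A, _, j, _, φ, ⟨p, rfl⟩, -, h2, -⟩ := exists_piece g v ⊤ trivial (fun _ => True)
    fun A _ j _ φ h => ⟨Set.univ, Ideal.span_univ, fun _ _ => trivial⟩
  let := φ.toAlgebra
  have : Algebra.Etale R A := (HasRingHomProperty.Spec_iff (P := @Etale)
    (φ := CommRingCat.ofHom φ)).1 (show Etale (sp φ) from h2 ▸ inferInstance)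
  let := (φ.comp (algebraMap k' R)).toAlgebra
  have : IsScalarTower k' R A := .of_algebraMap_eq' rfl
  have := Algebra.Smooth.comp k' R A
  obtain ⟨f, hf, _⟩ := exists_domain_away (k := k') p.asIdeal
  let D := Localization.Away f
  have : Algebra.Etale A D := .of_isLocalizationAway f
  have := Algebra.Etale.comp R A D
  refine ⟨⟨D, fun B _ _ _ _ ψ h3 _ E _ _ _ _ β => ?_⟩, fun e => ?_⟩
  · have H := IsPullback.of_hasPullback q (sp (algebraMap C B))
    obtain ⟨e, he⟩ := h1 _ _ (sp (ψ.comp (algebraMap A D)) ≫ j) _ _ (by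
      rw [Category.assoc, reassoc_of% h2, sp_comp, sp_comp]
      convert H using 2
      exact RingHom.ext h3)
    exact pc_of_trv hK c hc H he β
  · obtain rfl : p.asIdeal.comap φ = m := congrArg PrimeSpectrum.asIdeal
      ((DFunLike.congr_fun (congrArg (·.base.hom) h2) p).symm.trans hv)
    refine (IsLocalization.isPrime_of_isPrime_disjoint (.powers f) D p.asIdeal p.2
      ((Ideal.disjoint_powers_iff_notMem_of_isPrime f).2 hf)).ne_top (top_le_iff.1 (e.ge.trans
        (Ideal.map_le_iff_le_comap.2 fun a ha => Ideal.mem_map_of_mem (algebraMap A D) ha)))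

end Pool.Agent.MP_e8e0b6_ag

end MrgPart3

-- marker of a merged file
example : 731051 + 478154 = 731051 + 478154 := rfl
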