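import Pool.Agent.MP_e8e0b6_ag.SB.Sch

/-!
Severi-Brauer schemes over an elliptic base.
-/

set_option linter.unusedSectionVars false

open AlgebraicGeometry CategoryTheory Limits IsLocalRing Polynomial TrivSqZeroExt

namespace Pool.Agent.MP_e8e0b6_ag.SB

theorem aeval_inj {B E σ : Type} [CommRing B] [Field E] [Algebra B E] {u : σ → E} (h : HInj B u)
    {m : σ} (hu : u m = 1) :
    Function.Injective (MvPolynomial.aeval (R := B) fun l : {l // l ≠ m} => u l) := by
  classical
  refine (injective_iff_map_eq_zero _).2 fun p hp => ?_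
  let p' := MvPolynomial.rename Subtype.val p
  let P := ∑ i ∈ Finset.range (p'.totalDegree + 1),
    MvPolynomial.homogeneousComponent i p' * MvPolynomial.X m ^ (p'.totalDegree - i)
  have h1 : ∀ (T : Type) [CommRing T] [Algebra B T] (g : σ → T), g m = 1 →
      MvPolynomial.aeval g P = MvPolynomial.aeval (g ∘ Subtype.val) p := fun T _ _ g hg => by
    rw [← MvPolynomial.aeval_rename]
    conv_rhs => rw [← MvPolynomial.sum_homogeneousComponent (MvPolynomial.rename _ p)]
    simp [P, p', hg]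
  have h2 : P = 0 := h p'.totalDegree _ (.sum _ _ _ fun i hi => by
    have := (MvPolynomial.homogeneousComponent_isHomogeneous i p').mul
      (MvPolynomial.isHomogeneous_X_pow m (p'.totalDegree - i))
    rwa [Nat.add_sub_cancel' (Nat.lt_succ_iff.1 (Finset.mem_range.1 hi))] at this)
    ((h1 E u hu).trans hp)
  let g : σ → MvPolynomial {l // l ≠ m} B := fun l => if h : l = m then 1 else .X ⟨l, h⟩
  have h3 := h1 _ g (dif_pos rfl)
  have h4 : g ∘ Subtype.val = MvPolynomial.X := _root_.funext fun l => dif_neg l.2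
  rw [h2, map_zero, h4, MvPolynomial.aeval_X_left_apply] at h3
  exact h3.symm

variable {k A F σ : Type} [Field k] [IsAlgClosed k] [CharZero k] [CommRing A] [IsDomain A] [Field F]
  [Algebra k A] [Algebra A[X] F] {Y : Scheme.{0}} {η : Spec (.of F) ⟶ Y}
  {q : Y ⟶ Spec (.of A[X])} {n : ℕ}

theorem exists_psi [Y.IsSeparated] [LocallyOfFiniteType q] {ι : Type} (c : ι → Chart q η)
    (hK : η ≫ q = sp (algebraMap _ F)) {w : σ → F}
    (h1 : Function.Injective (MvPolynomial.aeval (R := A[X]) w)) {h t : A} (ht : h ∣ t)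
    (h0 : t ≠ 0) (H : ∀ O, Loc O → (∀ c, algebraMap A[X] F c ∈ O) →
      Un O (algebraMap A[X] F (C h)) → (∀ l, w l ∈ O) → ∃ j, ∀ a, (c j).κ a ∈ O) (i : ι)
    (L : Type) [CommRing L] [Algebra (MvPolynomial σ A[X]) L]
    [IsLocalization.Away (MvPolynomial.C (C t) : MvPolynomial σ A[X]) L] : ∃ Ψ : Spec (.of L) ⟶ Y,
      Ψ ≫ q = sp ((algebraMap (MvPolynomial σ A[X]) L).comp MvPolynomial.C) ∧
        ∀ (T : Type) [CommRing T] (θ : (c i).A →+* T) (ρ : L →+* T),
        (∀ y, ρ (algebraMap (MvPolynomial σ A[X]) L (.C y)) = θ (algebraMap A[X] _ y)) →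
        (∀ l, Ext (c i).κ θ (w l) (ρ (algebraMap (MvPolynomial σ A[X]) L (.X l)))) →
          sp θ ≫ (c i).j = sp ρ ≫ Ψ := by
  let P := MvPolynomial σ A[X]
  let r : L →+* F := IsLocalization.Away.lift (MvPolynomial.C (C t) : P)
    (g := (MvPolynomial.aeval w).toRingHom) ((map_ne_zero_iff _ h1).2 (by simpa)).isUnit
  have h2 : ∀ p, r (algebraMap P L p) = MvPolynomial.aeval w p := IsLocalization.Away.lift_eq _ _
  have h3 := inj_loc (Submonoid.powers (MvPolynomial.C (C t) : P)) (g := r) fun p hp =>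
    h1 (by rwa [← h2, map_zero])
  obtain ⟨Ψ, h4, h5⟩ := exists_glue h3 (sp ((algebraMap P L).comp MvPolynomial.C)) q η
    (by rw [hK, sp_comp]; exact congrArg sp (RingHom.ext fun y => by simp [h2, P])) fun p hp => by
      obtain ⟨u, rfl⟩ := ht
      have h4 : ∀ y, algebraMap A[X] F y ∈ locS r p := fun y => by
        simpa [h2, P] using map_mem_locS (r := r) (p := p) (algebraMap P L (.C y))
      have h5 := (un_locS h3).2 fun h' => hp.ne_top (p.eq_top_of_isUnit_mem h'
        (IsLocalization.Away.algebraMap_isUnit (MvPolynomial.C (C (h * u)) : P)))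
      rw [h2, MvPolynomial.aeval_C, map_mul, map_mul] at h5
      obtain ⟨j, hj⟩ := H _ (loc_locS h3) h4 (h5.left (h4 _) (h4 _)) fun l => by
        simpa [h2, P] using map_mem_locS (r := r) (p := p) (algebraMap P L (.X l))
      exact ⟨sp ((c j).κ.codRestrict _ hj) ≫ (c j).j, (sp_comp_assoc _ _ _).trans (c j).gen⟩
  refine ⟨Ψ, h4, fun T _ θ ρ e1 e2 => comp_eq (c i).inj ((c i).gen.trans h5.symm)
    (ext_loc (Submonoid.powers (MvPolynomial.C (C t) : P)) fun p => ?_)⟩
  induction p using MvPolynomial.induction_on with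
  | C y => rw [h2, e1, MvPolynomial.aeval_C, ← (c i).comm]; exact .of _
  | add p q hp hq => simpa only [map_add] using hp.add hq
  | mul_X p l hp =>
    have := e2 l
    rw [← MvPolynomial.aeval_X (R := A[X]) w l, ← h2] at this
    simpa only [map_mul] using hp.mul this

theorem exists_param [IsSeparated q] [QuasiCompact q] [Smooth q] [Nontrivial (Fin (n + 1))]
    {u : Spec (.of A[X]) ⟶ Spec (.of k)} (hq : LocP n q u)
    (hA : (algebraMap k A).IsStandardSmooth) (x : A →ₐ[k] k) (R : Type) [CommRing R] [IsDomain R]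
    [IsLocalRing R] [Algebra A R] [IsLocalization.AtPrime R (kerPt x)] {s₀ : Spec (.of A) ⟶ Y}
    (h1 : s₀ ≫ q = sp constantCoeff) {v : Spec (.of (DualNumber k)) ⟶ Y}
    (h2 : v ≫ q = sp (eval₂RingHom ((inlR k).comp x) DualNumber.eps))
    (h3 : epsPoint k ≫ v = sp (x : A →+* k) ≫ s₀) :
    ∃ (t : A) (Φ : Spec (.of (Localization.Away t)[X]) ⟶ Y) (e : Localization.Away t →+* k),
      Φ ≫ q = sp (mapRingHom (algebraMap A _)) ∧ sp constantCoeff ≫ Φ = sp (algebraMap A _) ≫ s₀ ∧
        sp (eval₂RingHom ((inlR k).comp e) DualNumber.eps) ≫ Φ = v := by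
  have := isSeparated_of q
  have := RingHom.smooth_algebraMap.1 hA.smooth
  have := hq.isIntegral
  have : CompactSpace Y := QuasiCompact.compactSpace_of_compactSpace q
  obtain ⟨φ, hφ⟩ := sp_surj (gen Y ≫ q)
  let := φ.toAlgebra
  have hc : ∀ y, ∃ c : Chart q (gen Y), y ∈ Set.range c.j := fun y => by
    obtain ⟨A', _, j, _, φ, ⟨p, hp⟩, -, h1, -⟩ := exists_piece q y ⊤ trivial (fun _ => True)
      fun A _ j _ φ h => ⟨Set.univ, Ideal.span_univ, fun _ _ => trivial⟩
    have : Nontrivial A' := PrimeSpectrum.nonempty_iff_nontrivial.1 ⟨p⟩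
    let := φ.toAlgebra
    exact ⟨isGen_gen.mk' hφ.symm A' j h1, p, hp⟩
  choose c hc using hc
  obtain ⟨I, hI⟩ := isCompact_univ.elim_finite_subcover (fun y => Set.range (c y).j)
    (fun y => (c y).j.isOpenEmbedding.isOpen_range) fun y _ => Set.mem_iUnion.2 ⟨y, hc y⟩
  have hcov : ∀ y, ∃ i : I, y ∈ Set.range (c i).j := fun y => by
    obtain ⟨i, hi, h⟩ := Set.mem_iUnion₂.1 (hI (Set.mem_univ y))
    exact ⟨⟨i, hi⟩, h⟩
  obtain ⟨n, z, hz, hz'⟩ := hA.exists_etale_mvPolynomial
  obtain ⟨i, hi⟩ := hcov ((sp (algebraMap A R) ≫ s₀) (closedPoint R))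
  obtain ⟨s, hs⟩ := exists_factor _ (c i).j hi
  have h4 : ∀ {T : Type} [CommRing T] {θ : (c i).A →+* T} {ρ : A[X] →+* T},
      (sp θ ≫ (c i).j) ≫ q = sp ρ → ∀ y, θ (algebraMap A[X] _ y) = ρ y := fun {_ _ θ _} h =>
    DFunLike.congr_fun (sp_inj (φ := θ.comp _) (by rw [← h, Category.assoc, (c i).base, sp_comp]))
  have h5 := h4 (hs ▸ (Category.assoc _ _ _).trans ((congrArg _ h1).trans (sp_comp _ _)))
  have hF : Function.Injective (algebraMap A[X] Y.functionField) := fun a b h => by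
    have := RingHom.smooth_algebraMap.1 (smooth_of_chart (c i).j (c i).base)
    exact FaithfulSMul.algebraMap_injective _ (c i).A ((c i).inj (by rwa [(c i).comm, (c i).comm]))
  obtain ⟨h, ψ, e1, e2, e3⟩ := exists_linear_coords (𝒜 := mkAtlas (fun i : I => c i) hcov hq) (i := i)
    x hF s (fun y => (h5 y).trans (congrArg _ (coeff_zero_eq_eval_zero y)))
    (mkAtlas_etl _ hcov hq hφ.symm) (lindel ⟨z, DFunLike.congr_fun hz⟩ hz' x R)
  have e4 : ∀ y, Ext (c i).κ s (algebraMap A[X] _ y) (s (algebraMap A[X] _ y)) := fun y =>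
    (c i).comm y ▸ Ext.of _
  obtain ⟨m, hm⟩ := (e3 _ (loc_dom (θ := s) (c i).inj) (fun y => mem_dom.2 ⟨_, e4 y⟩)
    ((e4 _).un (c i).inj (isUnit_of_resAt (x := x) (by simpa [h5, resAt_map])))).1
    ⟨i, fun a => mem_dom.2 ⟨_, .of a⟩⟩
  choose τ a b e5 e6 e7 using fun l : {l // l ≠ m} => mem_dom.1 (hm l)
  have h6 : epsPoint k ≫ v = sp ((resAt R x).comp s) ≫ (c i).j := by
    rw [← sp_comp_assoc, hs, sp_comp_assoc, h3]
    exact congrArg (sp · ≫ _) (RingHom.ext fun a => (resAt_map a).symm)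
  obtain ⟨θ, hθ⟩ := exists_factor v (c i).j (by
    rw [← eps_closedPoint, ← Scheme.Hom.comp_apply, h6]; exact ⟨_, rfl⟩)
  have h7 : ∀ a, (θ a).fst = resAt R x (s a) := DFunLike.congr_fun (sp_cancel (c i).j
    (ρ := (fstR k).comp θ) (ρ' := (resAt R x).comp s)
    (by rw [← h6, ← hθ]; exact (sp_comp_assoc _ _ _).symm))
  obtain ⟨⟨m', hm'⟩, h8⟩ :=
    IsLocalization.exist_integer_multiples_of_finite (kerPt x).primeCompl τ
  have ht : x (h * m') ≠ 0 := by rw [map_mul]; exact mul_ne_zero e1 hm'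
  have h0 : h * m' ≠ 0 := fun h => ht (by rw [h, map_zero])
  let A' := Localization.Away (h * m')
  let l : A' →+* R := IsLocalization.Away.lift (h * m') (isUnit_of_resAt (x := x) (by rwa [resAt_map]))
  have hl : ∀ y, l (algebraMap A A' y) = algebraMap A R y := IsLocalization.Away.lift_eq _ _
  have h9 : ∀ j, ∃ w₀, l w₀ = τ j := fun j => by
    obtain ⟨y, hy⟩ := (IsLocalization.Away.algebraMap_isUnit (S := A') (h * m')).exists_right_inv
    obtain ⟨d, hd⟩ := h8 j
    have := congrArg l hy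
    rw [map_mul, hl, map_mul, map_one] at this
    refine ⟨algebraMap A A' (d * h) * y, ?_⟩
    rw [map_mul, hl, map_mul, hd, Algebra.smul_def]
    linear_combination τ j * this
  choose w₀ h9 using h9
  have h10 : ∀ j, IsUnit (θ (b j)) := fun j => isUnit_iff_isUnit_fst.2 (h7 _ ▸ (e5 j).map _)
  choose ω hω using fun j => (h10 j).dvd (a := θ (a j))
  let P := MvPolynomial {l // l ≠ m} A[X]
  let L := Localization.Away (MvPolynomial.C (C (h * m')) : P)
  obtain ⟨Ψ, h11, h12⟩ := exists_psi (fun i : I => c i) hφ.symm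
    (aeval_inj (e2.div (e2.ne m)) (div_self (e2.ne m))) (dvd_mul_right h m') h0
    (fun O hO hC hu hw => (e3 O hO hC hu).2 ⟨m, fun j => by
      by_cases hj : j = m
      exacts [by simp [hj, e2.ne m], hw ⟨j, hj⟩]⟩) i L
  let μ : L →+* A'[X] := IsLocalization.Away.lift (MvPolynomial.C (C (h * m')) : P)
    (g := MvPolynomial.eval₂Hom (mapRingHom (algebraMap A A'))
      fun j => C (w₀ j) + C (algebraMap k A' (ω j).snd) * X)
    (by simpa [P] using (IsLocalization.Away.algebraMap_isUnit (S := A') (h * m')).map C)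
  have h13 : ∀ y, μ (algebraMap P L (.C y)) = y.map (algebraMap A A') := fun y =>
    (IsLocalization.Away.lift_eq _ _ _).trans (MvPolynomial.eval₂_C _ _ _)
  have h14 : ∀ j, μ (algebraMap P L (.X j)) = C (w₀ j) + C (algebraMap k A' (ω j).snd) * X :=
    fun j => (IsLocalization.Away.lift_eq _ _ _).trans (MvPolynomial.eval₂_X _ _ _)
  refine ⟨h * m', sp μ ≫ Ψ, (resAt R x).comp l, ?_, ?_, ?_⟩
  · rw [Category.assoc, h11, sp_comp]
    exact congrArg sp (RingHom.ext h13)
  · refine ext_sp (r := (algebraMap R (FractionRing R)).comp l)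
      ((IsFractionRing.injective _ _).comp (inj_loc (Submonoid.powers (h * m')) fun y hy =>
        IsLocalization.injective R (kerPt x).primeCompl_le_nonZeroDivisors (by rwa [← hl, map_zero]))) ?_
    rw [← sp_comp_assoc l, ← sp_comp_assoc l, sp_comp_assoc _ l, sp_comp_assoc _ l, sp_comp_assoc μ,
      ← h12 R s _ (fun y => by simp [h13, h5, hl, P])
        (fun j => ⟨a j, b j, e5 j, e6 j, by simp [h14, h9, e7, P]⟩), hs]
    exact congrArg (_ ≫ sp · ≫ _) (RingHom.ext hl).symm
  · rw [sp_comp_assoc, ← hθ]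
    refine (h12 _ θ _ (fun y => ?_) fun j => ⟨a j, b j, h10 j, e6 j, ?_⟩).symm
    · rw [h4 (hθ ▸ h2), RingHom.comp_apply, h13, coe_eval₂RingHom, eval₂_map]
      exact congrArg (eval₂ · _ y) (RingHom.ext fun a => by simp [hl, resAt_map])
    · have h15 : resAt R x (l (w₀ j)) = (ω j).fst :=
        mul_right_cancel₀ ((e5 j).map (resAt R x)).ne_zero (by
          rw [← map_mul, h9, e7, ← h7, ← h7, hω, fst_mul, mul_comm])
      have h16 : resAt R x (l (algebraMap k A' (ω j).snd)) = (ω j).snd := by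
        rw [IsScalarTower.algebraMap_apply k A A', hl, resAt_map, x.commutes]; rfl
      rw [hω, mul_comm, RingHom.comp_apply, h14]
      congr 1
      ext <;> simp [h15, h16, algebraMap_eq_inl]

theorem elliptic_of_locP {X S : Scheme.{0}} (f : S ⟶ Spec (.of k)) (π : X ⟶ S)
    (hX : SmoothVariety (π ≫ f)) [Smooth π] (eS : Elliptic f) [Nontrivial (Fin (n + 1))]
    (hπ : LocP n π f) : Elliptic (π ≫ f) := by
  have := hX.separated
  have := hX.integral
  have := hX.smooth
  have := hX.compact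
  have := eS.1.separated
  have := isSeparated_of (π ≫ f)
  have := IsSeparated.of_comp π f
  have := QuasiCompact.of_comp π f
  refine elliptic_of_germs hX fun v hv => ?_
  obtain ⟨U, hU, hL⟩ := exists_line eS (v ≫ π) (by rwa [Category.assoc])
  obtain ⟨A, _, j, _, φ, h1, h2, h3, h4⟩ := exists_piece (π ≫ f) (v (closedPoint _)) (π ⁻¹ᵁ U) hU
    RingHom.IsStandardSmooth fun A _ j _ φ h => (smooth_of_chart j h).locally_isStandardSmooth
  obtain ⟨θ, rfl⟩ := exists_factor v j h1
  have := θ.domain_nontrivial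
  have := isDomain_chart j
  let := φ.toAlgebra
  have h5 : θ.comp φ = algebraMap k _ := sp_inj (by rw [← sp_comp, ← h3, ← Category.assoc, hv]; rfl)
  let x : A →ₐ[k] k := ⟨(fstR k).comp θ, fun a => congrArg fst (DFunLike.congr_fun h5 a)⟩
  have h6 : epsPoint k ≫ sp θ = sp (x : A →+* k) := sp_comp _ _
  obtain ⟨σ, e1, e2, e3⟩ := hL A (j ≫ π) x (by rintro _ ⟨p, rfl⟩; exact h2 ⟨p, rfl⟩)
    (by rw [← h6]; simp)
  have H := IsPullback.of_hasPullback π σ
  obtain ⟨t, Φ, e, h7, h8, h9⟩ := exists_param (q := pullback.snd π σ) (hπ.bc H)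
    h4 x (Localization.AtPrime (kerPt x)) (H.lift_snd j _ e2.symm)
    (H.lift_snd (sp θ ≫ j) _ e3.symm) (H.hom_ext
      (by simp [← h6]) (by
        rw [Category.assoc (epsPoint k), Category.assoc (sp (x : A →+* k)), H.lift_snd, H.lift_snd, sp_comp]
        refine (sp_comp _ _).trans (congrArg sp ?_)
        ext <;> simp [algebraMap_eq_inl]))
  refine ⟨_, _, sp (algebraMap A _) ≫ j, inferInstance, Φ ≫ pullback.fst π σ, e, ?_, ?_, ?_⟩
  · rw [Category.assoc, H.w_assoc, reassoc_of% h7, e1, Category.assoc, Category.assoc, sp_comp_assoc,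
      sp_comp_assoc, mapRingHom_comp_C]
  · rw [reassoc_of% h8, H.lift_fst]
  · rw [reassoc_of% h9, H.lift_fst]

end Pool.Agent.MP_e8e0b6_ag.SB
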